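import Pool.Agent.Lib.MP_42948a_nt.BM.Defs
import Pool.Agent.Lib.MP_42948a_nt.OM.I1

/-!
# The additive character `es` and the functions `tauS`, `uS` (job A0)

`ze m` is a primitive `m`-th root of unity (`ze_prim`), `ze_norm`, `ze_pow_cast` : `OM/I1.lean`. `es x = ze m ^ x.val`.
`es_nat` is `ze_pow_cast`. `es_add`: `(x + y).val = (x.val + y.val) % m` (`ZMod.val_add`), `ze m ^ m = 1` (`pow_eq_pow_mod`). `es_conj`: `es (-x) * es x = es 0 = 1` and
`‖es x‖ = 1`, so `es (-x) = (es x)⁻¹ = conj (es x)`. `es_sum`: for `x = 0` all terms are `1`; for `x ≠ 0` put `w = es x ≠ 1` (`IsPrimitiveRoot.pow_eq_one_iff_dvd`, `0 < x.val < m`);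
multiplication by `w` permutes the sum: `w * ∑ i, es (i * x) = ∑ i, es ((i + 1) * x) = ∑ i, es (i * x)` (`Equiv.addRight`), so the sum vanishes.
`tauS_ne`: `tauS S = conj (∑ x ∈ S, es x)` and `tau_ne_zero` (`OM/I1.lean`). `tauS_shift`: `x ↦ x - y` is injective, `es (-(x - y)) = es y * es (-x)`.
`uS_norm`: from `tauS_ne`. `uS_shift`: the images have the same norm (`‖es y‖ = 1`).
-/

namespace Pool.Agent.Lib.MP_42948a_nt.BM

open Finset Pool.Agent.Lib.MP_42948a_nt.OA Pool.Agent.Lib.MP_42948a_nt.OM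

theorem es_nat {m : ℕ} [NeZero m] (n : ℕ) : es ((n : ℕ) : ZMod m) = ze m ^ n := by
  unfold es
  exact ze_pow_cast m n

theorem es_norm {m : ℕ} (x : ZMod m) : ‖es x‖ = 1 := by
  unfold es
  rw [norm_pow, ze_norm, one_pow]

theorem es_zero {m : ℕ} [NeZero m] : es (0 : ZMod m) = 1 := by
  unfold es
  rw [ZMod.val_zero, pow_zero]

theorem es_add {m : ℕ} [NeZero m] (x y : ZMod m) : es (x + y) = es x * es y := by
  have h1 : x + y = ((x.val + y.val : ℕ) : ZMod m) := by
    rw [Nat.cast_add, ZMod.natCast_zmod_val, ZMod.natCast_zmod_val]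
  rw [h1, es_nat, pow_add]
  rfl

theorem es_conj {m : ℕ} [NeZero m] (x : ZMod m) : (starRingEnd ℂ) (es x) = es (-x) := by
  have h0 : es x ≠ 0 := by
    intro h
    have h1 := es_norm x
    rw [h, norm_zero] at h1
    exact zero_ne_one h1
  apply mul_right_cancel₀ h0
  rw [← es_add, neg_add_cancel, es_zero, Complex.conj_mul', es_norm]
  norm_num

theorem es_sum {m : ℕ} [NeZero m] (x : ZMod m) : ∑ i : ZMod m, es (i * x) = if x = 0 then (m : ℂ) else 0 := by
  by_cases hx : x = 0
  · rw [if_pos hx, hx]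
    simp only [mul_zero, es_zero]
    rw [sum_const, card_univ, ZMod.card, nsmul_eq_mul, mul_one]
  · rw [if_neg hx]
    have hne : es x ≠ 1 := by
      intro h
      unfold es at h
      have h1 := ((ze_prim m (NeZero.ne m)).pow_eq_one_iff_dvd x.val).1 h
      have h2 := Nat.eq_zero_of_dvd_of_lt h1 (ZMod.val_lt x)
      exact hx ((ZMod.val_eq_zero x).1 h2)
    have h1 : ∑ i : ZMod m, es ((i + 1) * x) = ∑ i : ZMod m, es (i * x) :=
      Equiv.sum_comp (Equiv.addRight (1 : ZMod m)) (fun i => es (i * x))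
    have h2 : ∑ i : ZMod m, es ((i + 1) * x) = (∑ i : ZMod m, es (i * x)) * es x := by
      rw [sum_mul]
      refine sum_congr rfl fun i _ => ?_
      rw [add_mul, one_mul, es_add]
    have h3 : (∑ i : ZMod m, es (i * x)) * (es x - 1) = 0 := by
      rw [mul_sub, mul_one, ← h2, h1, sub_self]
    exact (mul_eq_zero.1 h3).resolve_right (sub_ne_zero.2 hne)

theorem tauS_ne {m : ℕ} (hm : m.Prime) (S : Finset (ZMod m)) (hS : S.Nonempty) (hS' : S.card < m) : tauS S ≠ 0 := by
  have : NeZero m := ⟨hm.ne_zero⟩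
  have h1 : tauS S = (starRingEnd ℂ) (∑ x ∈ S, ze m ^ x.val) := by
    unfold tauS
    rw [map_sum]
    refine sum_congr rfl fun x _ => ?_
    rw [← es_conj]
    rfl
  rw [h1]
  intro h2
  exact tau_ne_zero m hm S hS hS' ((map_eq_zero _).1 h2)

theorem tauS_shift {m : ℕ} [NeZero m] (S : Finset (ZMod m)) (y : ZMod m) :
    tauS (S.image (fun x => x - y)) = es y * tauS S := by
  unfold tauS
  rw [sum_image (fun a _ b _ hab => sub_left_injective hab), mul_sum]
  refine sum_congr rfl fun x _ => ?_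
  rw [← es_add]
  congr 1
  ring

theorem uS_norm {m : ℕ} (hm : m.Prime) (S : Finset (ZMod m)) (hS : S.Nonempty) (hS' : S.card < m) : ‖uS S‖ = 1 := by
  unfold uS
  rw [norm_div, Complex.norm_real, norm_norm]
  exact div_self (norm_ne_zero_iff.2 (tauS_ne hm S hS hS'))

theorem uS_norm_le {m : ℕ} (S : Finset (ZMod m)) : ‖uS S‖ ≤ 1 := by
  unfold uS
  rw [norm_div, Complex.norm_real, norm_norm]
  exact div_self_le_one _

theorem uS_shift {m : ℕ} [NeZero m] (S : Finset (ZMod m)) (y : ZMod m) :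
    uS (S.image (fun x => x - y)) = es y * uS S := by
  unfold uS
  rw [tauS_shift, norm_mul, es_norm, one_mul, mul_div_assoc]

end Pool.Agent.Lib.MP_42948a_nt.BM
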