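import Pool.Agent.Lib.MP_42948a_nt.BM.Defs
import Pool.Agent.Lib.MP_42948a_nt.OM.A2

/-!
# Fourier analysis on `G = (ZMod d)ˣ` (job A1)

`FT h χ = (∑ g, h g * χ (g⁻¹)) / φ`. `orth`, `norm_char_unit`, `conj_char_unit` : `OM/A1.lean`; `parseval_char`, `inversion` : `OM/A2.lean`.
`FT_inv`: `∑ χ, FT h χ * χ g = (1/φ) ∑_y h y ∑ χ, χ(y⁻¹) χ(g) = h g` by `orth` (with `b = y`, `x = g`; units are equal iff their values are).
`FT_uniq`: `FT h χ = (1/φ) ∑_g ∑_ψ c ψ * ψ g * χ (g⁻¹)` and `∑_g ψ g * χ (g⁻¹) = φ` if `ψ = χ`, `0` otherwise (the private lemma `A2_inner` of `OM/A2.lean`; copy it; or: the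
character `ψ * χ⁻¹` is nonprincipal, so its sum over the units is `0`: `MulChar.sum_eq_zero_of_ne_one`).
`FT_parseval`: `parseval_char` applied to `k χ = FT h χ` composed with `χ ↦ χ⁻¹`, or directly: `h g = ∑ χ, FT h χ * χ g`; put `k χ = FT h χ⁻¹`, then
`h g = ∑ χ, k χ * χ (g⁻¹)` (`Equiv.inv`, `χ⁻¹ (g) = χ (g⁻¹)` for units, `MulChar.inv_apply`), so `∑ g, ‖h g‖^2 = φ ∑ ‖k χ‖^2 = φ ∑ ‖FT h χ‖^2`.
`FT_le`: triangle inequality, `‖χ u‖ = 1` for units. `FT_mulr`: substitute `g ↦ g * a⁻¹`: `χ ((g * a⁻¹)⁻¹) = χ (g⁻¹) χ a`.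
-/

namespace Pool.Agent.Lib.MP_42948a_nt.BM

open Finset Pool.Agent.Lib.MP_42948a_nt.OA Pool.Agent.Lib.MP_42948a_nt.OM

private theorem A1_inner (d : ℕ) [NeZero d] (χ χ' : DirichletCharacter ℂ d) :
    ∑ b : (ZMod d)ˣ, χ ((b⁻¹ : (ZMod d)ˣ) : ZMod d) * χ' (b : ZMod d) =
      if χ = χ' then (d.totient : ℂ) else 0 := by
  split_ifs with h
  · subst h
    have h1 : ∀ b : (ZMod d)ˣ, χ ((b⁻¹ : (ZMod d)ˣ) : ZMod d) * χ (b : ZMod d) = 1 := by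
      intro b
      rw [← map_mul, Units.inv_mul, map_one]
    simp only [h1, Finset.sum_const, Finset.card_univ, ZMod.card_units_eq_totient, nsmul_eq_mul, mul_one]
  · obtain ⟨b0, hb0⟩ : ∃ b0 : (ZMod d)ˣ, χ (b0 : ZMod d) ≠ χ' (b0 : ZMod d) := by
      by_contra hcon
      push Not at hcon
      exact h (MulChar.ext hcon)
    set S := ∑ b : (ZMod d)ˣ, χ ((b⁻¹ : (ZMod d)ˣ) : ZMod d) * χ' (b : ZMod d) with hS
    have h1 : S = (χ ((b0⁻¹ : (ZMod d)ˣ) : ZMod d) * χ' (b0 : ZMod d)) * S := by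
      have h2 : ∑ b : (ZMod d)ˣ, χ (((b * b0)⁻¹ : (ZMod d)ˣ) : ZMod d) * χ' ((b * b0 : (ZMod d)ˣ) : ZMod d) = S :=
        Equiv.sum_comp (Equiv.mulRight b0) (fun b : (ZMod d)ˣ => χ ((b⁻¹ : (ZMod d)ˣ) : ZMod d) * χ' (b : ZMod d))
      conv_lhs => rw [← h2]
      rw [hS, Finset.mul_sum]
      refine Finset.sum_congr rfl fun b _ => ?_
      rw [mul_inv_rev, Units.val_mul, Units.val_mul, map_mul, map_mul]
      ring
    have h2 : χ ((b0⁻¹ : (ZMod d)ˣ) : ZMod d) * χ' (b0 : ZMod d) ≠ 1 := by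
      intro h3
      apply hb0
      have h4 : χ ((b0 : ZMod d)) * χ ((b0⁻¹ : (ZMod d)ˣ) : ZMod d) = 1 := by
        rw [← map_mul, Units.mul_inv, map_one]
      calc χ (b0 : ZMod d) = χ (b0 : ZMod d) * (χ ((b0⁻¹ : (ZMod d)ˣ) : ZMod d) * χ' (b0 : ZMod d)) := by
            rw [h3, mul_one]
        _ = (χ ((b0 : ZMod d)) * χ ((b0⁻¹ : (ZMod d)ˣ) : ZMod d)) * χ' (b0 : ZMod d) := by ring
        _ = χ' (b0 : ZMod d) := by rw [h4, one_mul]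
    have h3 : (1 - χ ((b0⁻¹ : (ZMod d)ˣ) : ZMod d) * χ' (b0 : ZMod d)) * S = 0 := by
      rw [sub_mul, one_mul, ← h1, sub_self]
    rcases mul_eq_zero.mp h3 with h4 | h4
    · exact absurd (sub_eq_zero.mp h4).symm h2
    · exact h4

private theorem A1_phi (d : ℕ) [NeZero d] : (d.totient : ℂ) ≠ 0 := by
  exact_mod_cast (Nat.totient_pos.mpr (Nat.pos_of_ne_zero (NeZero.ne d))).ne'

theorem FT_inv {d : ℕ} [NeZero d] (h : (ZMod d)ˣ → ℂ) (g : (ZMod d)ˣ) :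
    h g = ∑ χ : DirichletCharacter ℂ d, FT h χ * χ (g : ZMod d) := by
  have hφ := A1_phi d
  have h1 : ∀ χ : DirichletCharacter ℂ d, FT h χ * χ (g : ZMod d) =
      ∑ y : (ZMod d)ˣ, (h y / (d.totient : ℂ)) *
        (χ ((y⁻¹ : (ZMod d)ˣ) : ZMod d) * χ (g : ZMod d)) := by
    intro χ
    rw [FT, Finset.sum_div, Finset.sum_mul]
    refine Finset.sum_congr rfl fun y _ => ?_
    ring
  simp only [h1]
  rw [Finset.sum_comm]
  simp only [← Finset.mul_sum, orth]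
  rw [Finset.sum_eq_single g]
  · rw [if_pos rfl, div_mul_cancel₀ _ hφ]
  · intro y _ hne
    rw [if_neg (fun h => hne (Units.ext h).symm), mul_zero]
  · intro h
    exact absurd (Finset.mem_univ g) h

theorem FT_uniq {d : ℕ} [NeZero d] (c : DirichletCharacter ℂ d → ℂ) (h : (ZMod d)ˣ → ℂ)
    (hh : ∀ g : (ZMod d)ˣ, h g = ∑ χ : DirichletCharacter ℂ d, c χ * χ (g : ZMod d)) (χ : DirichletCharacter ℂ d) :
    FT h χ = c χ := by
  have hφ := A1_phi d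
  have h1 : ∑ g : (ZMod d)ˣ, h g * χ ((g⁻¹ : (ZMod d)ˣ) : ZMod d) = c χ * (d.totient : ℂ) := by
    have h2 : ∀ g : (ZMod d)ˣ, h g * χ ((g⁻¹ : (ZMod d)ˣ) : ZMod d) =
        ∑ ψ : DirichletCharacter ℂ d, c ψ *
          (χ ((g⁻¹ : (ZMod d)ˣ) : ZMod d) * ψ (g : ZMod d)) := by
      intro g
      rw [hh g, Finset.sum_mul]
      refine Finset.sum_congr rfl fun ψ _ => ?_
      ring
    simp only [h2]
    rw [Finset.sum_comm]
    simp only [← Finset.mul_sum, A1_inner]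
    rw [Finset.sum_eq_single χ]
    · rw [if_pos rfl]
    · intro ψ _ hne
      rw [if_neg (fun h => hne h.symm), mul_zero]
    · intro h
      exact absurd (Finset.mem_univ χ) h
  rw [FT, h1, mul_div_cancel_right₀ _ hφ]

theorem FT_parseval {d : ℕ} [NeZero d] (h : (ZMod d)ˣ → ℂ) :
    ∑ χ : DirichletCharacter ℂ d, ‖FT h χ‖ ^ 2 = (∑ g : (ZMod d)ˣ, ‖h g‖ ^ 2) / (d.totient : ℝ) := by
  have hφ : (d.totient : ℝ) ≠ 0 := by
    exact_mod_cast (Nat.totient_pos.mpr (Nat.pos_of_ne_zero (NeZero.ne d))).ne'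
  have h1 := parseval_char d (fun χ => FT h χ)
  have h2 : ∑ b : (ZMod d)ˣ, ‖∑ χ : DirichletCharacter ℂ d,
      FT h χ * χ ((b⁻¹ : (ZMod d)ˣ) : ZMod d)‖ ^ 2 = ∑ g : (ZMod d)ˣ, ‖h g‖ ^ 2 := by
    rw [← Equiv.sum_comp (Equiv.inv (ZMod d)ˣ) (fun g : (ZMod d)ˣ => ‖h g‖ ^ 2)]
    refine Finset.sum_congr rfl fun b _ => ?_
    rw [← FT_inv h b⁻¹]
    rfl
  rw [h2] at h1
  rw [h1, mul_div_cancel_left₀ _ hφ]

theorem FT_le {d : ℕ} [NeZero d] (h : (ZMod d)ˣ → ℂ) (χ : DirichletCharacter ℂ d) :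
    ‖FT h χ‖ ≤ (∑ g : (ZMod d)ˣ, ‖h g‖) / (d.totient : ℝ) := by
  have hφ : (0 : ℝ) < (d.totient : ℝ) := by
    exact_mod_cast (Nat.totient_pos.mpr (Nat.pos_of_ne_zero (NeZero.ne d)))
  rw [FT, norm_div, Complex.norm_natCast]
  refine div_le_div_of_nonneg_right ?_ hφ.le
  refine (norm_sum_le _ _).trans (le_of_eq (Finset.sum_congr rfl fun g _ => ?_))
  rw [norm_mul, norm_char_unit, mul_one]

theorem FT_one {d : ℕ} [NeZero d] (h : (ZMod d)ˣ → ℂ) :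
    FT h (1 : DirichletCharacter ℂ d) = (∑ g : (ZMod d)ˣ, h g) / (d.totient : ℂ) := by
  rw [FT]
  congr 1
  refine Finset.sum_congr rfl fun g _ => ?_
  rw [MulChar.one_apply_coe, mul_one]

theorem FT_mulr {d : ℕ} [NeZero d] (h : (ZMod d)ˣ → ℂ) (a : (ZMod d)ˣ) (χ : DirichletCharacter ℂ d) :
    FT (fun g => h (g * a)) χ = χ (a : ZMod d) * FT h χ := by
  have h1 : ∑ g : (ZMod d)ˣ, h (g * a) * χ ((g⁻¹ : (ZMod d)ˣ) : ZMod d) =
      χ (a : ZMod d) * ∑ g : (ZMod d)ˣ, h g * χ ((g⁻¹ : (ZMod d)ˣ) : ZMod d) := by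
    rw [← Equiv.sum_comp (Equiv.mulRight a)
      (fun g : (ZMod d)ˣ => h g * χ ((g⁻¹ : (ZMod d)ˣ) : ZMod d)), Finset.mul_sum]
    refine Finset.sum_congr rfl fun g _ => ?_
    have h2 : χ (a : ZMod d) * χ ((a⁻¹ : (ZMod d)ˣ) : ZMod d) = 1 := by
      rw [← map_mul, Units.mul_inv, map_one]
    show h (g * a) * χ ((g⁻¹ : (ZMod d)ˣ) : ZMod d) =
      χ (a : ZMod d) * (h (g * a) * χ (((g * a)⁻¹ : (ZMod d)ˣ) : ZMod d))
    rw [mul_inv_rev, Units.val_mul, map_mul]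
    linear_combination (-(h (g * a) * χ ((g⁻¹ : (ZMod d)ˣ) : ZMod d))) * h2
  rw [FT, FT, h1, mul_div_assoc]

theorem FT_sum {d : ℕ} [NeZero d] {ι : Type*} (S : Finset ι) (h : ι → (ZMod d)ˣ → ℂ) (χ : DirichletCharacter ℂ d) :
    FT (fun g => ∑ i ∈ S, h i g) χ = ∑ i ∈ S, FT (h i) χ := by
  simp only [FT]
  rw [← Finset.sum_div, Finset.sum_comm]
  congr 1
  refine Finset.sum_congr rfl fun g _ => ?_
  rw [Finset.sum_mul]

theorem FT_const_mul {d : ℕ} [NeZero d] (c : ℂ) (h : (ZMod d)ˣ → ℂ) (χ : DirichletCharacter ℂ d) :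
    FT (fun g => c * h g) χ = c * FT h χ := by
  simp only [FT]
  rw [← mul_div_assoc, Finset.mul_sum]
  congr 1
  refine Finset.sum_congr rfl fun g _ => ?_
  rw [mul_assoc]

end Pool.Agent.Lib.MP_42948a_nt.BM
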