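import Pool.Agent.Lib.MP_42948a_nt.BM.A1

/-!
# The Wiener norm (job A2)

`Wn h = ∑ χ, ‖FT h χ‖`. `norm_le_Wn`: `FT_inv` and `‖χ g‖ = 1` (`norm_char_unit` of `OM/A1.lean`). `Wn_le_of`: `FT_uniq`. `Wn_const_mul`: `FT_const_mul`. `Wn_add`: `FT_sum` or directly
`Wn_le_of` with `c χ = FT h χ + FT k χ`. `Wn_one`: `1 = ∑ χ, (if χ = 1 then 1 else 0) * χ g`, `Wn_le_of`.
`Wn_mul`: `h g * k g = ∑ χ, ∑ ψ, FT h χ * FT k ψ * (χ ψ) g = ∑ η, (∑ χ, FT h χ * FT k (χ⁻¹ η)) * η g` (substitute `ψ = χ⁻¹ η`, `Equiv.mulLeft`), `Wn_le_of`, triangle inequality and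
`∑ η, ∑ χ, ‖FT h χ‖ ‖FT k (χ⁻¹ η)‖ = Wn h * Wn k`. `Wn_re`: `Re z = (z + conj z)/2` and `conj (h g) = ∑ χ, conj (FT h χ) χ⁻¹ g`: `Wn (conj h) ≤ Wn h` by `Wn_le_of` with
`c χ = conj (FT h χ⁻¹)` (`conj_char_unit`). `Wn_prod`: induction over `S` (`Finset.induction_on`), `0 ≤ M` because of `Wn_nonneg` if `S` is nonempty (if `S = ∅` the claim is `Wn 1 ≤ 1`).
`Wn_pow`: induction. `Wn_poly`: `P.eval x = ∑ k ∈ P.support, P.coeff k * x ^ k` (`Polynomial.eval_eq_sum`, `Polynomial.sum_def`), a finite sum version of `Wn_add`, `Wn_const_mul`, `Wn_pow`.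
-/

namespace Pool.Agent.Lib.MP_42948a_nt.BM

open Finset Pool.Agent.Lib.MP_42948a_nt.OA Pool.Agent.Lib.MP_42948a_nt.OM

theorem Wn_nonneg {d : ℕ} [NeZero d] (h : (ZMod d)ˣ → ℂ) : 0 ≤ Wn h :=
  Finset.sum_nonneg fun _ _ => norm_nonneg _

theorem norm_le_Wn {d : ℕ} [NeZero d] (h : (ZMod d)ˣ → ℂ) (g : (ZMod d)ˣ) : ‖h g‖ ≤ Wn h := by
  rw [FT_inv h g]
  refine (norm_sum_le _ _).trans (Finset.sum_le_sum fun χ _ => ?_)
  rw [norm_mul, norm_char_unit, mul_one]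

theorem Wn_le_of {d : ℕ} [NeZero d] (c : DirichletCharacter ℂ d → ℂ) (h : (ZMod d)ˣ → ℂ)
    (hh : ∀ g : (ZMod d)ˣ, h g = ∑ χ : DirichletCharacter ℂ d, c χ * χ (g : ZMod d)) :
    Wn h ≤ ∑ χ : DirichletCharacter ℂ d, ‖c χ‖ := by
  refine Finset.sum_le_sum fun χ _ => ?_
  rw [FT_uniq c h hh χ]

theorem Wn_one {d : ℕ} [NeZero d] : Wn (fun _ : (ZMod d)ˣ => (1 : ℂ)) ≤ 1 := by
  classical
  refine (Wn_le_of (fun χ => if χ = 1 then (1 : ℂ) else 0) _ ?_).trans ?_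
  · intro g
    rw [Finset.sum_eq_single (1 : DirichletCharacter ℂ d)]
    · rw [if_pos rfl, one_mul, MulChar.one_apply_coe]
    · intro b _ hb
      rw [if_neg hb, zero_mul]
    · intro hb
      exact absurd (Finset.mem_univ _) hb
  · rw [Finset.sum_eq_single (1 : DirichletCharacter ℂ d)]
    · rw [if_pos rfl, norm_one]
    · intro b _ hb
      rw [if_neg hb, norm_zero]
    · intro hb
      exact absurd (Finset.mem_univ _) hb

theorem Wn_const_mul {d : ℕ} [NeZero d] (c : ℂ) (h : (ZMod d)ˣ → ℂ) : Wn (fun g => c * h g) ≤ ‖c‖ * Wn h := by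
  unfold Wn
  rw [Finset.mul_sum]
  refine Finset.sum_le_sum fun χ _ => ?_
  rw [FT_const_mul, norm_mul]

theorem Wn_sum {d : ℕ} [NeZero d] {ι : Type*} (S : Finset ι) (h : ι → (ZMod d)ˣ → ℂ) :
    Wn (fun g => ∑ i ∈ S, h i g) ≤ ∑ i ∈ S, Wn (h i) := by
  unfold Wn
  rw [Finset.sum_comm]
  refine Finset.sum_le_sum fun χ _ => ?_
  rw [FT_sum]
  exact norm_sum_le _ _

private theorem A2_cancel {d : ℕ} [NeZero d] (χ η : DirichletCharacter ℂ d) (g : (ZMod d)ˣ) :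
    χ (g : ZMod d) * (χ⁻¹ * η) (g : ZMod d) = η (g : ZMod d) := by
  rw [← MulChar.mul_apply, mul_inv_cancel_left]

theorem Wn_mul {d : ℕ} [NeZero d] (h k : (ZMod d)ˣ → ℂ) : Wn (fun g => h g * k g) ≤ Wn h * Wn k := by
  refine (Wn_le_of (fun η => ∑ χ : DirichletCharacter ℂ d, FT h χ * FT k (χ⁻¹ * η)) _ ?_).trans ?_
  · intro g
    rw [FT_inv h g, FT_inv k g, Finset.sum_mul_sum]
    simp only [Finset.sum_mul]
    rw [Finset.sum_comm (s := univ) (t := univ)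
      (f := fun η χ : DirichletCharacter ℂ d => FT h χ * FT k (χ⁻¹ * η) * η (g : ZMod d))]
    refine Finset.sum_congr rfl fun χ _ => ?_
    have h1 := Equiv.sum_comp (Equiv.mulLeft χ⁻¹)
      (fun ψ : DirichletCharacter ℂ d => FT h χ * χ (g : ZMod d) * (FT k ψ * ψ (g : ZMod d)))
    rw [← h1]
    refine Finset.sum_congr rfl fun η _ => ?_
    rw [Equiv.coe_mulLeft]
    have h2 := A2_cancel χ η g
    calc FT h χ * χ (g : ZMod d) * (FT k (χ⁻¹ * η) * (χ⁻¹ * η) (g : ZMod d))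
        = FT h χ * FT k (χ⁻¹ * η) * (χ (g : ZMod d) * (χ⁻¹ * η) (g : ZMod d)) := by ring
      _ = _ := by rw [h2]
  · calc ∑ η : DirichletCharacter ℂ d, ‖∑ χ : DirichletCharacter ℂ d, FT h χ * FT k (χ⁻¹ * η)‖
        ≤ ∑ η : DirichletCharacter ℂ d, ∑ χ : DirichletCharacter ℂ d, ‖FT h χ‖ * ‖FT k (χ⁻¹ * η)‖ := by
          refine Finset.sum_le_sum fun η _ => (norm_sum_le _ _).trans (le_of_eq ?_)
          exact Finset.sum_congr rfl fun χ _ => norm_mul _ _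
      _ = ∑ χ : DirichletCharacter ℂ d, ‖FT h χ‖ * Wn k := by
          rw [Finset.sum_comm]
          refine Finset.sum_congr rfl fun χ _ => ?_
          rw [← Finset.mul_sum]
          have h1 := Equiv.sum_comp (Equiv.mulLeft χ⁻¹) (fun ψ : DirichletCharacter ℂ d => ‖FT k ψ‖)
          rw [Wn, ← h1]
          rfl
      _ = Wn h * Wn k := by
          rw [← Finset.sum_mul]
          rfl

private theorem A2_inv {d : ℕ} [NeZero d] (χ : DirichletCharacter ℂ d) (g : (ZMod d)ˣ) :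
    χ⁻¹ (g : ZMod d) = (starRingEnd ℂ) (χ (g : ZMod d)) := by
  rw [conj_char_unit, MulChar.inv_apply, Ring.inverse_unit]

theorem Wn_re {d : ℕ} [NeZero d] (h : (ZMod d)ˣ → ℂ) : Wn (fun g => (((h g).re : ℝ) : ℂ)) ≤ Wn h := by
  refine (Wn_le_of (fun χ => (FT h χ + (starRingEnd ℂ) (FT h χ⁻¹)) / 2) _ ?_).trans ?_
  · intro g
    have h1 : ∑ χ : DirichletCharacter ℂ d, (starRingEnd ℂ) (FT h χ⁻¹) * χ (g : ZMod d) =
        (starRingEnd ℂ) (h g) := by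
      have h2 := Equiv.sum_comp (Equiv.inv (DirichletCharacter ℂ d))
        (fun χ : DirichletCharacter ℂ d => (starRingEnd ℂ) (FT h χ⁻¹) * χ (g : ZMod d))
      rw [← h2]
      conv_rhs => rw [FT_inv h g, map_sum]
      refine Finset.sum_congr rfl fun χ _ => ?_
      rw [Equiv.inv_apply, inv_inv, A2_inv, map_mul]
    have h3 : ∑ χ : DirichletCharacter ℂ d,
        (FT h χ + (starRingEnd ℂ) (FT h χ⁻¹)) / 2 * χ (g : ZMod d) =
        (∑ χ : DirichletCharacter ℂ d, FT h χ * χ (g : ZMod d) +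
          ∑ χ : DirichletCharacter ℂ d, (starRingEnd ℂ) (FT h χ⁻¹) * χ (g : ZMod d)) / 2 := by
      rw [← Finset.sum_add_distrib, Finset.sum_div]
      exact Finset.sum_congr rfl fun χ _ => by ring
    rw [h3, h1, ← FT_inv h g, Complex.re_eq_add_conj]
  · have h1 : ∀ χ : DirichletCharacter ℂ d, ‖(FT h χ + (starRingEnd ℂ) (FT h χ⁻¹)) / 2‖ ≤
        ‖FT h χ‖ / 2 + ‖FT h χ⁻¹‖ / 2 := by
      intro χ
      rw [norm_div, Complex.norm_ofNat, ← add_div]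
      refine div_le_div_of_nonneg_right ((norm_add_le _ _).trans ?_) (by norm_num)
      rw [Complex.norm_conj]
    refine (Finset.sum_le_sum fun χ _ => h1 χ).trans (le_of_eq ?_)
    rw [Finset.sum_add_distrib, ← Finset.sum_div, ← Finset.sum_div]
    have h2 := Equiv.sum_comp (Equiv.inv (DirichletCharacter ℂ d))
        (fun χ : DirichletCharacter ℂ d => ‖FT h χ‖)
    have h3 : ∑ χ : DirichletCharacter ℂ d, ‖FT h χ⁻¹‖ = Wn h := h2
    rw [h3]
    show Wn h / 2 + Wn h / 2 = Wn h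
    ring

theorem Wn_prod {d : ℕ} [NeZero d] {ι : Type*} (S : Finset ι) (h : ι → (ZMod d)ˣ → ℂ) (M : ℝ)
    (hM : ∀ i ∈ S, Wn (h i) ≤ M) : Wn (fun g => ∏ i ∈ S, h i g) ≤ M ^ S.card := by
  classical
  induction S using Finset.induction_on with
  | empty =>
    simp only [Finset.prod_empty, Finset.card_empty, pow_zero]
    exact Wn_one
  | insert a S ha ih =>
    have h1 := hM a (Finset.mem_insert_self a S)
    have h2 := ih fun i hi => hM i (Finset.mem_insert_of_mem hi)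
    have h0 : 0 ≤ M := (Wn_nonneg (h a)).trans h1
    have h3 : (fun g => ∏ i ∈ insert a S, h i g) = fun g => h a g * ∏ i ∈ S, h i g := by
      funext g
      rw [Finset.prod_insert ha]
    rw [h3, Finset.card_insert_of_notMem ha, pow_succ, mul_comm (M ^ S.card) M]
    exact (Wn_mul (h a) (fun g => ∏ i ∈ S, h i g)).trans
      (mul_le_mul h1 h2 (Wn_nonneg _) h0)

theorem Wn_poly {d : ℕ} [NeZero d] (P : Polynomial ℝ) (r : (ZMod d)ˣ → ℝ) (M : ℝ)
    (hM : Wn (fun g => ((r g : ℝ) : ℂ)) ≤ M) :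
    Wn (fun g => ((P.eval (r g) : ℝ) : ℂ)) ≤ ∑ k ∈ P.support, |P.coeff k| * M ^ k := by
  have h1 : (fun g => ((P.eval (r g) : ℝ) : ℂ)) =
      fun g => ∑ k ∈ P.support, ((P.coeff k : ℝ) : ℂ) * ((r g : ℝ) : ℂ) ^ k := by
    funext g
    rw [Polynomial.eval_eq_sum, Polynomial.sum_def]
    push_cast
    rfl
  rw [h1]
  refine (Wn_sum P.support (fun k g => ((P.coeff k : ℝ) : ℂ) * ((r g : ℝ) : ℂ) ^ k)).trans
    (Finset.sum_le_sum fun k _ => ?_)
  refine (Wn_const_mul ((P.coeff k : ℝ) : ℂ) (fun g => ((r g : ℝ) : ℂ) ^ k)).trans ?_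
  rw [Complex.norm_real, Real.norm_eq_abs]
  refine mul_le_mul_of_nonneg_left ?_ (abs_nonneg _)
  have h2 := Wn_prod (range k) (fun _ g => ((r g : ℝ) : ℂ)) M (fun _ _ => hM)
  simp only [Finset.prod_const, Finset.card_range] at h2
  exact h2

end Pool.Agent.Lib.MP_42948a_nt.BM
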