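import Pool.Agent.Lib.MP_42948a_nt.BM.A0
import Pool.Agent.Lib.MP_42948a_nt.BM.A1

/-!
# The Fourier transform of the walk (job A3)

`FT_walk`: `FT_sum`, `FT_const_mul`, `FT_mulr`, `ucl_val`. `RF_stp`: exchange the sums: `∑_x es (i x) ∑_a ω a F (g * ucl a) (x + Om a)`; for fixed `a` substitute `y = x + Om a`
(`Equiv.addRight`): `es (i x) = es (i y) es (-(i * Om a))` (`es_add`). `FT_RF_stp`: `RF_stp` and `FT_walk` with `w a = ω a * es (-(i * Om a))`; `-(i * Om a) = (-i) * Om a`.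
`FT_RF_stp3`: three times `FT_RF_stp`. `RF_inv`: `∑_i es (-(i x)) ∑_y es (i y) F g y = ∑_y F g y ∑_i es (i (y - x)) = m F g x` (`es_sum`; `m ≠ 0`).
`RF_sq`: Parseval on `ZMod m`: `∑_x ‖∑_i es (-(i x)) D i‖^2 = m ∑_i ‖D i‖^2` (expand the square, `es_conj`, `es_sum`).
-/

namespace Pool.Agent.Lib.MP_42948a_nt.BM

open Finset Pool.Agent.Lib.MP_42948a_nt.OA Pool.Agent.Lib.MP_42948a_nt.OM

theorem FT_walk {d : ℕ} [NeZero d] (Q : Finset ℕ) (w : ℕ → ℂ) (hQ : ∀ a ∈ Q, a.Coprime d) (h : (ZMod d)ˣ → ℂ)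
    (χ : DirichletCharacter ℂ d) :
    FT (fun g => ∑ a ∈ Q, w a * h (g * ucl d a)) χ = (∑ a ∈ Q, w a * χ (a : ZMod d)) * FT h χ := by
  rw [FT_sum Q (fun a g => w a * h (g * ucl d a)) χ, Finset.sum_mul]
  refine Finset.sum_congr rfl fun a ha => ?_
  rw [FT_const_mul (w a) (fun g => h (g * ucl d a)) χ, FT_mulr h (ucl d a) χ, ucl_val (hQ a ha), mul_assoc]

theorem RF_stp {m d : ℕ} [NeZero m] (Q : Finset ℕ) (ω : ℕ → ℝ) (F : (ZMod d)ˣ → ZMod m → ℝ) (i : ZMod m)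
    (g : (ZMod d)ˣ) :
    RF (stp Q ω F) i g = ∑ a ∈ Q, ((ω a : ℂ) * es (-(i * (Om a : ZMod m)))) * RF F i (g * ucl d a) := by
  unfold RF stp
  have h1 : ∀ x : ZMod m, es (i * x) * ((∑ a ∈ Q, ω a * F (g * ucl d a) (x + (Om a : ZMod m)) : ℝ) : ℂ) =
      ∑ a ∈ Q, ((ω a : ℂ) * es (-(i * (Om a : ZMod m)))) *
        (es (i * (x + (Om a : ZMod m))) * (F (g * ucl d a) (x + (Om a : ZMod m)) : ℂ)) := by
    intro x
    rw [Complex.ofReal_sum, Finset.mul_sum]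
    refine Finset.sum_congr rfl fun a _ => ?_
    have h2 : es (i * x) = es (-(i * (Om a : ZMod m))) * es (i * (x + (Om a : ZMod m))) := by
      rw [← es_add]
      congr 1
      ring
    rw [h2, Complex.ofReal_mul]
    ring
  rw [Finset.sum_congr rfl fun x _ => h1 x, Finset.sum_comm]
  refine Finset.sum_congr rfl fun a _ => ?_
  rw [← Finset.mul_sum]
  congr 1
  exact Equiv.sum_comp (Equiv.addRight ((Om a : ZMod m)))
    (fun y : ZMod m => es (i * y) * (F (g * ucl d a) y : ℂ))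

theorem FT_RF_stp {m d : ℕ} [NeZero m] [NeZero d] (Q : Finset ℕ) (ω : ℕ → ℝ) (hQ : ∀ a ∈ Q, a.Coprime d)
    (F : (ZMod d)ˣ → ZMod m → ℝ) (i : ZMod m) (χ : DirichletCharacter ℂ d) :
    FT (RF (stp Q ω F) i) χ = AA Q ω (-i) χ * FT (RF F i) χ := by
  have h1 : RF (stp Q ω F) i = fun g => ∑ a ∈ Q, ((ω a : ℂ) * es (-(i * (Om a : ZMod m)))) *
      RF F i (g * ucl d a) := by
    funext g
    exact RF_stp Q ω F i g
  rw [h1, FT_walk Q (fun a => (ω a : ℂ) * es (-(i * (Om a : ZMod m)))) hQ (RF F i) χ]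
  congr 1
  unfold AA
  refine Finset.sum_congr rfl fun a _ => ?_
  rw [neg_mul]

theorem FT_RF_stp3 {m d : ℕ} [NeZero m] [NeZero d] (Q : Finset ℕ) (ω : ℕ → ℝ) (hQ : ∀ a ∈ Q, a.Coprime d)
    (F : (ZMod d)ˣ → ZMod m → ℝ) (i : ZMod m) (χ : DirichletCharacter ℂ d) :
    FT (RF (stp Q ω (stp Q ω (stp Q ω F))) i) χ = AA Q ω (-i) χ ^ 3 * FT (RF F i) χ := by
  rw [FT_RF_stp Q ω hQ, FT_RF_stp Q ω hQ, FT_RF_stp Q ω hQ]
  ring

theorem RF_inv {m d : ℕ} [NeZero m] (F : (ZMod d)ˣ → ZMod m → ℝ) (g : (ZMod d)ˣ) (x : ZMod m) :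
    (F g x : ℂ) = (1 / (m : ℂ)) * ∑ i : ZMod m, es (-(i * x)) * RF F i g := by
  have hm : (m : ℂ) ≠ 0 := Nat.cast_ne_zero.mpr (NeZero.ne m)
  have h1 : ∑ i : ZMod m, es (-(i * x)) * RF F i g = (m : ℂ) * (F g x : ℂ) := by
    unfold RF
    have h2 : ∀ i : ZMod m, es (-(i * x)) * ∑ y : ZMod m, es (i * y) * (F g y : ℂ) =
        ∑ y : ZMod m, (F g y : ℂ) * es (i * (y - x)) := by
      intro i
      rw [Finset.mul_sum]
      refine Finset.sum_congr rfl fun y _ => ?_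
      have h3 : es (i * (y - x)) = es (-(i * x)) * es (i * y) := by
        rw [← es_add]
        congr 1
        ring
      rw [h3]
      ring
    rw [Finset.sum_congr rfl fun i _ => h2 i, Finset.sum_comm, Finset.sum_eq_single x]
    · rw [← Finset.mul_sum, es_sum, sub_self, if_pos rfl]
      ring
    · intro y _ hy
      rw [← Finset.mul_sum, es_sum, if_neg (sub_ne_zero.mpr hy), mul_zero]
    · intro h
      exact absurd (Finset.mem_univ x) h
  rw [h1, one_div, inv_mul_cancel_left₀ hm]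

theorem RF_sq {m : ℕ} [NeZero m] (D : ZMod m → ℂ) :
    ∑ x : ZMod m, ‖∑ i : ZMod m, es (-(i * x)) * D i‖ ^ 2 = (m : ℝ) * ∑ i : ZMod m, ‖D i‖ ^ 2 := by
  have h0 : ((∑ x : ZMod m, ‖∑ i : ZMod m, es (-(i * x)) * D i‖ ^ 2 : ℝ) : ℂ) =
      (((m : ℝ) * ∑ i : ZMod m, ‖D i‖ ^ 2 : ℝ) : ℂ) := by
    push_cast
    have h1 : ∀ x : ZMod m, ((‖∑ i : ZMod m, es (-(i * x)) * D i‖ : ℝ) : ℂ) ^ 2 =
        ∑ i : ZMod m, ∑ j : ZMod m, (D i * (starRingEnd ℂ) (D j)) * es (x * (j - i)) := by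
      intro x
      rw [← Complex.mul_conj', map_sum, Finset.sum_mul_sum]
      refine Finset.sum_congr rfl fun i _ => Finset.sum_congr rfl fun j _ => ?_
      rw [map_mul, es_conj, neg_neg]
      have h3 : es (x * (j - i)) = es (-(i * x)) * es (j * x) := by
        rw [← es_add]
        congr 1
        ring
      rw [h3]
      ring
    rw [Finset.sum_congr rfl fun x _ => h1 x, Finset.sum_comm, Finset.mul_sum]
    refine Finset.sum_congr rfl fun i _ => ?_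
    rw [Finset.sum_comm, Finset.sum_eq_single i]
    · rw [← Finset.mul_sum, es_sum, sub_self, if_pos rfl, Complex.mul_conj']
      ring
    · intro j _ hj
      rw [← Finset.mul_sum, es_sum, if_neg (sub_ne_zero.mpr hj), mul_zero]
    · intro h
      exact absurd (Finset.mem_univ i) h
  exact_mod_cast h0

end Pool.Agent.Lib.MP_42948a_nt.BM
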