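import Pool.Agent.Lib.MP_42948a_nt.BM.A0
import Pool.Agent.Lib.MP_42948a_nt.BM.A2

/-!
# Averages along `Q` (job A4)

`Q_eval`: `FT_inv` at `g = ucl d a` (`ucl_val`: `χ (ucl d a) = χ a`), exchange the sums; `-(i * Om a) = (-i) * Om a`. `Q_mean`: `Q_eval` with `i = 0` (`es (-(0 * _)) = es 0 = 1`,
`-0 = 0`): the sum is `∑ χ, FT h χ * AA Q ω 0 χ`; the term `χ = 1` is `mn h` (`FT_one`; `AA Q ω 0 1 = ∑ ω a = 1` since `1 (a : ZMod d) = 1` for `a` coprime to `d`: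
`MulChar.one_apply` for a unit, `es 0 = 1`), and the others are at most `‖FT h χ‖ * √τ` in absolute value (`W.small`). Take real parts or norms of complex numbers.
-/

namespace Pool.Agent.Lib.MP_42948a_nt.BM

open Finset Pool.Agent.Lib.MP_42948a_nt.OA Pool.Agent.Lib.MP_42948a_nt.OM

theorem Q_eval {m d : ℕ} [NeZero m] [NeZero d] (Q : Finset ℕ) (ω : ℕ → ℝ) (hQ : ∀ a ∈ Q, a.Coprime d)
    (h : (ZMod d)ˣ → ℂ) (i : ZMod m) :
    ∑ a ∈ Q, (ω a : ℂ) * es (-(i * (Om a : ZMod m))) * h (ucl d a) =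
      ∑ χ : DirichletCharacter ℂ d, FT h χ * AA Q ω (-i) χ := by
  have h1 : ∀ a ∈ Q, (ω a : ℂ) * es (-(i * (Om a : ZMod m))) * h (ucl d a) =
      ∑ χ : DirichletCharacter ℂ d, FT h χ * ((ω a : ℂ) * es ((-i) * (Om a : ZMod m)) * χ (a : ZMod d)) := by
    intro a ha
    rw [FT_inv h (ucl d a), Finset.mul_sum]
    refine Finset.sum_congr rfl fun χ _ => ?_
    rw [ucl_val (hQ a ha), neg_mul]
    ring
  rw [Finset.sum_congr rfl h1, Finset.sum_comm]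
  refine Finset.sum_congr rfl fun χ _ => ?_
  unfold AA
  rw [Finset.mul_sum]

theorem AA_one {m d : ℕ} [NeZero m] [NeZero d] (Q : Finset ℕ) (ω : ℕ → ℝ) (hQ : ∀ a ∈ Q, a.Coprime d)
    (h1 : ∑ a ∈ Q, ω a = 1) : AA Q ω (0 : ZMod m) (1 : DirichletCharacter ℂ d) = 1 := by
  unfold AA
  have h2 : ∀ a ∈ Q, (ω a : ℂ) * es ((0 : ZMod m) * (Om a : ZMod m)) * (1 : DirichletCharacter ℂ d) (a : ZMod d) =
      (ω a : ℂ) := by
    intro a ha
    have hu : IsUnit (a : ZMod d) := (ZMod.isUnit_iff_coprime a d).2 (hQ a ha)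
    rw [zero_mul, es_zero, MulChar.one_apply hu, mul_one, mul_one]
  rw [Finset.sum_congr rfl h2]
  exact_mod_cast congrArg (fun x : ℝ => (x : ℂ)) h1

theorem AA_le_one {m d : ℕ} [NeZero m] [NeZero d] (Q : Finset ℕ) (ω : ℕ → ℝ) (h0 : ∀ a ∈ Q, 0 ≤ ω a)
    (h1 : ∑ a ∈ Q, ω a = 1) (i : ZMod m) (χ : DirichletCharacter ℂ d) : ‖AA Q ω i χ‖ ≤ 1 := by
  unfold AA
  calc ‖∑ a ∈ Q, (ω a : ℂ) * es (i * (Om a : ZMod m)) * χ (a : ZMod d)‖
      ≤ ∑ a ∈ Q, ‖(ω a : ℂ) * es (i * (Om a : ZMod m)) * χ (a : ZMod d)‖ := norm_sum_le _ _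
    _ ≤ ∑ a ∈ Q, ω a := by
        refine Finset.sum_le_sum fun a ha => ?_
        rw [norm_mul, norm_mul, es_norm, mul_one, Complex.norm_real, Real.norm_of_nonneg (h0 a ha)]
        exact mul_le_of_le_one_right (h0 a ha) (DirichletCharacter.norm_le_one χ _)
    _ = 1 := h1

theorem Q_mean {m d : ℕ} [NeZero m] [NeZero d] {z Y : ℕ} {β τ s s2 : ℝ} (W : Wlk m d z Y β τ s s2)
    (h : (ZMod d)ˣ → ℝ) :
    |∑ a ∈ W.Q, W.ω a * h (ucl d a) - mn h| ≤ √τ * Wn (fun g => ((h g : ℝ) : ℂ)) := by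
  have hev := Q_eval (m := m) W.Q W.ω W.cop (fun g => ((h g : ℝ) : ℂ)) 0
  have hL : ∑ a ∈ W.Q, (W.ω a : ℂ) * es (-((0 : ZMod m) * (Om a : ZMod m))) * ((h (ucl d a) : ℝ) : ℂ) =
      ((∑ a ∈ W.Q, W.ω a * h (ucl d a) : ℝ) : ℂ) := by
    rw [Complex.ofReal_sum]
    refine Finset.sum_congr rfl fun a _ => ?_
    rw [zero_mul, neg_zero, es_zero, mul_one, Complex.ofReal_mul]
  have hM : FT (fun g => ((h g : ℝ) : ℂ)) (1 : DirichletCharacter ℂ d) = ((mn h : ℝ) : ℂ) := by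
    rw [FT_one]
    unfold mn
    rw [Complex.ofReal_div, Complex.ofReal_sum, Complex.ofReal_natCast]
  have hsplit : ∑ χ : DirichletCharacter ℂ d, FT (fun g => ((h g : ℝ) : ℂ)) χ * AA W.Q W.ω (-(0 : ZMod m)) χ =
      ((mn h : ℝ) : ℂ) + ∑ χ ∈ (univ : Finset (DirichletCharacter ℂ d)).erase 1,
        FT (fun g => ((h g : ℝ) : ℂ)) χ * AA W.Q W.ω (0 : ZMod m) χ := by
    rw [neg_zero, ← Finset.add_sum_erase univ _ (Finset.mem_univ (1 : DirichletCharacter ℂ d)), hM,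
      AA_one W.Q W.ω W.cop W.sum_one, mul_one]
  have hev' : ((∑ a ∈ W.Q, W.ω a * h (ucl d a) : ℝ) : ℂ) = ((mn h : ℝ) : ℂ) +
      ∑ χ ∈ (univ : Finset (DirichletCharacter ℂ d)).erase 1,
        FT (fun g => ((h g : ℝ) : ℂ)) χ * AA W.Q W.ω (0 : ZMod m) χ := by
    rw [← hL, ← hsplit]
    exact hev
  have hdiff : (((∑ a ∈ W.Q, W.ω a * h (ucl d a)) - mn h : ℝ) : ℂ) =
      ∑ χ ∈ (univ : Finset (DirichletCharacter ℂ d)).erase 1,
        FT (fun g => ((h g : ℝ) : ℂ)) χ * AA W.Q W.ω (0 : ZMod m) χ := by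
    rw [Complex.ofReal_sub, hev']
    ring
  have hn : |∑ a ∈ W.Q, W.ω a * h (ucl d a) - mn h| =
      ‖∑ χ ∈ (univ : Finset (DirichletCharacter ℂ d)).erase 1,
        FT (fun g => ((h g : ℝ) : ℂ)) χ * AA W.Q W.ω (0 : ZMod m) χ‖ := by
    rw [← hdiff, Complex.norm_real, Real.norm_eq_abs]
  rw [hn]
  calc ‖∑ χ ∈ (univ : Finset (DirichletCharacter ℂ d)).erase 1,
        FT (fun g => ((h g : ℝ) : ℂ)) χ * AA W.Q W.ω (0 : ZMod m) χ‖
      ≤ ∑ χ ∈ (univ : Finset (DirichletCharacter ℂ d)).erase 1,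
        ‖FT (fun g => ((h g : ℝ) : ℂ)) χ * AA W.Q W.ω (0 : ZMod m) χ‖ := norm_sum_le _ _
    _ ≤ ∑ χ ∈ (univ : Finset (DirichletCharacter ℂ d)).erase 1, √τ * ‖FT (fun g => ((h g : ℝ) : ℂ)) χ‖ := by
        refine Finset.sum_le_sum fun χ hχ => ?_
        rw [norm_mul, mul_comm]
        exact mul_le_mul_of_nonneg_right (W.small χ (Finset.ne_of_mem_erase hχ)) (norm_nonneg _)
    _ ≤ ∑ χ : DirichletCharacter ℂ d, √τ * ‖FT (fun g => ((h g : ℝ) : ℂ)) χ‖ := by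
        refine Finset.sum_le_sum_of_subset_of_nonneg (Finset.erase_subset _ _) fun χ _ _ => ?_
        exact mul_nonneg (Real.sqrt_nonneg _) (norm_nonneg _)
    _ = √τ * Wn (fun g => ((h g : ℝ) : ℂ)) := by
        unfold Wn
        rw [Finset.mul_sum]

end Pool.Agent.Lib.MP_42948a_nt.BM
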