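import Pool.Agent.Lib.MP_42948a_nt.BM.A3
import Pool.Agent.Lib.MP_42948a_nt.BM.A4

/-!
# Second moment of an average along `Q` (job A5)

Let `ρ = #P/φ`. By `FT_walk` (`w a = ω a * es (i * Om a)`, so `∑ w a χ a = AA Q ω i χ`) and `FT_parseval` the left side is `∑ χ, ‖AA i χ‖^2 ‖FT T χ‖^2`.
`‖FT T χ‖ ≤ (∑ ‖T g‖)/φ ≤ ρ` (`FT_le`), so the characters of `X` contribute `≤ ρ^2 ∑_{X} ‖AA‖^2 ≤ ρ^2 K`; the others (`sum_offX`, `W.off`) `≤ s^2 ∑ χ, ‖FT T χ‖^2 = s^2 (∑ ‖T g‖^2)/φ ≤ s^2 ρ`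
(`FT_parseval`; `‖T g‖^2 ≤ 1` on `P`, `0` outside). `mn h = (∑ h)/φ`.
`first`: `mn` of the average of a nonnegative function: `∑_g ∑_a ω a * f (g * ucl a) = ∑_a ω a ∑_g f g` (`Equiv.mulRight`).
-/

namespace Pool.Agent.Lib.MP_42948a_nt.BM

open Finset Pool.Agent.Lib.MP_42948a_nt.OA Pool.Agent.Lib.MP_42948a_nt.OM

theorem second {m d : ℕ} [NeZero m] [NeZero d] {z Y : ℕ} {β τ s s2 : ℝ} (W : Wlk m d z Y β τ s s2) (hs : 0 ≤ s)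
    (i : ZMod m) (P : Finset (ZMod d)ˣ) (T : (ZMod d)ˣ → ℂ) (hT1 : ∀ g, ‖T g‖ ≤ 1) (hT0 : ∀ g, g ∉ P → T g = 0)
    (K : ℝ) (hK : ∑ χ ∈ W.X, ‖AA W.Q W.ω i χ‖ ^ 2 ≤ K) :
    mn (fun g => ‖∑ a ∈ W.Q, ((W.ω a : ℂ) * es (i * (Om a : ZMod m))) * T (g * ucl d a)‖ ^ 2) ≤
      ((P.card : ℝ) / (d.totient : ℝ)) ^ 2 * K + s ^ 2 * ((P.card : ℝ) / (d.totient : ℝ)) := by
  have hφ : (0 : ℝ) < (d.totient : ℝ) := by
    exact_mod_cast Nat.totient_pos.mpr (Nat.pos_of_ne_zero (NeZero.ne d))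
  have hs1 : ∀ k : ℕ, 1 ≤ k → ∑ g : (ZMod d)ˣ, ‖T g‖ ^ k ≤ (P.card : ℝ) := by
    intro k hk
    have h1 : ∑ g : (ZMod d)ˣ, ‖T g‖ ^ k = ∑ g ∈ P, ‖T g‖ ^ k := by
      symm
      apply Finset.sum_subset (Finset.subset_univ P)
      intro g _ hg
      rw [hT0 g hg, norm_zero, zero_pow (by omega)]
    rw [h1]
    calc ∑ g ∈ P, ‖T g‖ ^ k ≤ ∑ _g ∈ P, (1 : ℝ) :=
          Finset.sum_le_sum fun g _ => pow_le_one₀ (norm_nonneg _) (hT1 g)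
      _ = (P.card : ℝ) := by rw [Finset.sum_const, nsmul_eq_mul, mul_one]
  have hFT : ∀ χ : DirichletCharacter ℂ d, ‖FT T χ‖ ≤ (P.card : ℝ) / (d.totient : ℝ) := by
    intro χ
    refine (FT_le T χ).trans ?_
    apply div_le_div_of_nonneg_right _ hφ.le
    have h1 := hs1 1 le_rfl
    simpa using h1
  have hpar : ∑ χ : DirichletCharacter ℂ d, ‖FT T χ‖ ^ 2 ≤ (P.card : ℝ) / (d.totient : ℝ) := by
    rw [FT_parseval]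
    exact div_le_div_of_nonneg_right (hs1 2 (by norm_num)) hφ.le
  have hL : mn (fun g => ‖∑ a ∈ W.Q, ((W.ω a : ℂ) * es (i * (Om a : ZMod m))) * T (g * ucl d a)‖ ^ 2) =
      ∑ χ : DirichletCharacter ℂ d, ‖AA W.Q W.ω i χ‖ ^ 2 * ‖FT T χ‖ ^ 2 := by
    unfold mn
    rw [← FT_parseval (fun g => ∑ a ∈ W.Q, ((W.ω a : ℂ) * es (i * (Om a : ZMod m))) *
      T (g * ucl d a))]
    refine Finset.sum_congr rfl fun χ _ => ?_
    rw [FT_walk W.Q (fun a => (W.ω a : ℂ) * es (i * (Om a : ZMod m))) W.cop T χ, norm_mul, mul_pow]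
    rfl
  rw [hL, sum_offX W.X]
  apply add_le_add
  · calc ∑ χ ∈ W.X, ‖AA W.Q W.ω i χ‖ ^ 2 * ‖FT T χ‖ ^ 2 ≤
        ∑ χ ∈ W.X, ‖AA W.Q W.ω i χ‖ ^ 2 * ((P.card : ℝ) / (d.totient : ℝ)) ^ 2 := by
          refine Finset.sum_le_sum fun χ _ => ?_
          exact mul_le_mul_of_nonneg_left (pow_le_pow_left₀ (norm_nonneg _) (hFT χ) 2)
            (sq_nonneg _)
      _ = ((P.card : ℝ) / (d.totient : ℝ)) ^ 2 * ∑ χ ∈ W.X, ‖AA W.Q W.ω i χ‖ ^ 2 := by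
          rw [← Finset.sum_mul, mul_comm]
      _ ≤ ((P.card : ℝ) / (d.totient : ℝ)) ^ 2 * K :=
          mul_le_mul_of_nonneg_left hK (sq_nonneg _)
  · calc ∑ χ ∈ offX W.X, ‖AA W.Q W.ω i χ‖ ^ 2 * ‖FT T χ‖ ^ 2 ≤
        ∑ χ ∈ offX W.X, s ^ 2 * ‖FT T χ‖ ^ 2 := by
          refine Finset.sum_le_sum fun χ hχ => ?_
          exact mul_le_mul_of_nonneg_right
            (pow_le_pow_left₀ (norm_nonneg _) (W.off i χ (mem_offX.mp hχ)) 2) (sq_nonneg _)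
      _ = s ^ 2 * ∑ χ ∈ offX W.X, ‖FT T χ‖ ^ 2 := by rw [Finset.mul_sum]
      _ ≤ s ^ 2 * ∑ χ : DirichletCharacter ℂ d, ‖FT T χ‖ ^ 2 := by
          apply mul_le_mul_of_nonneg_left _ (sq_nonneg _)
          exact Finset.sum_le_sum_of_subset_of_nonneg (Finset.subset_univ _)
            fun χ _ _ => sq_nonneg _
      _ ≤ s ^ 2 * ((P.card : ℝ) / (d.totient : ℝ)) :=
          mul_le_mul_of_nonneg_left hpar (sq_nonneg _)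

theorem first {m d : ℕ} [NeZero m] [NeZero d] {z Y : ℕ} {β τ s s2 : ℝ} (W : Wlk m d z Y β τ s s2)
    (f : (ZMod d)ˣ → ℝ) : mn (fun g => ∑ a ∈ W.Q, W.ω a * f (g * ucl d a)) = mn f := by
  unfold mn
  have h1 : ∑ g : (ZMod d)ˣ, ∑ a ∈ W.Q, W.ω a * f (g * ucl d a) = ∑ g : (ZMod d)ˣ, f g := by
    rw [Finset.sum_comm]
    have h2 : ∀ a ∈ W.Q, ∑ g : (ZMod d)ˣ, W.ω a * f (g * ucl d a) =
        W.ω a * ∑ g : (ZMod d)ˣ, f g := by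
      intro a _
      rw [← Finset.mul_sum]
      congr 1
      exact Equiv.sum_comp (Equiv.mulRight (ucl d a)) f
    rw [Finset.sum_congr rfl h2, ← Finset.sum_mul, W.sum_one, one_mul]
  rw [h1]

end Pool.Agent.Lib.MP_42948a_nt.BM
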