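import Pool.Agent.Lib.MP_42948a_nt.OM.Defs

/-!
# `Ω` modulo an odd prime at the exponent `k / 4`: definitions

`OA`, `OM` are the libraries of `OddAlmostPrimes`, `OmegaModPrime`: `Rough`, `PP`, `FF`, `Om`, `RR`, `NN`, `II`, `wp`, `BP`, `WW`, `MM`, `ac`, `mc`,
`gd`, `ze`, `OmSet`, `PK` come from there. `G = (ZMod d)ˣ`, `φ = d.totient` is its cardinality (`ZMod.card_units_eq_totient`).
-/

namespace Pool.Agent.Lib.MP_42948a_nt.BM

open Finset Pool.Agent.Lib.MP_42948a_nt.OA Pool.Agent.Lib.MP_42948a_nt.OM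

/-! ## Classes -/

/-- the class of `n` (for `n` coprime to `d`) -/
noncomputable def ucl (d n : ℕ) : (ZMod d)ˣ := if h : n.Coprime d then ZMod.unitOfCoprime n h else 1

theorem ucl_val {d n : ℕ} (h : n.Coprime d) : ((ucl d n : (ZMod d)ˣ) : ZMod d) = (n : ZMod d) := by
  rw [ucl, dif_pos h, ZMod.coe_unitOfCoprime]

theorem ucl_eq {d n : ℕ} (h : n.Coprime d) {c : (ZMod d)ˣ} (hc : (n : ZMod d) = (c : ZMod d)) : ucl d n = c := by
  ext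
  rw [ucl_val h, hc]

theorem ucl_mul {d m n : ℕ} (hm : m.Coprime d) (hn : n.Coprime d) : ucl d (m * n) = ucl d m * ucl d n := by
  ext
  rw [ucl_val (Nat.Coprime.mul_left hm hn), Units.val_mul, ucl_val hm, ucl_val hn, Nat.cast_mul]

/-! ## Fourier analysis on `G` -/

/-- the additive character `x ↦ e(x / m)` of `ZMod m` -/
noncomputable def es {m : ℕ} (x : ZMod m) : ℂ := ze m ^ x.val

/-- `∑_{x ∈ S} e(-x / m)` -/
noncomputable def tauS {m : ℕ} (S : Finset (ZMod m)) : ℂ := ∑ x ∈ S, es (-x)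

/-- `tauS S` normalised -/
noncomputable def uS {m : ℕ} (S : Finset (ZMod m)) : ℂ := tauS S / (‖tauS S‖ : ℂ)

/-- the mean over `G` -/
noncomputable def mn {d : ℕ} [NeZero d] (h : (ZMod d)ˣ → ℝ) : ℝ := (∑ g : (ZMod d)ˣ, h g) / (d.totient : ℝ)

/-- the Fourier coefficient -/
noncomputable def FT {d : ℕ} [NeZero d] (h : (ZMod d)ˣ → ℂ) (χ : DirichletCharacter ℂ d) : ℂ :=
  (∑ g : (ZMod d)ˣ, h g * χ ((g⁻¹ : (ZMod d)ˣ) : ZMod d)) / (d.totient : ℂ)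

/-- the Wiener norm -/
noncomputable def Wn {d : ℕ} [NeZero d] (h : (ZMod d)ˣ → ℂ) : ℝ := ∑ χ : DirichletCharacter ℂ d, ‖FT h χ‖

open Classical in
/-- the characters outside `X` -/
noncomputable def offX {d : ℕ} [NeZero d] (X : Finset (DirichletCharacter ℂ d)) : Finset (DirichletCharacter ℂ d) :=
  univ.filter (fun χ => χ ∉ X)

theorem mem_offX {d : ℕ} [NeZero d] {X : Finset (DirichletCharacter ℂ d)} {χ : DirichletCharacter ℂ d} :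
    χ ∈ offX X ↔ χ ∉ X := by
  classical
  unfold offX
  rw [mem_filter]
  exact ⟨fun h => h.2, fun h => ⟨mem_univ _, h⟩⟩

theorem sum_offX {d : ℕ} [NeZero d] {M : Type*} [AddCommMonoid M] (X : Finset (DirichletCharacter ℂ d))
    (f : DirichletCharacter ℂ d → M) : ∑ χ, f χ = ∑ χ ∈ X, f χ + ∑ χ ∈ offX X, f χ := by
  classical
  have h1 : (univ : Finset (DirichletCharacter ℂ d)).filter (fun χ => χ ∈ X) = X := by
    ext χ
    rw [mem_filter]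
    exact ⟨fun h => h.2, fun h => ⟨mem_univ _, h⟩⟩
  have h2 : (univ : Finset (DirichletCharacter ℂ d)).filter (fun χ => ¬ χ ∈ X) = offX X := by
    ext χ
    rw [mem_offX, mem_filter]
    exact ⟨fun h => h.2, fun h => ⟨mem_univ _, h⟩⟩
  rw [← Finset.sum_filter_add_sum_filter_not univ (fun χ => χ ∈ X), h1, h2]

/-- the character sum `∑ ω(a) e(i Ω(a) / m) χ(a)` -/
noncomputable def AA {m d : ℕ} (Q : Finset ℕ) (ω : ℕ → ℝ) (i : ZMod m) (χ : DirichletCharacter ℂ d) : ℂ :=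
  ∑ a ∈ Q, (ω a : ℂ) * es (i * (Om a : ZMod m)) * χ (a : ZMod d)

/-- a probability on rough numbers `a ≤ Y` with the properties (H1)-(H7) of the paper proof -/
structure Wlk (m d : ℕ) [NeZero d] (z Y : ℕ) (β τ s s2 : ℝ) where
  /-- the rough numbers -/
  Q : Finset ℕ
  /-- their weights -/
  ω : ℕ → ℝ
  /-- the exceptional characters -/
  X : Finset (DirichletCharacter ℂ d)
  rough : ∀ a ∈ Q, Rough z a
  cop : ∀ a ∈ Q, a.Coprime d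
  le : ∀ a ∈ Q, a ≤ Y
  nonneg : ∀ a ∈ Q, 0 ≤ ω a
  sum_one : ∑ a ∈ Q, ω a = 1
  one_mem : (1 : DirichletCharacter ℂ d) ∈ X
  bessel : ∀ i : ZMod m, ∑ χ ∈ X, ‖AA Q ω i χ‖ ^ 2 ≤ 1 + τ
  gap : ∑ χ ∈ X, ‖AA Q ω (1 : ZMod m) χ‖ ^ 2 ≤ 1 - β ^ 2 / 2
  off : ∀ i : ZMod m, ∀ χ : DirichletCharacter ℂ d, χ ∉ X → ‖AA Q ω i χ‖ ≤ s
  small : ∀ χ : DirichletCharacter ℂ d, χ ≠ 1 → ‖AA Q ω (0 : ZMod m) χ‖ ≤ √τ
  eighth : ∀ i : ZMod m, ∑ χ ∈ offX X, ‖AA Q ω i χ‖ ^ 8 ≤ s ^ 6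
  major : ∀ h : (ZMod d)ˣ → ℝ, (∀ g, 0 ≤ h g) →
    ∑ a ∈ Q, ω a * h (ucl d a) ≤ 2 * mn h + s2 * Wn (fun g => ((h g : ℝ) : ℂ))

/-! ## Blocked residues -/

/-- one step of the walk on `G × ZMod m` -/
noncomputable def stp {m d : ℕ} (Q : Finset ℕ) (ω : ℕ → ℝ) (F : (ZMod d)ˣ → ZMod m → ℝ) :
    (ZMod d)ˣ → ZMod m → ℝ :=
  fun g x => ∑ a ∈ Q, ω a * F (g * ucl d a) (x + (Om a : ZMod m))

/-- at least `t` residues are blocked at the level `κ` on a set of density `≥ ρ` -/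
def Blk {m d : ℕ} (F : (ZMod d)ˣ → ZMod m → ℝ) (t : ℕ) (κ ρ : ℝ) : Prop :=
  ∃ P : Finset (ZMod d)ˣ, ρ * (d.totient : ℝ) ≤ P.card ∧
    ∀ g ∈ P, ∃ S : Finset (ZMod m), t ≤ S.card ∧ ∀ x ∈ S, κ ≤ F g x

open Classical in
/-- the indicator function of `B × J` -/
noncomputable def F0 {m d : ℕ} (B : Finset (ZMod d)ˣ) (J : Finset (ZMod m)) (g : (ZMod d)ˣ) (x : ZMod m) : ℝ :=
  if g ∈ B ∧ x ∈ J then 1 else 0

/-- the Fourier transform in the residue -/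
noncomputable def RF {m d : ℕ} [NeZero m] (F : (ZMod d)ˣ → ZMod m → ℝ) (i : ZMod m) (g : (ZMod d)ˣ) : ℂ :=
  ∑ x : ZMod m, es (i * x) * (F g x : ℂ)

/-- the real part of the projection of `F` to the characters of `X` -/
noncomputable def rX {m d : ℕ} [NeZero m] [NeZero d] (X : Finset (DirichletCharacter ℂ d))
    (F : (ZMod d)ˣ → ZMod m → ℝ) (g : (ZMod d)ˣ) (x : ZMod m) : ℝ :=
  ((1 / (m : ℂ)) * ∑ i : ZMod m, es (-(i * x)) * ∑ χ ∈ X, FT (RF F i) χ * χ (g : ZMod d)).re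

/-! ## Constants -/

/-- loss of level in one step -/
noncomputable def gam (m : ℕ) (β : ℝ) : ℝ := β ^ 2 / (24 * 2 ^ m)

/-- density after one step -/
noncomputable def rh1 (β : ℝ) : ℝ := β ^ 4 / 200

/-- level after three steps -/
noncomputable def kp3 (m : ℕ) (β : ℝ) : ℝ := gam m β ^ 3 * (rh1 β / 2) ^ 2

/-- density after three steps -/
noncomputable def rh3 (β : ℝ) : ℝ := rh1 β / 4

/-- lower bound for the mean of the product -/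
noncomputable def c3 (m : ℕ) (β : ℝ) : ℝ := (kp3 m β / 2) ^ m * rh3 β / 4

/-- the admissible size of `τ` -/
noncomputable def tau0 (m : ℕ) (β : ℝ) : ℝ := (c3 m β / (2 * (m : ℝ)) ^ m) ^ 2

/-- the number of divisors, as a real number -/
noncomputable def TD (d : ℕ) : ℝ := (d.divisors.card : ℝ)

/-! ## Burgess' bound and the final form -/

/-- a power saving for all nonprincipal characters mod `d` and all lengths `≥ d ^ (1/4 + κ)` -/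
def BurP (κ κ' : ℝ) (d : ℕ) : Prop :=
  ∀ χ : DirichletCharacter ℂ d, χ ≠ 1 → ∀ N : ℕ, (d : ℝ) ^ (1 / 4 + κ) ≤ (N : ℝ) →
    ‖∑ n ∈ Finset.Icc 1 N, χ (n : ZMod d)‖ ≤ (N : ℝ) * (d : ℝ) ^ (-κ')

/-- `d` is the product of a number `≤ d ^ θ` and a cube-free number -/
def Cub (θ : ℝ) (d : ℕ) : Prop :=
  ∃ e r : ℕ, d = e * r ∧ (e : ℝ) ≤ (d : ℝ) ^ θ ∧ ∀ p : ℕ, p.Prime → ¬ p ^ 3 ∣ r

/-- Burgess' bound for all characters, for the moduli in `Cub θ` (proved in `BU2`) -/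
def BurgessAll : Prop :=
  ∀ κ : ℝ, 0 < κ → ∃ κ' θ : ℝ, 0 < κ' ∧ 0 < θ ∧ ∃ d0 : ℕ, ∀ d : ℕ, d0 ≤ d → Cub θ d → BurP κ κ' d

/-- all but `d ^ (1 - c)` classes have at least `k` residues at the exponent `x + ε` -/
def PB (m k : ℕ) (x ε θ δ c : ℝ) : Prop :=
  ∃ d0 : ℕ, ∀ d : ℕ, d0 ≤ d → Cub θ d → ∃ E : Finset (ZMod d)ˣ, (E.card : ℝ) ≤ (d : ℝ) ^ (1 - c) ∧
    ∀ b : (ZMod d)ˣ, b ∉ E → k ≤ (OmSet m ⌊(d : ℝ) ^ δ⌋₊ ⌊(d : ℝ) ^ (x + ε)⌋₊ b).card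

end Pool.Agent.Lib.MP_42948a_nt.BM
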