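import Pool.Agent.Lib.MP_42948a_nt.BM.P
import Pool.Agent.Lib.MP_42948a_nt.BU2.Main

/-!
# The final form, with Burgess' bound
-/

namespace Pool.Agent.Lib.MP_42948a_nt.BM

open Finset Pool.Agent.Lib.MP_42948a_nt.OA Pool.Agent.Lib.MP_42948a_nt.OM

theorem final' (m : ℕ) (hm : m.Prime) (hm2 : m ≠ 2) (ε : ℝ) (hε : 0 < ε) :
    ∃ θ δ c : ℝ, 0 < θ ∧ 0 < δ ∧ 0 < c ∧ ∃ d₀ : ℕ, ∀ d e r : ℕ, d₀ ≤ d → d = e * r →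
      (e : ℝ) ≤ (d : ℝ) ^ θ → (∀ p : ℕ, p.Prime → ¬ p ^ 3 ∣ r) → ∀ k : ℕ, 4 ≤ k →
      ∀ J : Finset (ZMod m), J.Nonempty → ∃ B : Finset (ZMod d)ˣ,
        min 1 (((k : ℝ) + J.card - 1) / m) * (d.totient : ℝ) -
          (if 8 ≤ k ∧ m + 2 ≤ k + J.card then 0 else (d : ℝ) ^ (1 - c)) ≤ B.card ∧
        ∀ b ∈ B, ∃ n : ℕ, 0 < n ∧ (n : ℝ) ≤ (d : ℝ) ^ ((k : ℝ) / 4 + ε) ∧ (n : ZMod d) = (b : ZMod d) ∧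
          (∀ p : ℕ, p.Prime → p ∣ n → (d : ℝ) ^ δ < p) ∧
          (ArithmeticFunction.cardFactors n : ZMod m) ∈ J := by
  obtain ⟨θ, δ, c, hθ, hδ, hc, d0, hd0⟩ := final Pool.Agent.Lib.MP_42948a_nt.BU2.burgess_all m hm hm2 ε hε
  exact ⟨θ, δ, c, hθ, hδ, hc, d0, fun d e r hd h1 h2 h3 => hd0 d hd ⟨e, r, h1, h2, h3⟩⟩

end Pool.Agent.Lib.MP_42948a_nt.BM
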