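import Pool.Agent.Lib.MP_42948a_nt.BM.Defs

/-!
# Two popular sets of residues (job G1)

For a set `S` of residues let `W S = ∑_{a ∈ H, f a = S} w a ≥ 0`; `∑_S W S = ∑_{a ∈ H} w a =: q` (`Finset.sum_fiberwise`), and
`V = ∑_{a ∈ H} w a * u (f a) = ∑_S W S * u S`. `H` is nonempty (otherwise `q - ‖V‖ = 0 < η`). Let `S1 = f a1` (`a1 ∈ H`) have the largest `W` among the `f a`, `a ∈ H`
(`Finset.exists_max_image`). Then `‖V‖ ≥ W S1 - (q - W S1)` (`‖u S1‖ = 1`, `‖u (f a)‖ = 1`), so `q - W S1 ≥ (q - ‖V‖)/2 ≥ η/2`. The sum `q - W S1` of the other `W S` is over at most `2 ^ m` sets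
(`Fintype.card (Finset (ZMod m)) = 2 ^ m`; `Fintype.card_finset`, `ZMod.card`), so some `S2 ≠ S1` has `W S2 ≥ (η/2)/2^m > 0`, hence `S2 = f a2` with `a2 ∈ H`, and `W S1 ≥ W S2`.
`union_card`: two different sets with `t` elements have a union with at least `t + 1` elements (`Finset.eq_of_subset_of_card_le`).
-/

namespace Pool.Agent.Lib.MP_42948a_nt.BM

open Finset Pool.Agent.Lib.MP_42948a_nt.OA Pool.Agent.Lib.MP_42948a_nt.OM

open Classical in
theorem two_popular {m : ℕ} [NeZero m] (H : Finset ℕ) (w : ℕ → ℝ) (hw : ∀ a ∈ H, 0 ≤ w a)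
    (f : ℕ → Finset (ZMod m)) (u : Finset (ZMod m) → ℂ) (hu : ∀ a ∈ H, ‖u (f a)‖ = 1) (η : ℝ) (hη : 0 < η)
    (h : η ≤ ∑ a ∈ H, w a - ‖∑ a ∈ H, (w a : ℂ) * u (f a)‖) :
    ∃ a1 ∈ H, ∃ a2 ∈ H, f a1 ≠ f a2 ∧ η / (2 * 2 ^ m) ≤ ∑ a ∈ H.filter (fun a => f a = f a1), w a ∧
      η / (2 * 2 ^ m) ≤ ∑ a ∈ H.filter (fun a => f a = f a2), w a := by
  set W : Finset (ZMod m) → ℝ := fun S => ∑ a ∈ H.filter (fun a => f a = S), w a with hWdef
  have hW0 : ∀ S, 0 ≤ W S := fun S =>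
    Finset.sum_nonneg fun a ha => hw a (Finset.mem_filter.1 ha).1
  have hq : ∑ a ∈ H, w a = ∑ S ∈ H.image f, W S :=
    (Finset.sum_fiberwise_of_maps_to (fun a ha => Finset.mem_image_of_mem f ha) w).symm
  have hV : ∑ a ∈ H, (w a : ℂ) * u (f a) = ∑ S ∈ H.image f, (W S : ℂ) * u S := by
    rw [← Finset.sum_fiberwise_of_maps_to (g := f) (t := H.image f)
      (fun a ha => Finset.mem_image_of_mem f ha) (fun a => (w a : ℂ) * u (f a))]
    refine Finset.sum_congr rfl fun S _ => ?_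
    rw [hWdef]
    simp only
    rw [Complex.ofReal_sum, Finset.sum_mul]
    refine Finset.sum_congr rfl fun a ha => ?_
    rw [(Finset.mem_filter.1 ha).2]
  have hne : H.Nonempty := by
    by_contra hne
    rw [Finset.not_nonempty_iff_eq_empty] at hne
    subst hne
    simp at h
    linarith
  obtain ⟨S1, hS1, hmax⟩ := Finset.exists_max_image (H.image f) W (hne.image f)
  have hu' : ∀ S ∈ H.image f, ‖(W S : ℂ) * u S‖ = W S := by
    intro S hS
    obtain ⟨a, ha, rfl⟩ := Finset.mem_image.1 hS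
    rw [norm_mul, hu a ha, mul_one, Complex.norm_real, Real.norm_eq_abs, abs_of_nonneg (hW0 _)]
  have hq2 : ∑ a ∈ H, w a = W S1 + ∑ S ∈ (H.image f).erase S1, W S := by
    rw [hq, Finset.add_sum_erase _ _ hS1]
  have hVle : W S1 - ∑ S ∈ (H.image f).erase S1, W S ≤ ‖∑ a ∈ H, (w a : ℂ) * u (f a)‖ := by
    rw [hV, ← Finset.add_sum_erase _ _ hS1]
    have h1 : ‖∑ S ∈ (H.image f).erase S1, (W S : ℂ) * u S‖ ≤
        ∑ S ∈ (H.image f).erase S1, W S := by
      refine (norm_sum_le _ _).trans (le_of_eq ?_)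
      exact Finset.sum_congr rfl fun S hS => hu' S (Finset.mem_of_mem_erase hS)
    have h2 : ‖(W S1 : ℂ) * u S1‖ - ‖∑ S ∈ (H.image f).erase S1, (W S : ℂ) * u S‖ ≤
        ‖(W S1 : ℂ) * u S1 + ∑ S ∈ (H.image f).erase S1, (W S : ℂ) * u S‖ := by
      have h3 := norm_sub_le ((W S1 : ℂ) * u S1 + ∑ S ∈ (H.image f).erase S1, (W S : ℂ) * u S)
        (∑ S ∈ (H.image f).erase S1, (W S : ℂ) * u S)
      rw [add_sub_cancel_right] at h3
      linarith
    rw [hu' S1 hS1] at h2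
    linarith
  have hsum : η / 2 ≤ ∑ S ∈ (H.image f).erase S1, W S := by linarith
  have hpow : (0 : ℝ) < 2 * 2 ^ m := by positivity
  obtain ⟨S2, hS2, hW2⟩ : ∃ S2 ∈ (H.image f).erase S1, η / (2 * 2 ^ m) ≤ W S2 := by
    by_contra hcon
    push Not at hcon
    rcases ((H.image f).erase S1).eq_empty_or_nonempty with he | he
    · rw [he, Finset.sum_empty] at hsum
      linarith
    · have h1 := Finset.sum_lt_sum_of_nonempty he hcon
      rw [Finset.sum_const, nsmul_eq_mul] at h1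
      have h2 : (((H.image f).erase S1).card : ℝ) ≤ 2 ^ m := by
        have h3 : ((H.image f).erase S1).card ≤ 2 ^ m := by
          refine (Finset.card_le_univ _).trans ?_
          rw [Fintype.card_finset, ZMod.card]
        exact_mod_cast h3
      have h4 : (((H.image f).erase S1).card : ℝ) * (η / (2 * 2 ^ m)) ≤
          2 ^ m * (η / (2 * 2 ^ m)) := mul_le_mul_of_nonneg_right h2 (by positivity)
      have h5 : (2 : ℝ) ^ m * (η / (2 * 2 ^ m)) = η / 2 := by
        field_simp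
      linarith
  obtain ⟨a1, ha1, h1⟩ := Finset.mem_image.1 hS1
  obtain ⟨a2, ha2, h2⟩ := Finset.mem_image.1 (Finset.mem_of_mem_erase hS2)
  refine ⟨a1, ha1, a2, ha2, ?_, ?_, ?_⟩
  · rw [h1, h2]
    exact (Finset.ne_of_mem_erase hS2).symm
  · rw [h1]
    exact hW2.trans (hmax S2 (Finset.mem_of_mem_erase hS2))
  · rw [h2]
    exact hW2

theorem union_card {m t : ℕ} (S1 S2 : Finset (ZMod m)) (h1 : S1.card = t) (h2 : S2.card = t) (h : S1 ≠ S2) :
    t + 1 ≤ (S1 ∪ S2).card := by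
  classical
  by_contra hcon
  have h3 : (S1 ∪ S2).card ≤ t := by omega
  have e1 : S1 = S1 ∪ S2 :=
    Finset.eq_of_subset_of_card_le Finset.subset_union_left (by omega)
  have e2 : S2 = S1 ∪ S2 :=
    Finset.eq_of_subset_of_card_le Finset.subset_union_right (by omega)
  exact h (e1.trans e2.symm)

end Pool.Agent.Lib.MP_42948a_nt.BM
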