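import Pool.Agent.Lib.MP_42948a_nt.BM.Defs

/-!
# A set of positive density (job G2)

`∑ v ≤ √N √(∑ v^2) ≤ ρ N √(1 - b^2/3) ≤ ρ N (1 - b^2/6)` (Cauchy-Schwarz, `sq_sum_le_card_mul_sum_sq` or `Finset.inner_mul_le_norm_mul_norm`; `√(1-x) ≤ 1 - x/2`), so
`∑ (q - v) ≥ ρ N b^2/6`. Let `P = {ρ b^2/12 ≤ q - v}`; outside `P` the sum of `q - v` is `≤ N ρ b^2/12`, so `ρ N b^2/12 ≤ ∑_{P} (q - v) ≤ ∑_P q` (`0 ≤ v`)
`≤ √(#P) √(∑ q^2) ≤ √(#P) √(11/10 ρ^2 N)`. Squaring: `ρ^2 N^2 b^4/144 ≤ #P (11/10) ρ^2 N`, so `#P ≥ N b^4/158.4 ≥ b^4/200 N`.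
-/

namespace Pool.Agent.Lib.MP_42948a_nt.BM

open Finset Pool.Agent.Lib.MP_42948a_nt.OA Pool.Agent.Lib.MP_42948a_nt.OM

open Classical in
theorem measure_step {G : Type*} [Fintype G] (q v : G → ℝ) (N ρ b : ℝ) (hN : 0 < N) (hcard : (Fintype.card G : ℝ) = N)
    (hρ : 0 < ρ) (hb : 0 < b) (hb1 : b ≤ 1) (hv : ∀ g, 0 ≤ v g) (h1 : ∑ g, q g = ρ * N)
    (h2 : ∑ g, q g ^ 2 ≤ 11 / 10 * ρ ^ 2 * N) (h3 : ∑ g, v g ^ 2 ≤ ρ ^ 2 * (1 - b ^ 2 / 3) * N) :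
    b ^ 4 / 200 * N ≤ ((univ.filter (fun g => ρ * b ^ 2 / 12 ≤ q g - v g)).card : ℝ) := by
  set P := univ.filter (fun g => ρ * b ^ 2 / 12 ≤ q g - v g) with hP
  have hb2 : b ^ 2 ≤ 1 := by nlinarith
  have hb0 : 0 < b ^ 2 := by positivity
  -- the sum of `v`
  have hV : ∑ g, v g ≤ ρ * N * (1 - b ^ 2 / 6) := by
    have h4 : (∑ g, v g) ^ 2 ≤ N * ∑ g, v g ^ 2 := by
      have h5 := sq_sum_le_card_mul_sum_sq (s := (univ : Finset G)) (f := v)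
      rw [Finset.card_univ, hcard] at h5
      exact h5
    have h5 : N * ∑ g, v g ^ 2 ≤ N * (ρ ^ 2 * (1 - b ^ 2 / 3) * N) :=
      mul_le_mul_of_nonneg_left h3 hN.le
    have h6 : (∑ g, v g) ^ 2 ≤ (ρ * N * (1 - b ^ 2 / 6)) ^ 2 := by
      refine (h4.trans h5).trans ?_
      have h7 : (ρ * N * (1 - b ^ 2 / 6)) ^ 2 - N * (ρ ^ 2 * (1 - b ^ 2 / 3) * N) =
          (ρ * N * (b ^ 2 / 6)) ^ 2 := by ring
      nlinarith [sq_nonneg (ρ * N * (b ^ 2 / 6))]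
    have h8 : 0 ≤ ρ * N * (1 - b ^ 2 / 6) := by
      have : 0 ≤ 1 - b ^ 2 / 6 := by linarith
      positivity
    exact le_of_sq_le_sq h6 h8
  -- the sum over `P`
  have hsplit := Finset.sum_filter_add_sum_filter_not univ (fun g => ρ * b ^ 2 / 12 ≤ q g - v g)
    (fun g => q g - v g)
  have hall : ∑ g, (q g - v g) = ρ * N - ∑ g, v g := by
    rw [Finset.sum_sub_distrib, h1]
  rw [← hP, hall] at hsplit
  have hout : ∑ g ∈ univ.filter (fun g => ¬ ρ * b ^ 2 / 12 ≤ q g - v g), (q g - v g) ≤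
      N * (ρ * b ^ 2 / 12) := by
    have h4 : ∑ g ∈ univ.filter (fun g => ¬ ρ * b ^ 2 / 12 ≤ q g - v g), (q g - v g) ≤
        ∑ g ∈ univ.filter (fun g => ¬ ρ * b ^ 2 / 12 ≤ q g - v g), ρ * b ^ 2 / 12 := by
      refine Finset.sum_le_sum fun g hg => ?_
      exact (not_le.1 (Finset.mem_filter.1 hg).2).le
    refine h4.trans ?_
    rw [Finset.sum_const, nsmul_eq_mul]
    refine mul_le_mul_of_nonneg_right ?_ (by positivity)
    rw [← hcard, ← Finset.card_univ]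
    exact Nat.cast_le.2 (Finset.card_le_card (Finset.filter_subset _ _))
  have hin : ρ * N * b ^ 2 / 12 ≤ ∑ g ∈ P, q g := by
    have h4 : ∑ g ∈ P, (q g - v g) ≤ ∑ g ∈ P, q g :=
      Finset.sum_le_sum fun g _ => by linarith [hv g]
    linarith
  have hCS : (∑ g ∈ P, q g) ^ 2 ≤ (P.card : ℝ) * (11 / 10 * ρ ^ 2 * N) := by
    have h4 := sq_sum_le_card_mul_sum_sq (s := P) (f := q)
    refine h4.trans (mul_le_mul_of_nonneg_left ?_ (by positivity))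
    refine le_trans (Finset.sum_le_sum_of_subset_of_nonneg (Finset.filter_subset _ _)
      fun _ _ _ => sq_nonneg _) h2
  have hsq : (ρ * N * b ^ 2 / 12) ^ 2 ≤ (P.card : ℝ) * (11 / 10 * ρ ^ 2 * N) :=
    (pow_le_pow_left₀ (by positivity) hin 2).trans hCS
  have hpos : 0 < ρ ^ 2 * N := by positivity
  have h4 : (ρ ^ 2 * N) * (N * b ^ 4 / 144) ≤ (ρ ^ 2 * N) * ((P.card : ℝ) * (11 / 10)) := by
    calc (ρ ^ 2 * N) * (N * b ^ 4 / 144) = (ρ * N * b ^ 2 / 12) ^ 2 := by ring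
      _ ≤ (P.card : ℝ) * (11 / 10 * ρ ^ 2 * N) := hsq
      _ = (ρ ^ 2 * N) * ((P.card : ℝ) * (11 / 10)) := by ring
  have h5 := le_of_mul_le_mul_left h4 hpos
  have h6 : 0 ≤ N * b ^ 4 := by positivity
  linarith

end Pool.Agent.Lib.MP_42948a_nt.BM
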