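import Pool.Agent.Lib.MP_42948a_nt.BM.A5
import Pool.Agent.Lib.MP_42948a_nt.BM.G1
import Pool.Agent.Lib.MP_42948a_nt.BM.G2

/-!
# Growth of the set of blocked residues (job G3)

Let `P` be the set of `hB`, for `g ∈ P` choose `σ g` with exactly `t` elements and `κ ≤ F g x` for `x ∈ σ g` (`Finset.exists_subset_card_eq`), `σ g = ∅` outside `P`.
`ρ' = #P/φ ≥ ρ > 0` (`φ > 0`). `q g = ∑_{a ∈ Q} ω a * 1_P(g ucl a)`, `T g = 1_P(g) * uS (σ g)` (complex), `V g = ∑_{a ∈ Q} ω a * es (1 * Om a) * T (g * ucl a)`, `v g = ‖V g‖`.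
* `h1`: `first` (`f` = indicator function of `P`). `h2`: `second` with `i = 0`, `T` = indicator of `P` (as a complex function), `K = 1 + τ` (`W.bessel`): `mn q^2 ≤ ρ'^2 (1 + τ) + s^2 ρ'`, and
  `s^2 ρ' ≤ ρ'^2 (β^2/100)` since `s ≤ ρ'`, `s ≤ β^2/100`; `τ ≤ β^2/100`, `β ≤ 1`: total `≤ 1.1 ρ'^2`.
* `h3`: `second` with `i = 1`, `K = 1 - β^2/2` (`W.gap`): `≤ ρ'^2 (1 - β^2/2) + ρ'^2 β^2/100 ≤ ρ'^2 (1 - β^2/3)`. (`‖T g‖ ≤ 1`: `uS_norm_le`.)
* `measure_step` (`G = (ZMod d)ˣ`, `N = φ`; `ZMod.card_units_eq_totient`) gives a set `P'` with `#P' ≥ rh1 β * φ` of `g` with `ρ' β^2/12 ≤ q g - ‖V g‖`.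
* For `g ∈ P'` let `H = {a ∈ Q : g ucl a ∈ P}`, `f a = (σ (g ucl a)).image (fun x => x - Om a)` (again `t` elements, injective map). For `a ∈ H`:
  `es (1 * Om a) * T (g ucl a) = es (Om a) * uS (σ ..) = uS (f a)` (`uS_shift`), norm one (`uS_norm`, `0 < t < m`). So `V g = ∑_{a ∈ H} ω a * uS (f a)`, `q g = ∑_{a ∈ H} ω a`. `two_popular` with
  `η = ρ' β^2/12`: two sets `S1 = f a1 ≠ S2 = f a2` with weights `≥ ρ' β^2/(24 * 2^m) = ρ' * gam m β`. For `x ∈ S1 ∪ S2` (at least `t + 1` elements, `union_card`), say `x ∈ S1`: for all `a ∈ H` with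
  `f a = S1` we have `x + Om a ∈ σ (g ucl a)`, so `F (g ucl a) (x + Om a) ≥ κ`; all other terms of `stp` are `≥ 0`: `stp .. g x ≥ κ * (weight of S1) ≥ κ * ρ' * gam m β ≥ κ * ρ * gam m β`.
-/

namespace Pool.Agent.Lib.MP_42948a_nt.BM

open Finset Pool.Agent.Lib.MP_42948a_nt.OA Pool.Agent.Lib.MP_42948a_nt.OM

theorem growth {m d : ℕ} (hm : m.Prime) [NeZero m] [NeZero d] {z Y : ℕ} {β τ s s2 : ℝ} (W : Wlk m d z Y β τ s s2)
    (hβ : 0 < β) (hβ1 : β ≤ 1) (hτ : τ ≤ β ^ 2 / 100) (hs0 : 0 < s) (hs : s ≤ β ^ 2 / 100)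
    (F : (ZMod d)ˣ → ZMod m → ℝ) (hF : ∀ g x, 0 ≤ F g x) (t : ℕ) (ht0 : 0 < t) (htm : t < m) (κ ρ : ℝ) (hκ : 0 ≤ κ)
    (hρ : s ≤ ρ) (hB : Blk F t κ ρ) : Blk (stp W.Q W.ω F) (t + 1) (κ * ρ * gam m β) (rh1 β) := by
  classical
  obtain ⟨P, hPc, hP⟩ := hB
  have hφ : 0 < (d.totient : ℝ) := by
    have h0 : 0 < d.totient := Nat.totient_pos.2 (Nat.pos_of_ne_zero (NeZero.ne d))
    exact_mod_cast h0
  have hσ : ∀ g : (ZMod d)ˣ, ∃ S : Finset (ZMod m), g ∈ P → S.card = t ∧ ∀ x ∈ S, κ ≤ F g x := by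
    intro g
    by_cases hg : g ∈ P
    · obtain ⟨S, hS, hSx⟩ := hP g hg
      obtain ⟨S', hS', hS'c⟩ := Finset.exists_subset_card_eq hS
      exact ⟨S', fun _ => ⟨hS'c, fun x hx => hSx x (hS' hx)⟩⟩
    · exact ⟨∅, fun h => absurd h hg⟩
  choose σ hσ' using hσ
  obtain ⟨ρ', hρ'def⟩ : ∃ r : ℝ, r = (P.card : ℝ) / (d.totient : ℝ) := ⟨_, rfl⟩
  have hρρ' : ρ ≤ ρ' := by
    rw [hρ'def, le_div_iff₀ hφ]
    exact hPc
  have hρ0 : 0 < ρ := lt_of_lt_of_le hs0 hρ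
  have hρ'0 : 0 < ρ' := lt_of_lt_of_le hρ0 hρρ'
  have hsρ' : s ≤ ρ' := hρ.trans hρρ'
  have hsρ2 : s ^ 2 * ρ' ≤ ρ' ^ 2 * (β ^ 2 / 100) := by
    have e1 : s ^ 2 * ρ' = s * ρ' * s := by ring
    have e2 : ρ' ^ 2 * (β ^ 2 / 100) = ρ' * ρ' * (β ^ 2 / 100) := by ring
    rw [e1, e2]
    have h1 : s * ρ' ≤ ρ' * ρ' := mul_le_mul_of_nonneg_right hsρ' hρ'0.le
    exact mul_le_mul h1 hs hs0.le (by positivity)
  have hβ2 : β ^ 2 ≤ 1 := by nlinarith
  have hcardP : ρ' * (d.totient : ℝ) = (P.card : ℝ) := by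
    rw [hρ'def]
    exact div_mul_cancel₀ _ (ne_of_gt hφ)
  let ind : (ZMod d)ˣ → ℝ := fun g => if g ∈ P then (1 : ℝ) else 0
  let T : (ZMod d)ˣ → ℂ := fun g => if g ∈ P then uS (σ g) else 0
  let q : (ZMod d)ˣ → ℝ := fun g => ∑ a ∈ W.Q, W.ω a * ind (g * ucl d a)
  let V : (ZMod d)ˣ → ℂ := fun g =>
    ∑ a ∈ W.Q, ((W.ω a : ℂ) * es ((1 : ZMod m) * (Om a : ZMod m))) * T (g * ucl d a)
  have hmn : ∀ h : (ZMod d)ˣ → ℝ, ∑ g, h g = mn h * (d.totient : ℝ) := by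
    intro h
    rw [mn]
    exact (div_mul_cancel₀ _ (ne_of_gt hφ)).symm
  have hind : ∑ g, ind g = (P.card : ℝ) := by
    simp only [ind]
    rw [Finset.sum_ite_mem, Finset.univ_inter, Finset.sum_const, nsmul_eq_mul, mul_one]
  have h1 : ∑ g, q g = ρ' * (d.totient : ℝ) := by
    have h0 : mn q = mn ind := first W ind
    rw [hmn q, h0, ← hmn ind, hind, hcardP]
  have h2 : ∑ g, q g ^ 2 ≤ 11 / 10 * ρ' ^ 2 * (d.totient : ℝ) := by
    have h0 := second W hs0.le (0 : ZMod m) P (fun g => ((ind g : ℝ) : ℂ))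
      (by
        intro g
        simp only [ind]
        split_ifs <;> simp)
      (by
        intro g hg
        simp only [ind, if_neg hg, Complex.ofReal_zero])
      (1 + τ) (W.bessel 0)
    have e1 : (fun g : (ZMod d)ˣ => ‖∑ a ∈ W.Q, ((W.ω a : ℂ) * es ((0 : ZMod m) * (Om a : ZMod m))) *
        ((ind (g * ucl d a) : ℝ) : ℂ)‖ ^ 2) = fun g => q g ^ 2 := by
      funext g
      have e2 : ∑ a ∈ W.Q, ((W.ω a : ℂ) * es ((0 : ZMod m) * (Om a : ZMod m))) *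
          ((ind (g * ucl d a) : ℝ) : ℂ) = ((q g : ℝ) : ℂ) := by
        simp only [q]
        rw [Complex.ofReal_sum]
        refine Finset.sum_congr rfl fun a _ => ?_
        rw [zero_mul, es_zero, mul_one, Complex.ofReal_mul]
      rw [e2, Complex.norm_real, Real.norm_eq_abs, sq_abs]
    rw [e1, ← hρ'def] at h0
    rw [hmn (fun g => q g ^ 2)]
    refine mul_le_mul_of_nonneg_right (h0.trans ?_) hφ.le
    have h3 : ρ' ^ 2 * (1 + τ) ≤ ρ' ^ 2 * (1 + β ^ 2 / 100) :=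
      mul_le_mul_of_nonneg_left (by linarith) (by positivity)
    have h4 : ρ' ^ 2 * (β ^ 2 / 100) ≤ ρ' ^ 2 * (1 / 100) :=
      mul_le_mul_of_nonneg_left (by linarith) (by positivity)
    have h5 : 0 ≤ ρ' ^ 2 := by positivity
    nlinarith only [h3, h4, h5, hsρ2]
  have h3 : ∑ g, ‖V g‖ ^ 2 ≤ ρ' ^ 2 * (1 - β ^ 2 / 3) * (d.totient : ℝ) := by
    have h0 := second W hs0.le (1 : ZMod m) P T
      (by
        intro g
        simp only [T]
        split_ifs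
        · exact uS_norm_le _
        · simp)
      (by
        intro g hg
        simp only [T, if_neg hg])
      (1 - β ^ 2 / 2) W.gap
    rw [← hρ'def] at h0
    rw [hmn (fun g => ‖V g‖ ^ 2)]
    refine mul_le_mul_of_nonneg_right (le_trans h0 ?_) hφ.le
    have h5 : 0 ≤ ρ' ^ 2 * β ^ 2 := by positivity
    nlinarith only [h5, hsρ2]
  have hstep := measure_step q (fun g => ‖V g‖) (d.totient : ℝ) ρ' β hφ
    (by rw [ZMod.card_units_eq_totient]) hρ'0 hβ hβ1 (fun g => norm_nonneg _) h1 h2 h3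
  refine ⟨univ.filter (fun g => ρ' * β ^ 2 / 12 ≤ q g - ‖V g‖), hstep, ?_⟩
  intro g hg
  have hgq : ρ' * β ^ 2 / 12 ≤ q g - ‖V g‖ := (Finset.mem_filter.1 hg).2
  let f : ℕ → Finset (ZMod m) := fun a => (σ (g * ucl d a)).image (fun x => x - (Om a : ZMod m))
  obtain ⟨H, hH⟩ : ∃ H : Finset ℕ, H = W.Q.filter (fun a => g * ucl d a ∈ P) := ⟨_, rfl⟩
  have hHQ : ∀ a ∈ H, a ∈ W.Q ∧ g * ucl d a ∈ P := by
    intro a ha
    rw [hH] at ha
    exact Finset.mem_filter.1 ha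
  have hfc : ∀ a ∈ H, (f a).card = t := by
    intro a ha
    simp only [f]
    rw [Finset.card_image_of_injective _ sub_left_injective]
    exact (hσ' _ (hHQ a ha).2).1
  have hu : ∀ a ∈ H, ‖uS (f a)‖ = 1 := by
    intro a ha
    refine uS_norm hm _ ?_ ?_
    · rw [← Finset.card_pos, hfc a ha]
      exact ht0
    · rw [hfc a ha]
      exact htm
  have hqH : q g = ∑ a ∈ H, W.ω a := by
    simp only [q, ind, hH]
    rw [Finset.sum_filter]
    refine Finset.sum_congr rfl fun a _ => ?_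
    split_ifs <;> simp
  have hVH : V g = ∑ a ∈ H, (W.ω a : ℂ) * uS (f a) := by
    simp only [V, T, hH, f]
    rw [Finset.sum_filter]
    refine Finset.sum_congr rfl fun a _ => ?_
    split_ifs
    · rw [uS_shift, one_mul, mul_assoc]
    · simp
  have hη : 0 < ρ' * β ^ 2 / 12 := by positivity
  obtain ⟨a1, ha1, a2, ha2, hne, hw1, hw2⟩ := two_popular H W.ω (fun a ha => W.nonneg a (hHQ a ha).1)
    f uS hu (ρ' * β ^ 2 / 12) hη (by rw [← hqH, ← hVH]; exact hgq)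
  have key : ∀ a0 ∈ H, ρ' * β ^ 2 / 12 / (2 * 2 ^ m) ≤ ∑ a ∈ H.filter (fun a => f a = f a0), W.ω a →
      ∀ x ∈ f a0, κ * ρ * gam m β ≤ stp W.Q W.ω F g x := by
    intro a0 _ hw x hx
    have e1 : ρ' * β ^ 2 / 12 / (2 * 2 ^ m) = ρ' * gam m β := by
      rw [gam]
      field_simp
      norm_num
    have hgam : 0 ≤ gam m β := by
      rw [gam]
      positivity
    rw [e1] at hw
    have s1 : κ * ρ * gam m β ≤ κ * ∑ a ∈ H.filter (fun a => f a = f a0), W.ω a := by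
      rw [mul_assoc]
      exact mul_le_mul_of_nonneg_left ((mul_le_mul_of_nonneg_right hρρ' hgam).trans hw) hκ
    refine s1.trans ?_
    rw [stp, Finset.mul_sum]
    have hsub : H.filter (fun a => f a = f a0) ⊆ W.Q := by
      intro a ha
      exact (hHQ a (Finset.mem_filter.1 ha).1).1
    refine le_trans ?_ (Finset.sum_le_sum_of_subset_of_nonneg hsub
      (fun a ha _ => mul_nonneg (W.nonneg a ha) (hF _ _)))
    refine Finset.sum_le_sum fun a ha => ?_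
    obtain ⟨haH, haf⟩ := Finset.mem_filter.1 ha
    have hxa : x ∈ f a := by
      rw [haf]
      exact hx
    simp only [f] at hxa
    obtain ⟨y, hy, hyx⟩ := Finset.mem_image.1 hxa
    have hxy : x + (Om a : ZMod m) = y := by
      rw [← hyx, sub_add_cancel]
    rw [mul_comm κ, hxy]
    exact mul_le_mul_of_nonneg_left ((hσ' _ (hHQ a haH).2).2 y hy) (W.nonneg a (hHQ a haH).1)
  refine ⟨f a1 ∪ f a2, union_card _ _ (hfc a1 ha1) (hfc a2 ha2) hne, ?_⟩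
  intro x hx
  rcases Finset.mem_union.1 hx with hx1 | hx2
  · exact key a1 ha1 hw1 x hx1
  · exact key a2 ha2 hw2 x hx2

end Pool.Agent.Lib.MP_42948a_nt.BM
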