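import Pool.Agent.Lib.MP_42948a_nt.BM.A5

/-!
# When all residues are blocked (job G4)

`stp_nonneg`: clear. `full_step`: `P` from `hB` (the sets `S` have `m` elements, so they are `univ`: `Finset.eq_univ_of_card`, `ZMod.card`), `ρ' = #P/φ ≥ ρ`, `q g = ∑_a ω a * 1_P(g ucl a)`, `0 ≤ q g ≤ 1`,
`∑_g q g = ρ' φ` (`first`). `P' = {g : ρ'/2 ≤ q g}`: `ρ' φ ≤ #P' + (ρ'/2) φ`, so `#P' ≥ (ρ'/2) φ`. For `g ∈ P'` and every `x`: the terms with `g ucl a ∈ P` give
`stp F g x ≥ κ * q g ≥ κ ρ'/2`.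
`Blk_mono`: clear (`totient` nonnegative).
-/

namespace Pool.Agent.Lib.MP_42948a_nt.BM

open Finset Pool.Agent.Lib.MP_42948a_nt.OA Pool.Agent.Lib.MP_42948a_nt.OM

theorem stp_nonneg {m d : ℕ} (Q : Finset ℕ) (ω : ℕ → ℝ) (hω : ∀ a ∈ Q, 0 ≤ ω a) (F : (ZMod d)ˣ → ZMod m → ℝ)
    (hF : ∀ g x, 0 ≤ F g x) (g : (ZMod d)ˣ) (x : ZMod m) : 0 ≤ stp Q ω F g x := by
  unfold stp
  exact sum_nonneg fun a ha => mul_nonneg (hω a ha) (hF _ _)

theorem Blk_mono {m d : ℕ} {F : (ZMod d)ˣ → ZMod m → ℝ} {t t' : ℕ} {κ κ' ρ ρ' : ℝ} (h : Blk F t κ ρ) (ht : t' ≤ t)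
    (hκ : κ' ≤ κ) (hρ : ρ' ≤ ρ) : Blk F t' κ' ρ' := by
  obtain ⟨P, h1, h2⟩ := h
  refine ⟨P, (mul_le_mul_of_nonneg_right hρ (Nat.cast_nonneg _)).trans h1, fun g hg => ?_⟩
  obtain ⟨S, h3, h4⟩ := h2 g hg
  exact ⟨S, ht.trans h3, fun x hx => hκ.trans (h4 x hx)⟩

theorem full_step {m d : ℕ} [NeZero m] [NeZero d] {z Y : ℕ} {β τ s s2 : ℝ} (W : Wlk m d z Y β τ s s2)
    (F : (ZMod d)ˣ → ZMod m → ℝ) (hF : ∀ g x, 0 ≤ F g x) (κ ρ : ℝ) (hκ : 0 ≤ κ) (hρ : 0 ≤ ρ)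
    (hB : Blk F m κ ρ) : Blk (stp W.Q W.ω F) m (κ * ρ / 2) (ρ / 2) := by
  classical
  obtain ⟨P, h1, h2⟩ := hB
  have hP : ∀ g ∈ P, ∀ x, κ ≤ F g x := by
    intro g hg x
    obtain ⟨S, h3, h4⟩ := h2 g hg
    have h5 : S = univ := by
      apply Finset.eq_univ_of_card
      rw [ZMod.card]
      refine le_antisymm ?_ h3
      have h6 := Finset.card_le_univ S
      rwa [ZMod.card] at h6
    exact h4 x (by rw [h5]; exact mem_univ x)
  have hφ : (0 : ℝ) < (d.totient : ℝ) := by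
    have : 0 < d.totient := Nat.totient_pos.2 (Nat.pos_of_ne_zero (NeZero.ne d))
    exact_mod_cast this
  have hcardG : (Fintype.card (ZMod d)ˣ : ℝ) = (d.totient : ℝ) := by
    rw [ZMod.card_units_eq_totient]
  set f : (ZMod d)ˣ → ℝ := fun g => if g ∈ P then 1 else 0 with hf
  set q : (ZMod d)ˣ → ℝ := fun g => ∑ a ∈ W.Q, W.ω a * f (g * ucl d a) with hq
  have hf0 : ∀ g, 0 ≤ f g := by
    intro g
    simp only [hf]
    split_ifs <;> norm_num
  have hf1 : ∀ g, f g ≤ 1 := by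
    intro g
    simp only [hf]
    split_ifs <;> norm_num
  have hq1 : ∀ g, q g ≤ 1 := by
    intro g
    rw [← W.sum_one]
    refine sum_le_sum fun a ha => ?_
    exact mul_le_of_le_one_right (W.nonneg a ha) (hf1 _)
  have hsum : ∑ g, q g = (P.card : ℝ) := by
    have h3 : mn q = mn f := first W f
    unfold mn at h3
    rw [div_left_inj' hφ.ne'] at h3
    rw [h3, hf, Finset.sum_ite_mem, Finset.univ_inter, Finset.sum_const, nsmul_eq_mul, mul_one]
  set P' : Finset (ZMod d)ˣ := univ.filter (fun g => ρ / 2 ≤ q g) with hP'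
  have hub : ∑ g, q g ≤ (P'.card : ℝ) + ρ / 2 * (d.totient : ℝ) := by
    have h3 : ∀ g : (ZMod d)ˣ, q g ≤ (if g ∈ P' then (1 : ℝ) else 0) + ρ / 2 := by
      intro g
      by_cases hg : g ∈ P'
      · rw [if_pos hg]
        have := hq1 g
        linarith
      · rw [if_neg hg]
        have h4 : ¬ ρ / 2 ≤ q g := fun h5 => hg (mem_filter.2 ⟨mem_univ _, h5⟩)
        push Not at h4
        linarith
    calc ∑ g, q g ≤ ∑ g : (ZMod d)ˣ, ((if g ∈ P' then (1 : ℝ) else 0) + ρ / 2) :=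
          sum_le_sum fun g _ => h3 g
      _ = (P'.card : ℝ) + ρ / 2 * (d.totient : ℝ) := by
          rw [Finset.sum_add_distrib, Finset.sum_ite_mem, Finset.univ_inter, Finset.sum_const,
            Finset.sum_const, Finset.card_univ, nsmul_eq_mul, nsmul_eq_mul, mul_one, hcardG,
            mul_comm (d.totient : ℝ)]
  refine ⟨P', ?_, fun g hg => ⟨univ, ?_, fun x _ => ?_⟩⟩
  · rw [hsum] at hub
    linarith
  · rw [Finset.card_univ, ZMod.card]
  · have h3 : ρ / 2 ≤ q g := (mem_filter.1 hg).2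
    have h4 : κ * q g ≤ stp W.Q W.ω F g x := by
      simp only [hq, stp]
      rw [Finset.mul_sum]
      refine sum_le_sum fun a ha => ?_
      have h5 : κ * f (g * ucl d a) ≤ F (g * ucl d a) (x + (Om a : ZMod m)) := by
        by_cases hg : g * ucl d a ∈ P
        · simp only [hf]
          rw [if_pos hg, mul_one]
          exact hP _ hg _
        · simp only [hf]
          rw [if_neg hg, mul_zero]
          exact hF _ _
      calc κ * (W.ω a * f (g * ucl d a)) = W.ω a * (κ * f (g * ucl d a)) := by ring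
        _ ≤ W.ω a * F (g * ucl d a) (x + (Om a : ZMod m)) :=
          mul_le_mul_of_nonneg_left h5 (W.nonneg a ha)
    have h5 : κ * (ρ / 2) ≤ κ * q g := mul_le_mul_of_nonneg_left h3 hκ
    linarith

end Pool.Agent.Lib.MP_42948a_nt.BM
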