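import Pool.Agent.Lib.MP_42948a_nt.BM.G3
import Pool.Agent.Lib.MP_42948a_nt.BM.G4

/-!
# Three steps (job G5)

Let `δ = #B/φ`, `γ = gam m β`, `r = rh1 β` (`0 < γ ≤ 1/24`, `0 < r ≤ 1/200` for `0 < β ≤ 1`). `F0_blk`: `P = B`, `S = J`. Step 1: `growth` (`t = #J`, `s ≤ δ` by `hB`): `Blk F1 (#J + 1) (1 * δ * γ) r`.
Step 2: if `#J + 1 < m`, `growth` (`s ≤ r`): `Blk F2 (#J + 2) (δ γ r γ) r`; if `#J + 1 = m`, `full_step`: `Blk F2 m (δ γ r/2) (r/2)`. Step 3: if the present number `t` of residues is `< m`, `growth`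
(only in the first case, `#J + 3 ≥ m` gives `t + 1 = #J + 3 ≥ m`): `Blk F3 (#J + 3) (δ γ r γ r γ) r`; otherwise `full_step` with density `r` or `r/2`. In all cases `Blk F3 m (kp3 m β * δ) (rh3 β)` by
`Blk_mono`: `kp3 = γ^3 r^2/4`, and `δ γ^2 r * r/2`, `δ γ (r/2) (r/2)/2`, `δ γ^3 r^2` are all `≥ δ γ^3 r^2/4`; `rh3 = r/4`. `stp_nonneg` for the nonnegativity.
-/

namespace Pool.Agent.Lib.MP_42948a_nt.BM

open Finset Pool.Agent.Lib.MP_42948a_nt.OA Pool.Agent.Lib.MP_42948a_nt.OM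

theorem F0_nonneg {m d : ℕ} (B : Finset (ZMod d)ˣ) (J : Finset (ZMod m)) (g : (ZMod d)ˣ) (x : ZMod m) :
    0 ≤ F0 B J g x := by
  unfold F0
  split_ifs
  · exact zero_le_one
  · exact le_rfl

theorem F0_blk {m d : ℕ} [NeZero d] (B : Finset (ZMod d)ˣ) (J : Finset (ZMod m)) :
    Blk (F0 B J) J.card 1 ((B.card : ℝ) / (d.totient : ℝ)) := by
  have hφ : (0 : ℝ) < (d.totient : ℝ) := by
    exact_mod_cast Nat.totient_pos.2 (NeZero.pos d)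
  refine ⟨B, ?_, fun g hg => ⟨J, le_rfl, fun x hx => ?_⟩⟩
  · rw [div_mul_cancel₀ _ hφ.ne']
  · unfold F0
    rw [if_pos ⟨hg, hx⟩]

private theorem G5_gam {m : ℕ} {β : ℝ} (hβ : 0 < β) (hβ1 : β ≤ 1) :
    0 < gam m β ∧ gam m β ≤ 1 / 24 := by
  have h1 : (1 : ℝ) ≤ 2 ^ m := one_le_pow₀ (by norm_num)
  have h2 : 0 < β ^ 2 := by positivity
  have h3 : β ^ 2 ≤ 1 := pow_le_one₀ hβ.le hβ1
  unfold gam
  constructor
  · positivity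
  · rw [div_le_div_iff₀ (by positivity) (by norm_num)]
    nlinarith

private theorem G5_rh {β : ℝ} (hβ : 0 < β) : 0 < rh1 β := by
  unfold rh1
  positivity

private theorem G5_c1 {δ γ r : ℝ} (hδ : 0 < δ) (hγ : 0 < γ) (hr : 0 < r) :
    γ ^ 3 * (r / 2) ^ 2 * δ ≤ 1 * δ * γ * r * γ * r * γ := by
  have h3 : 0 ≤ δ * γ ^ 3 * r ^ 2 := by positivity
  nlinarith

private theorem G5_c2 {δ γ r : ℝ} (hδ : 0 < δ) (hγ : 0 < γ) (hγ1 : γ ≤ 1 / 24) (hr : 0 < r) :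
    γ ^ 3 * (r / 2) ^ 2 * δ ≤ 1 * δ * γ * r * γ * r / 2 := by
  have h3 : 0 ≤ δ * γ ^ 2 * r ^ 2 := by positivity
  have h5 : δ * γ ^ 2 * r ^ 2 * γ ≤ δ * γ ^ 2 * r ^ 2 * 1 :=
    mul_le_mul_of_nonneg_left (by linarith) h3
  nlinarith

private theorem G5_c3 {δ γ r : ℝ} (hδ : 0 < δ) (hγ : 0 < γ) (hγ1 : γ ≤ 1 / 24) (hr : 0 < r) :
    γ ^ 3 * (r / 2) ^ 2 * δ ≤ 1 * δ * γ * r / 2 * (r / 2) / 2 := by
  have hγ2 : γ ^ 2 ≤ 1 / 2 := by nlinarith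
  have h3 : 0 ≤ δ * γ * r ^ 2 := by positivity
  have h5 : δ * γ * r ^ 2 * γ ^ 2 ≤ δ * γ * r ^ 2 * (1 / 2) :=
    mul_le_mul_of_nonneg_left hγ2 h3
  nlinarith

theorem three_steps {m d : ℕ} (hm : m.Prime) [NeZero m] [NeZero d] {z Y : ℕ} {β τ s s2 : ℝ}
    (W : Wlk m d z Y β τ s s2) (hβ : 0 < β) (hβ1 : β ≤ 1) (hτ : τ ≤ β ^ 2 / 100) (hs0 : 0 < s) (hs : s ≤ β ^ 2 / 100)
    (hs1 : s ≤ rh1 β / 2) (B : Finset (ZMod d)ˣ) (J : Finset (ZMod m)) (hB : s * (d.totient : ℝ) ≤ B.card)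
    (hJ1 : 1 ≤ J.card) (hJ2 : J.card < m) (hJ3 : m ≤ J.card + 3) :
    Blk (stp W.Q W.ω (stp W.Q W.ω (stp W.Q W.ω (F0 B J)))) m (kp3 m β * ((B.card : ℝ) / (d.totient : ℝ))) (rh3 β) := by
  have hφ : (0 : ℝ) < (d.totient : ℝ) := by
    exact_mod_cast Nat.totient_pos.2 (NeZero.pos d)
  obtain ⟨hγ0, hγ1⟩ := G5_gam (m := m) hβ hβ1
  have hr0 := G5_rh hβ
  have hδ : s ≤ (B.card : ℝ) / (d.totient : ℝ) := by
    rw [le_div_iff₀ hφ]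
    exact hB
  have hδ0 : 0 < (B.card : ℝ) / (d.totient : ℝ) := lt_of_lt_of_le hs0 hδ
  have hsr : s ≤ rh1 β := by linarith
  have n0 : ∀ g x, 0 ≤ F0 B J g x := F0_nonneg B J
  have n1 : ∀ g x, 0 ≤ stp W.Q W.ω (F0 B J) g x := stp_nonneg W.Q W.ω W.nonneg _ n0
  have n2 : ∀ g x, 0 ≤ stp W.Q W.ω (stp W.Q W.ω (F0 B J)) g x := stp_nonneg W.Q W.ω W.nonneg _ n1
  have b1 := growth hm W hβ hβ1 hτ hs0 hs (F0 B J) n0 J.card hJ1 hJ2 1 _ zero_le_one hδ (F0_blk B J)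
  have e1 : kp3 m β = gam m β ^ 3 * (rh1 β / 2) ^ 2 := rfl
  have e2 : rh3 β = rh1 β / 4 := rfl
  rw [e1, e2]
  have p1 : 0 ≤ 1 * ((B.card : ℝ) / (d.totient : ℝ)) * gam m β := by positivity
  rcases Nat.lt_or_ge (J.card + 1) m with h1 | h1
  · have b2 := growth hm W hβ hβ1 hτ hs0 hs _ n1 (J.card + 1) (Nat.succ_pos _) h1 _ _ p1 hsr b1
    have p2 : 0 ≤ 1 * ((B.card : ℝ) / (d.totient : ℝ)) * gam m β * rh1 β * gam m β := by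
      positivity
    rcases Nat.lt_or_ge (J.card + 2) m with h2 | h2
    · have b3 := growth hm W hβ hβ1 hτ hs0 hs _ n2 (J.card + 1 + 1) (Nat.succ_pos _) h2 _ _ p2
        hsr b2
      exact Blk_mono b3 (by omega) (G5_c1 hδ0 hγ0 hr0) (by linarith)
    · have h4 : J.card + 1 + 1 = m := by omega
      rw [h4] at b2
      have b3 := full_step W _ n2 _ _ p2 hr0.le b2
      exact Blk_mono b3 le_rfl (G5_c2 hδ0 hγ0 hγ1 hr0) (by linarith)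
  · have h4 : J.card + 1 = m := by omega
    rw [h4] at b1
    have b2 := full_step W _ n1 _ _ p1 hr0.le b1
    have p2 : 0 ≤ 1 * ((B.card : ℝ) / (d.totient : ℝ)) * gam m β * rh1 β / 2 := by
      positivity
    have b3 := full_step W _ n2 _ _ p2 (by linarith) b2
    exact Blk_mono b3 le_rfl (G5_c3 hδ0 hγ0 hγ1 hr0) (by linarith)

end Pool.Agent.Lib.MP_42948a_nt.BM
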