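import Pool.Agent.Lib.MP_42948a_nt.BM.A0

/-!
# The products `n u` (job N11)

`prod_struct`: `Q = image (fun x => x.1 * x.2) (N ×ˢ U)`, `ω a = ∑_{x ∈ N ×ˢ U, x.1 x.2 = a} 1/(x.1 W) * p x.2`; `Finset.sum_fiberwise_of_maps_to` (or `Finset.sum_image'`), `Finset.sum_product`.
`AA_factor`: `h a = es (i * Om a) * χ a`: for `n, u > 0`: `Om (n u) = Om n + Om u` (`ArithmeticFunction.cardFactors_mul`), `i = (i.val : ZMod m)` (`ZMod.natCast_zmod_val`),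
`es (i * (Om n + Om u)) = ze m ^ (i.val * Om n) * ze m ^ (i.val * Om u)` (`es_nat` for the natural number `i.val * (Om n + Om u)`), `χ (n u) = χ n χ u`; `ac N v χ = ∑ v n / n * χ n`, `mc U p v χ = ∑ p u * v u * χ u`; factor.
-/

namespace Pool.Agent.Lib.MP_42948a_nt.BM

open Finset Pool.Agent.Lib.MP_42948a_nt.OA Pool.Agent.Lib.MP_42948a_nt.OM

theorem prod_struct (N U : Finset ℕ) (p : ℕ → ℝ) (W : ℝ) (hW : 0 < W) (hp : ∀ u ∈ U, 0 ≤ p u) :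
    ∃ (Q : Finset ℕ) (ω : ℕ → ℝ), (∀ a ∈ Q, ∃ n ∈ N, ∃ u ∈ U, a = n * u) ∧ (∀ a ∈ Q, 0 ≤ ω a) ∧
      (∀ h : ℕ → ℂ, ∑ a ∈ Q, (ω a : ℂ) * h a = ∑ n ∈ N, ∑ u ∈ U, ((1 / ((n : ℝ) * W) * p u : ℝ) : ℂ) * h (n * u)) ∧
      ∀ h : ℕ → ℝ, ∑ a ∈ Q, ω a * h a = ∑ n ∈ N, ∑ u ∈ U, 1 / ((n : ℝ) * W) * p u * h (n * u) := by
  refine ⟨(N ×ˢ U).image (fun x => x.1 * x.2),
    fun a => ∑ x ∈ (N ×ˢ U).filter (fun x => x.1 * x.2 = a), 1 / ((x.1 : ℝ) * W) * p x.2, ?_, ?_, ?_, ?_⟩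
  · intro a ha
    obtain ⟨x, hx, rfl⟩ := mem_image.mp ha
    rw [mem_product] at hx
    exact ⟨x.1, hx.1, x.2, hx.2, rfl⟩
  · intro a _
    refine sum_nonneg fun x hx => ?_
    have hx2 := (mem_product.mp (mem_filter.mp hx).1).2
    have := hp x.2 hx2
    positivity
  · intro h
    rw [← sum_product' (s := N) (t := U)
      (f := fun n u => ((1 / ((n : ℝ) * W) * p u : ℝ) : ℂ) * h (n * u))]
    rw [← sum_fiberwise_of_maps_to (s := N ×ˢ U) (t := (N ×ˢ U).image (fun x => x.1 * x.2))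
      (g := fun x => x.1 * x.2) (fun x hx => mem_image_of_mem _ hx)]
    refine sum_congr rfl fun a _ => ?_
    rw [Complex.ofReal_sum, sum_mul]
    refine sum_congr rfl fun x hx => ?_
    rw [(mem_filter.mp hx).2]
  · intro h
    rw [← sum_product' (s := N) (t := U)
      (f := fun n u => 1 / ((n : ℝ) * W) * p u * h (n * u))]
    rw [← sum_fiberwise_of_maps_to (s := N ×ˢ U) (t := (N ×ˢ U).image (fun x => x.1 * x.2))
      (g := fun x => x.1 * x.2) (fun x hx => mem_image_of_mem _ hx)]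
    refine sum_congr rfl fun a _ => ?_
    rw [sum_mul]
    refine sum_congr rfl fun x hx => ?_
    rw [(mem_filter.mp hx).2]

theorem AA_factor {m d : ℕ} [NeZero m] (N U Q : Finset ℕ) (p ω : ℕ → ℝ) (W : ℝ) (hN : ∀ n ∈ N, 0 < n)
    (hU : ∀ u ∈ U, 0 < u)
    (hQ : ∀ h : ℕ → ℂ, ∑ a ∈ Q, (ω a : ℂ) * h a = ∑ n ∈ N, ∑ u ∈ U, ((1 / ((n : ℝ) * W) * p u : ℝ) : ℂ) * h (n * u))
    (i : ZMod m) (χ : DirichletCharacter ℂ d) :
    AA Q ω i χ = ac N (fun n => ze m ^ (i.val * Om n)) χ / (W : ℂ) * mc U p (fun u => ze m ^ (i.val * Om u)) χ := by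
  have h1 : AA Q ω i χ = ∑ a ∈ Q, (ω a : ℂ) * (es (i * (Om a : ZMod m)) * χ (a : ZMod d)) := by
    unfold AA
    exact sum_congr rfl fun a _ => by ring
  rw [h1, hQ (fun a => es (i * (Om a : ZMod m)) * χ (a : ZMod d))]
  unfold ac mc
  rw [sum_div, sum_mul_sum]
  refine sum_congr rfl fun n hn => sum_congr rfl fun u hu => ?_
  have hn0 : n ≠ 0 := (hN n hn).ne'
  have hu0 : u ≠ 0 := (hU u hu).ne'
  have h2 : es (i * (Om (n * u) : ZMod m)) = ze m ^ (i.val * Om n) * ze m ^ (i.val * Om u) := by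
    have h3 : Om (n * u) = Om n + Om u := ArithmeticFunction.cardFactors_mul hn0 hu0
    have h4 : i * (Om (n * u) : ZMod m) = ((i.val * (Om n + Om u) : ℕ) : ZMod m) := by
      rw [h3]
      push_cast
      rw [ZMod.natCast_zmod_val]
    rw [h4, es_nat, ← pow_add]
    congr 1
    ring
  have h5 : χ ((n * u : ℕ) : ZMod d) = χ (n : ZMod d) * χ (u : ZMod d) := by
    rw [Nat.cast_mul, map_mul]
  rw [h2, h5]
  push_cast
  rw [one_div, mul_inv]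
  ring

end Pool.Agent.Lib.MP_42948a_nt.BM
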