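import Pool.Agent.Lib.MP_42948a_nt.BM.A2

/-!
# The upper bound for nonnegative functions (job N12m)

`∑_{n ∈ N} ∑_{u ∈ U} 1/(n W) p u h(ucl (n u)) ≤ ∑_{n ∈ I} ∑_{u ∈ U} w n/(n W) p u h(ucl (n u))` (`N ⊆ I`, `1 ≤ w` on `N`, `0 ≤ w` on `I`, `h ≥ 0`, `p ≥ 0`, `W > 0`). `FT_inv` at `ucl d (n u)` (`ucl_val`, `n u` coprime to `d`):
`h = ∑_χ FT h χ χ(n) χ(u)`, so the right side is (the real part of) `∑_χ FT h χ * (∑_u p u χ u) * ((∑_{n ∈ I} w n/n χ n)/W)`. The term `χ = 1` is `mn h * 1 * ((∑_I w/n)/W) ≤ 2 mn h` (`FT_one`; `1 (n) = 1` for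
`n` coprime to `d`; `∑ p = 1`; `hT`; `mn h ≥ 0`), and the others are at most `‖FT h χ‖ * 1 * s2` (`hC`, `‖∑ p u χ u‖ ≤ 1`), in total `≤ s2 Wn h`.
-/

namespace Pool.Agent.Lib.MP_42948a_nt.BM

open Finset Pool.Agent.Lib.MP_42948a_nt.OA Pool.Agent.Lib.MP_42948a_nt.OM

theorem major_fixed (d : ℕ) [NeZero d] (N I U : Finset ℕ) (p w : ℕ → ℝ) (W s2 : ℝ) (hW : 0 < W) (hs2 : 0 ≤ s2)
    (hNI : N ⊆ I) (hI : ∀ n ∈ I, 0 < n ∧ n.Coprime d) (hU : ∀ u ∈ U, u.Coprime d) (hp : ∀ u ∈ U, 0 ≤ p u)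
    (hp1 : ∑ u ∈ U, p u = 1) (hw0 : ∀ n ∈ I, 0 ≤ w n) (hw1 : ∀ n ∈ N, 1 ≤ w n) (hT : ∑ n ∈ I, w n / n ≤ 2 * W)
    (hC : ∀ χ : DirichletCharacter ℂ d, χ ≠ 1 → ‖∑ n ∈ I, ((w n / n : ℝ) : ℂ) * χ (n : ZMod d)‖ ≤ s2 * W)
    (h : (ZMod d)ˣ → ℝ) (hh : ∀ g, 0 ≤ h g) :
    ∑ n ∈ N, ∑ u ∈ U, 1 / ((n : ℝ) * W) * p u * h (ucl d (n * u)) ≤ 2 * mn h + s2 * Wn (fun g => ((h g : ℝ) : ℂ)) := by
  classical
  obtain ⟨R, hR⟩ : ∃ R : ℝ, R = ∑ n ∈ I, ∑ u ∈ U, w n / ((n : ℝ) * W) * p u * h (ucl d (n * u)) :=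
    ⟨_, rfl⟩
  have hRle : ∑ n ∈ N, ∑ u ∈ U, 1 / ((n : ℝ) * W) * p u * h (ucl d (n * u)) ≤ R := by
    have h1 : ∑ n ∈ N, ∑ u ∈ U, 1 / ((n : ℝ) * W) * p u * h (ucl d (n * u)) ≤
        ∑ n ∈ N, ∑ u ∈ U, w n / ((n : ℝ) * W) * p u * h (ucl d (n * u)) := by
      refine sum_le_sum fun n hn => sum_le_sum fun u hu => ?_
      have hn0 : (0 : ℝ) < n := by exact_mod_cast (hI n (hNI hn)).1
      refine mul_le_mul_of_nonneg_right (mul_le_mul_of_nonneg_right ?_ (hp u hu)) (hh _)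
      exact div_le_div_of_nonneg_right (hw1 n hn) (by positivity)
    refine h1.trans ?_
    rw [hR]
    refine sum_le_sum_of_subset_of_nonneg hNI fun n hn _ => sum_nonneg fun u hu => ?_
    have hn0 : (0 : ℝ) < n := by exact_mod_cast (hI n hn).1
    exact mul_nonneg (mul_nonneg (div_nonneg (hw0 n hn) (by positivity)) (hp u hu)) (hh _)
  refine hRle.trans ?_
  obtain ⟨T, hT'⟩ : ∃ T : DirichletCharacter ℂ d → ℂ, T = fun χ =>
      FT (fun g => ((h g : ℝ) : ℂ)) χ * (∑ u ∈ U, ((p u : ℝ) : ℂ) * χ (u : ZMod d)) *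
        ((∑ n ∈ I, ((w n / n : ℝ) : ℂ) * χ (n : ZMod d)) / (W : ℂ)) := ⟨_, rfl⟩
  have hWc : (W : ℂ) ≠ 0 := by exact_mod_cast hW.ne'
  have hRT : (R : ℂ) = ∑ χ : DirichletCharacter ℂ d, T χ := by
    have h1 : ∀ n ∈ I, ∀ u ∈ U, (((w n / ((n : ℝ) * W) * p u * h (ucl d (n * u)) : ℝ)) : ℂ) =
        ∑ χ : DirichletCharacter ℂ d, FT (fun g => ((h g : ℝ) : ℂ)) χ *
          (((p u : ℝ) : ℂ) * χ (u : ZMod d)) *
            ((((w n / n : ℝ) : ℂ) * χ (n : ZMod d)) / (W : ℂ)) := by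
      intro n hn u hu
      have hcop : (n * u).Coprime d := Nat.Coprime.mul_left (hI n hn).2 (hU u hu)
      have h2 := FT_inv (fun g => ((h g : ℝ) : ℂ)) (ucl d (n * u))
      rw [Complex.ofReal_mul, h2, mul_sum]
      refine sum_congr rfl fun χ _ => ?_
      rw [ucl_val hcop, Nat.cast_mul, map_mul]
      push_cast
      rw [div_mul_eq_div_div]
      ring
    rw [hR, Complex.ofReal_sum]
    have h3 : ∀ n ∈ I, ((∑ u ∈ U, w n / ((n : ℝ) * W) * p u * h (ucl d (n * u)) : ℝ) : ℂ) =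
        ∑ χ : DirichletCharacter ℂ d, FT (fun g => ((h g : ℝ) : ℂ)) χ *
          (∑ u ∈ U, ((p u : ℝ) : ℂ) * χ (u : ZMod d)) *
            ((((w n / n : ℝ) : ℂ) * χ (n : ZMod d)) / (W : ℂ)) := by
      intro n hn
      rw [Complex.ofReal_sum, sum_congr rfl (h1 n hn), sum_comm]
      refine sum_congr rfl fun χ _ => ?_
      rw [mul_sum, sum_mul]
    rw [sum_congr rfl h3, sum_comm]
    refine sum_congr rfl fun χ _ => ?_
    rw [hT']
    simp only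
    rw [← mul_sum, sum_div]
  have hone : ∀ n : ℕ, n.Coprime d → (1 : DirichletCharacter ℂ d) (n : ZMod d) = 1 := fun n hn =>
    MulChar.one_apply ((ZMod.isUnit_iff_coprime n d).2 hn)
  have hT1 : T 1 = ((mn h * ((∑ n ∈ I, w n / n) / W) : ℝ) : ℂ) := by
    rw [hT']
    simp only
    rw [FT_one]
    have h1 : ∑ u ∈ U, ((p u : ℝ) : ℂ) * (1 : DirichletCharacter ℂ d) (u : ZMod d) = 1 := by
      have h2 : ∑ u ∈ U, ((p u : ℝ) : ℂ) * (1 : DirichletCharacter ℂ d) (u : ZMod d) =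
          ((∑ u ∈ U, p u : ℝ) : ℂ) := by
        rw [Complex.ofReal_sum]
        refine sum_congr rfl fun u hu => ?_
        rw [hone u (hU u hu), mul_one]
      rw [h2, hp1, Complex.ofReal_one]
    have h3 : ∑ n ∈ I, ((w n / n : ℝ) : ℂ) * (1 : DirichletCharacter ℂ d) (n : ZMod d) =
        ((∑ n ∈ I, w n / n : ℝ) : ℂ) := by
      rw [Complex.ofReal_sum]
      refine sum_congr rfl fun n hn => ?_
      rw [hone n (hI n hn).2, mul_one]
    rw [h1, h3, mul_one]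
    unfold mn
    push_cast
    ring
  have hmn : 0 ≤ mn h := by
    unfold mn
    exact div_nonneg (sum_nonneg fun g _ => hh g) (Nat.cast_nonneg _)
  have hre : R = (T 1).re + ∑ χ ∈ (univ : Finset (DirichletCharacter ℂ d)).erase 1, (T χ).re := by
    have h1 : R = (∑ χ : DirichletCharacter ℂ d, T χ).re := by
      rw [← hRT, Complex.ofReal_re]
    rw [h1, Complex.re_sum, ← add_sum_erase _ _ (mem_univ (1 : DirichletCharacter ℂ d))]
  have hb1 : (T 1).re ≤ 2 * mn h := by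
    rw [hT1, Complex.ofReal_re]
    have h1 : (∑ n ∈ I, w n / n) / W ≤ 2 := by
      rw [div_le_iff₀ hW]
      exact hT
    nlinarith
  have hpn : ∀ χ : DirichletCharacter ℂ d, ‖∑ u ∈ U, ((p u : ℝ) : ℂ) * χ (u : ZMod d)‖ ≤ 1 := by
    intro χ
    rw [← hp1]
    refine norm_sum_le_of_le _ fun u hu => ?_
    rw [norm_mul, Complex.norm_real, Real.norm_of_nonneg (hp u hu)]
    exact mul_le_of_le_one_right (hp u hu) (χ.norm_le_one _)
  have hb2 : ∑ χ ∈ (univ : Finset (DirichletCharacter ℂ d)).erase 1, (T χ).re ≤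
      s2 * Wn (fun g => ((h g : ℝ) : ℂ)) := by
    have h1 : ∀ χ ∈ (univ : Finset (DirichletCharacter ℂ d)).erase 1,
        (T χ).re ≤ s2 * ‖FT (fun g => ((h g : ℝ) : ℂ)) χ‖ := by
      intro χ hχ
      refine (Complex.re_le_norm _).trans ?_
      rw [hT']
      simp only
      rw [norm_mul, norm_mul, norm_div, Complex.norm_real, Real.norm_of_nonneg hW.le]
      have h2 : ‖∑ n ∈ I, ((w n / n : ℝ) : ℂ) * χ (n : ZMod d)‖ / W ≤ s2 := by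
        rw [div_le_iff₀ hW]
        exact hC χ (ne_of_mem_erase hχ)
      have h3 : ‖FT (fun g => ((h g : ℝ) : ℂ)) χ‖ * ‖∑ u ∈ U, ((p u : ℝ) : ℂ) * χ (u : ZMod d)‖ ≤
          ‖FT (fun g => ((h g : ℝ) : ℂ)) χ‖ := mul_le_of_le_one_right (norm_nonneg _) (hpn χ)
      have h4 := mul_le_mul h3 h2 (div_nonneg (norm_nonneg _) hW.le) (norm_nonneg _)
      rw [mul_comm s2]
      exact h4
    refine (sum_le_sum h1).trans ?_
    unfold Wn
    rw [mul_sum]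
    exact sum_le_sum_of_subset_of_nonneg (erase_subset _ _)
      (fun χ _ _ => mul_nonneg hs2 (norm_nonneg _))
  rw [hre]
  exact add_le_add hb1 hb2

end Pool.Agent.Lib.MP_42948a_nt.BM
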