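import Pool.Agent.Lib.MP_42948a_nt.BM.A4
import Pool.Agent.Lib.MP_42948a_nt.BM.N11
import Pool.Agent.Lib.MP_42948a_nt.BM.N12m

/-!
# The walk for one modulus (job N12)

`W = WW N > 0`, `Q, ω` from `prod_struct`. Write `a_i χ = ac N (ze m ^ (i.val * Om)) χ`, `M_i χ = mc U p (ze m ^ (i.val * Om)) χ`: `AA Q ω i χ = a_i χ/W * M_i χ` (`AA_factor`), `‖M_i χ‖ ≤ ∑ p = 1`, `‖a_i χ‖ ≤ W`
(triangle inequality, `‖ze m‖ = 1`: `ze_norm`; `WW N = ∑ 1/n`).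
* `rough`, `cop`, `le`: `a = n u` (`Rough.mul`, `Nat.Coprime.mul_left`, `hY`). `sum_one`: `∑ ω = ∑_n ∑_u 1/(n W) p u = 1`.
* `bessel`: `‖AA‖ ≤ ‖a_i χ‖/W`, `hbes` for `X` itself (`v = ze m ^ (i.val * Om)`, norm one). `off`: `‖AA‖ ≤ ‖M_i χ‖ ≤ s` (`hXoff` with the natural number `i.val`).
* `gap`: `(1 : ZMod m).val = 1` (`m ≥ 3`: `ZMod.val_one''` or `ZMod.val_one_eq_one_mod`), `AA 1 1 = 0` because `M_1 1 = ∑ p u ze m ^ Om u * 1 = 0` (`hpz`; `1 (u : ZMod d) = 1` for `u` coprime to `d`), and for `χ ∈ X`, `χ ≠ 1`: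
  `‖AA‖^2 ≤ ‖a_1 χ‖^2/W^2`; `∑_{χ ∈ X} ‖a_1 χ‖^2 ≤ (1 + τ) W^2` and `‖a_1 1‖ ≥ β W` (`hbias`: `a_1 1 = ∑ ze m ^ Om n/n`, `1 (n) = 1`), so `∑ ≤ 1 + τ - β^2 ≤ 1 - β^2/2` (`τ ≤ β^2/100`).
* `small`: `hbes` for `{1, χ}` and `v = 1` (`i = 0`: `ze m ^ (0 * Om) = 1`): `‖a_0 1‖ = W`, so `‖a_0 χ‖^2 ≤ τ W^2`, `‖AA‖ ≤ √τ`.
* `eighth`: `χ ∉ X`: `‖AA‖^8 ≤ ‖a_i χ‖^8/W^8 * s^8`, sum over all `χ`: `h8`.
* `major`: the real form of `prod_struct` with `h a` replaced by `h (ucl d a)`, and `major_fixed`.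
-/

namespace Pool.Agent.Lib.MP_42948a_nt.BM

open Finset Pool.Agent.Lib.MP_42948a_nt.OA Pool.Agent.Lib.MP_42948a_nt.OM

private theorem N12_mc_le {m d : ℕ} (U : Finset ℕ) (p : ℕ → ℝ) (hp : ∀ u ∈ U, 0 ≤ p u) (hp1 : ∑ u ∈ U, p u = 1)
    (i : ℕ) (χ : DirichletCharacter ℂ d) : ‖mc U p (fun u => ze m ^ (i * Om u)) χ‖ ≤ 1 := by
  unfold mc
  refine (norm_sum_le _ _).trans ?_
  rw [← hp1]
  refine sum_le_sum fun u hu => ?_
  rw [norm_mul, norm_mul, norm_pow, ze_norm, one_pow, mul_one, Complex.norm_real, Real.norm_of_nonneg (hp u hu)]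
  exact mul_le_of_le_one_right (hp u hu) (χ.norm_le_one _)

private theorem N12_pow_le {m : ℕ} (k : ℕ) : ‖ze m ^ k‖ ≤ 1 := by
  rw [norm_pow, ze_norm, one_pow]

private theorem N12_one {d n : ℕ} (h : n.Coprime d) : (1 : DirichletCharacter ℂ d) (n : ZMod d) = 1 := by
  rw [← ucl_val h, MulChar.one_apply_coe]

theorem wlk_fixed (m d : ℕ) (hm : 3 ≤ m) [NeZero m] [NeZero d] (z Y : ℕ) (β τ s s2 : ℝ) (N I U : Finset ℕ)
    (p w : ℕ → ℝ) (X : Finset (DirichletCharacter ℂ d)) (hβ : 0 < β) (hτ : τ ≤ β ^ 2 / 100) (hs : 0 < s)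
    (hs2 : 0 ≤ s2) (hNI : N ⊆ I) (hI : ∀ n ∈ I, 0 < n ∧ n.Coprime d) (hNr : ∀ n ∈ N, Rough z n)
    (hUr : ∀ u ∈ U, Rough z u) (hUc : ∀ u ∈ U, u.Coprime d) (hY : ∀ n ∈ N, ∀ u ∈ U, n * u ≤ Y)
    (hp : ∀ u ∈ U, 0 ≤ p u) (hp1 : ∑ u ∈ U, p u = 1) (hpz : ∑ u ∈ U, (p u : ℂ) * ze m ^ Om u = 0)
    (hX1 : (1 : DirichletCharacter ℂ d) ∈ X)
    (hXoff : ∀ χ : DirichletCharacter ℂ d, χ ∉ X → ∀ i : ℕ, ‖mc U p (fun u => ze m ^ (i * Om u)) χ‖ ≤ s)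
    (hW : 0 < WW N)
    (hbes : ∀ v : ℕ → ℂ, (∀ n, ‖v n‖ ≤ 1) → ∀ X' : Finset (DirichletCharacter ℂ d), X'.card ≤ X.card + 2 →
      ∑ χ ∈ X', ‖ac N v χ‖ ^ 2 ≤ (1 + τ) * WW N ^ 2)
    (hbias : β * WW N ≤ ‖∑ n ∈ N, ze m ^ Om n / (n : ℂ)‖)
    (h8 : ∀ v : ℕ → ℂ, (∀ n, ‖v n‖ ≤ 1) → (∑ χ : DirichletCharacter ℂ d, ‖ac N v χ‖ ^ 8) * s ^ 8 ≤ s ^ 6 * WW N ^ 8)
    (hw0 : ∀ n ∈ I, 0 ≤ w n) (hw1 : ∀ n ∈ N, 1 ≤ w n) (hT : ∑ n ∈ I, w n / n ≤ 2 * WW N)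
    (hC : ∀ χ : DirichletCharacter ℂ d, χ ≠ 1 → ‖∑ n ∈ I, ((w n / n : ℝ) : ℂ) * χ (n : ZMod d)‖ ≤ s2 * WW N) :
    Nonempty (Wlk m d z Y β τ s s2) := by
  classical
  obtain ⟨Q, ω, hQ, hω, hQC, hQR⟩ := prod_struct N U p (WW N) hW hp
  have hNp : ∀ n ∈ N, 0 < n := fun n hn => (hNr n hn).1
  have hUp : ∀ u ∈ U, 0 < u := fun u hu => (hUr u hu).1
  have hNc : ∀ n ∈ N, n.Coprime d := fun n hn => (hI n (hNI hn)).2
  have hW2 : 0 < WW N ^ 2 := by positivity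
  obtain ⟨a, ha⟩ : ∃ a : ZMod m → DirichletCharacter ℂ d → ℂ,
      ∀ i χ, a i χ = ac N (fun n => ze m ^ (i.val * Om n)) χ := ⟨_, fun _ _ => rfl⟩
  obtain ⟨M, hM⟩ : ∃ M : ZMod m → DirichletCharacter ℂ d → ℂ,
      ∀ i χ, M i χ = mc U p (fun u => ze m ^ (i.val * Om u)) χ := ⟨_, fun _ _ => rfl⟩
  have hAA : ∀ i χ, AA Q ω i χ = a i χ / (WW N : ℂ) * M i χ := by
    intro i χ
    rw [ha, hM]
    exact AA_factor N U Q p ω (WW N) hNp hUp hQC i χ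
  have hnorm : ∀ i χ, ‖AA Q ω i χ‖ = ‖a i χ‖ / WW N * ‖M i χ‖ := by
    intro i χ
    rw [hAA, norm_mul, norm_div, Complex.norm_real, Real.norm_of_nonneg hW.le]
  have hM1 : ∀ i χ, ‖M i χ‖ ≤ 1 := by
    intro i χ
    rw [hM]
    exact N12_mc_le U p hp hp1 i.val χ
  have ha1 : ∀ i χ, ‖a i χ‖ ≤ WW N := by
    intro i χ
    rw [ha]
    unfold ac WW
    refine (norm_sum_le _ _).trans (sum_le_sum fun n hn => ?_)
    rw [norm_mul, norm_div, norm_pow, ze_norm, one_pow, Complex.norm_natCast]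
    exact mul_le_of_le_one_right (by positivity) (χ.norm_le_one _)
  have hb : ∀ i : ZMod m, ∀ X' : Finset (DirichletCharacter ℂ d), X'.card ≤ X.card + 2 →
      ∑ χ ∈ X', ‖a i χ‖ ^ 2 ≤ (1 + τ) * WW N ^ 2 := by
    intro i X' hX'
    have h := hbes (fun n => ze m ^ (i.val * Om n)) (fun n => N12_pow_le _) X' hX'
    refine le_trans (le_of_eq (sum_congr rfl fun χ _ => ?_)) h
    rw [ha]
  have hle : ∀ i χ, ‖AA Q ω i χ‖ ^ 2 ≤ ‖a i χ‖ ^ 2 / WW N ^ 2 := by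
    intro i χ
    rw [← div_pow]
    refine pow_le_pow_left₀ (norm_nonneg _) ?_ 2
    rw [hnorm]
    exact mul_le_of_le_one_right (by positivity) (hM1 i χ)
  refine ⟨{ Q := Q, ω := ω, X := X, rough := ?_, cop := ?_, le := ?_, nonneg := hω, sum_one := ?_, one_mem := hX1,
            bessel := ?_, gap := ?_, off := ?_, small := ?_, eighth := ?_, major := ?_ }⟩
  · intro x hx
    obtain ⟨n, hn, u, hu, rfl⟩ := hQ x hx
    exact (hNr n hn).mul (hUr u hu)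
  · intro x hx
    obtain ⟨n, hn, u, hu, rfl⟩ := hQ x hx
    exact Nat.Coprime.mul_left (hNc n hn) (hUc u hu)
  · intro x hx
    obtain ⟨n, hn, u, hu, rfl⟩ := hQ x hx
    exact hY n hn u hu
  · have h := hQR (fun _ => 1)
    simp only [mul_one] at h
    rw [h]
    have h1 : ∀ n ∈ N, ∑ u ∈ U, 1 / ((n : ℝ) * WW N) * p u = 1 / (n : ℝ) / WW N := by
      intro n hn
      rw [← mul_sum, hp1, mul_one, div_div]
    rw [sum_congr rfl h1, ← sum_div]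
    exact div_self hW.ne'
  · intro i
    calc ∑ χ ∈ X, ‖AA Q ω i χ‖ ^ 2 ≤ ∑ χ ∈ X, ‖a i χ‖ ^ 2 / WW N ^ 2 := sum_le_sum fun χ _ => hle i χ
      _ = (∑ χ ∈ X, ‖a i χ‖ ^ 2) / WW N ^ 2 := (sum_div _ _ _).symm
      _ ≤ 1 + τ := by
          rw [div_le_iff₀ hW2]
          exact hb i X (by omega)
  · have hval : (1 : ZMod m).val = 1 := by
      have : Fact (1 < m) := ⟨by omega⟩
      exact ZMod.val_one m
    have hM0 : M 1 1 = 0 := by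
      rw [hM, hval]
      unfold mc
      rw [← hpz]
      refine sum_congr rfl fun u hu => ?_
      rw [N12_one (hUc u hu), mul_one]
      simp only [one_mul]
    have hA0 : AA Q ω (1 : ZMod m) (1 : DirichletCharacter ℂ d) = 0 := by rw [hAA, hM0, mul_zero]
    have hb1 : β ^ 2 * WW N ^ 2 ≤ ‖a 1 (1 : DirichletCharacter ℂ d)‖ ^ 2 := by
      rw [← mul_pow]
      refine pow_le_pow_left₀ (by positivity) ?_ 2
      refine hbias.trans (le_of_eq ?_)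
      rw [ha, hval]
      unfold ac
      refine congrArg norm (sum_congr rfl fun n hn => ?_)
      rw [N12_one (hNc n hn), mul_one]
      simp only [one_mul]
    have h2 : ∑ χ ∈ X.erase 1, ‖a 1 χ‖ ^ 2 ≤ (1 + τ - β ^ 2) * WW N ^ 2 := by
      have h3 := hb 1 X (by omega)
      rw [← add_sum_erase X _ hX1] at h3
      nlinarith [h3, hb1]
    rw [← add_sum_erase X _ hX1, hA0]
    have h4 : ∑ χ ∈ X.erase 1, ‖AA Q ω (1 : ZMod m) χ‖ ^ 2 ≤ 1 + τ - β ^ 2 := by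
      calc ∑ χ ∈ X.erase 1, ‖AA Q ω (1 : ZMod m) χ‖ ^ 2 ≤ ∑ χ ∈ X.erase 1, ‖a 1 χ‖ ^ 2 / WW N ^ 2 :=
            sum_le_sum fun χ _ => hle 1 χ
        _ = (∑ χ ∈ X.erase 1, ‖a 1 χ‖ ^ 2) / WW N ^ 2 := (sum_div _ _ _).symm
        _ ≤ 1 + τ - β ^ 2 := by
            rw [div_le_iff₀ hW2]
            exact h2
    rw [norm_zero]
    have : 0 < β ^ 2 := by positivity
    linarith
  · intro i χ hχ
    rw [hnorm]
    have h1 : ‖M i χ‖ ≤ s := by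
      rw [hM]
      exact hXoff χ hχ i.val
    have h2 : ‖a i χ‖ / WW N ≤ 1 := by
      rw [div_le_one hW]
      exact ha1 i χ
    calc ‖a i χ‖ / WW N * ‖M i χ‖ ≤ 1 * s := mul_le_mul h2 h1 (norm_nonneg _) zero_le_one
      _ = s := one_mul s
  · intro χ hχ
    have h1 : ‖a 0 (1 : DirichletCharacter ℂ d)‖ = WW N := by
      rw [ha, ZMod.val_zero]
      unfold ac WW
      have h2 : ∑ n ∈ N, ze m ^ (0 * Om n) / (n : ℂ) * (1 : DirichletCharacter ℂ d) (n : ZMod d) =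
          ((∑ n ∈ N, (1 : ℝ) / n : ℝ) : ℂ) := by
        rw [Complex.ofReal_sum]
        refine sum_congr rfl fun n hn => ?_
        rw [N12_one (hNc n hn), mul_one, zero_mul, pow_zero]
        push_cast
        rfl
      rw [h2, Complex.norm_real]
      exact Real.norm_of_nonneg hW.le
    have h3 := hb 0 {1, χ} ((card_le_two).trans (by omega))
    rw [sum_pair (Ne.symm hχ), h1] at h3
    have h4 : ‖a 0 χ‖ ^ 2 ≤ τ * WW N ^ 2 := by linarith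
    refine Real.le_sqrt_of_sq_le ?_
    refine (hle 0 χ).trans ?_
    rw [div_le_iff₀ hW2]
    exact h4
  · intro i
    have hW8 : 0 < WW N ^ 8 := by positivity
    have h1 : ∀ χ ∈ offX X, ‖AA Q ω i χ‖ ^ 8 ≤ ‖a i χ‖ ^ 8 * s ^ 8 / WW N ^ 8 := by
      intro χ hχ
      have h2 : ‖M i χ‖ ≤ s := by
        rw [hM]
        exact hXoff χ (mem_offX.1 hχ) i.val
      rw [hnorm]
      calc (‖a i χ‖ / WW N * ‖M i χ‖) ^ 8 ≤ (‖a i χ‖ / WW N * s) ^ 8 :=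
            pow_le_pow_left₀ (by positivity) (mul_le_mul_of_nonneg_left h2 (by positivity)) 8
        _ = ‖a i χ‖ ^ 8 * s ^ 8 / WW N ^ 8 := by
            rw [mul_pow, div_pow]
            ring
    refine (sum_le_sum h1).trans ?_
    rw [← sum_div, ← sum_mul, div_le_iff₀ hW8]
    have h3 := h8 (fun n => ze m ^ (i.val * Om n)) (fun n => N12_pow_le _)
    refine le_trans ?_ h3
    refine mul_le_mul_of_nonneg_right ?_ (by positivity)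
    have h4 : ∀ χ : DirichletCharacter ℂ d, ‖a i χ‖ ^ 8 = ‖ac N (fun n => ze m ^ (i.val * Om n)) χ‖ ^ 8 := by
      intro χ
      rw [ha]
    rw [sum_congr rfl fun χ _ => h4 χ]
    exact sum_le_sum_of_subset_of_nonneg (subset_univ _) fun _ _ _ => by positivity
  · intro h hh
    have h1 := hQR (fun x => h (ucl d x))
    rw [h1]
    exact major_fixed d N I U p w (WW N) s2 hW hs2 hNI hI hUc hp hp1 hw0 hw1 hT hC h hh

end Pool.Agent.Lib.MP_42948a_nt.BM
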