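import Pool.Agent.Lib.MP_42948a_nt.BM.N4
import Pool.Agent.Lib.MP_42948a_nt.OM.C4

/-!
# Character sums with the majorant, Burgess' bound (job N5)

The proof of `majorant_char` in `OM/C4.lean` (copy the private lemma `C4_inner`) with `char_multiples'`: only `T` with `e_T = ∏ T ≤ z^K`, `K = 4 b0 + 6`, contribute, and `y / z^K ≤ y / e_T`
(`Nat.div_le_div_left`), `e_T ≥ 1`. `log y' ≥ 0`.
-/

namespace Pool.Agent.Lib.MP_42948a_nt.BM

open Finset Pool.Agent.Lib.MP_42948a_nt.OA Pool.Agent.Lib.MP_42948a_nt.OM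

private theorem N5_inner (d : ℕ) [NeZero d] (y y' e : ℕ) (χ : DirichletCharacter ℂ d) :
    ∑ n ∈ II d y y', (if e ∣ n then χ (n : ZMod d) / (n : ℂ) else 0) =
      ∑ n ∈ (Ioc y y').filter (fun n => e ∣ n), χ (n : ZMod d) / (n : ℂ) := by
  unfold II
  rw [Finset.sum_filter, Finset.sum_filter]
  refine Finset.sum_congr rfl fun n _ => ?_
  by_cases hc : n.Coprime d
  · rw [if_pos hc]
  · rw [if_neg hc]
    have h1 : χ (n : ZMod d) = 0 := by
      apply MulChar.map_nonunit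
      rwa [ZMod.isUnit_iff_coprime]
    rw [h1, zero_div]
    split_ifs <;> rfl

theorem majorant_char' (κ κ' : ℝ) (hκ : 0 < κ) (d : ℕ) [NeZero d] (hB : BurP κ κ' d) (z b0 y y' : ℕ) (hz : 1 ≤ z)
    (hy : (d : ℝ) ^ (1 / 4 + κ) ≤ ((y / z ^ (4 * b0 + 6) : ℕ) : ℝ)) (hyy : y ≤ y')
    (χ : DirichletCharacter ℂ d) (hχ : χ ≠ 1) :
    ‖∑ n ∈ II d y y', ((wp z b0 n / n : ℝ) : ℂ) * χ (n : ZMod d)‖ ≤
      (z : ℝ) ^ (4 * b0 + 6) * (2 * (2 + Real.log y') * (d : ℝ) ^ (-κ')) := by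
  have hlog : 0 ≤ Real.log (y' : ℝ) := Real.log_natCast_nonneg y'
  have hD : 0 ≤ (d : ℝ) ^ (-κ') := Real.rpow_nonneg (Nat.cast_nonneg d) _
  have hR : 0 ≤ 2 * (2 + Real.log y') * (d : ℝ) ^ (-κ') := by positivity
  have h2 : ∑ n ∈ II d y y', ((wp z b0 n / n : ℝ) : ℂ) * χ (n : ZMod d) =
      ∑ T ∈ (PP z).powerset, (lp z b0 T : ℂ) *
        ∑ n ∈ (Ioc y y').filter (fun n => (∏ p ∈ T, p) ∣ n), χ (n : ZMod d) / (n : ℂ) := by
    have h3 : ∀ n ∈ II d y y', ((wp z b0 n / n : ℝ) : ℂ) * χ (n : ZMod d) =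
        ∑ T ∈ (PP z).powerset, (lp z b0 T : ℂ) *
          (if (∏ p ∈ T, p) ∣ n then χ (n : ZMod d) / (n : ℂ) else 0) := by
      intro n _
      rw [wp_expand, Complex.ofReal_div, Complex.ofReal_sum, Finset.sum_div, Finset.sum_mul]
      refine Finset.sum_congr rfl fun T _ => ?_
      by_cases hT : (∏ p ∈ T, p) ∣ n
      · rw [if_pos hT, if_pos hT, mul_one, Complex.ofReal_natCast]
        ring
      · rw [if_neg hT, if_neg hT, mul_zero, mul_zero, Complex.ofReal_zero, zero_div, zero_mul]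
    rw [Finset.sum_congr rfl h3, Finset.sum_comm]
    refine Finset.sum_congr rfl fun T _ => ?_
    rw [← Finset.mul_sum, N5_inner]
  rw [h2]
  have h6 : ∀ T ∈ (PP z).powerset, ‖(lp z b0 T : ℂ) *
        ∑ n ∈ (Ioc y y').filter (fun n => (∏ p ∈ T, p) ∣ n), χ (n : ZMod d) / (n : ℂ)‖ ≤
      if ∏ p ∈ T, p ≤ z ^ (4 * b0 + 6) then 2 * (2 + Real.log y') * (d : ℝ) ^ (-κ') else 0 := by
    intro T hTm
    rw [mem_powerset] at hTm
    by_cases h0 : lp z b0 T = 0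
    · rw [h0, Complex.ofReal_zero, zero_mul, norm_zero]
      split_ifs
      · exact hR
      · exact le_rfl
    · have h7 := lp_level z b0 hz T hTm h0
      have he1 : 1 ≤ ∏ p ∈ T, p :=
        Nat.succ_le_of_lt (Finset.prod_pos fun p hp => (mem_filter.1 (hTm hp)).2.pos)
      rw [if_pos h7, norm_mul, Complex.norm_real, Real.norm_eq_abs]
      have hyT : (d : ℝ) ^ (1 / 4 + κ) ≤ ((y / (∏ p ∈ T, p) : ℕ) : ℝ) := by
        refine hy.trans ?_
        exact_mod_cast Nat.div_le_div_left h7 he1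
      have h8 := char_multiples' κ κ' hκ d hB χ hχ (∏ p ∈ T, p) y y' he1 hyT hyy
      calc |lp z b0 T| * _ ≤ 1 * (2 * (2 + Real.log y') * (d : ℝ) ^ (-κ')) :=
            mul_le_mul (lp_abs_le z b0 T) h8 (norm_nonneg _) zero_le_one
        _ = 2 * (2 + Real.log y') * (d : ℝ) ^ (-κ') := one_mul _
  refine (norm_sum_le _ _).trans ((Finset.sum_le_sum h6).trans ?_)
  rw [← Finset.sum_filter, Finset.sum_const, nsmul_eq_mul]
  refine mul_le_mul_of_nonneg_right ?_ hR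
  have h8 := count_sets z (z ^ (4 * b0 + 6))
  exact_mod_cast h8

end Pool.Agent.Lib.MP_42948a_nt.BM
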