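import Pool.Agent.Lib.MP_42948a_nt.BM.N3
import Pool.Agent.Lib.MP_42948a_nt.BM.N5
import Pool.Agent.Lib.MP_42948a_nt.OM.D

/-!
# Bessel's inequality for the rough numbers of length `d ^ (1/4 + ..)` (job N6)

`large_sieve` (`OM/D.lean`) with `I = II d y y'`, `N = NN z d y y' ⊆ I`, `w = wp z b0` (`wp_nonneg`, `wp_rough` in `OM/C1.lean`), `E = z^K (2 (2 + log y') d^(-κ'))` (`majorant_char'`), and `majorant_mass`. Members of
`II d y y'` are `> y ≥ 0` and coprime to `d`. (`WW ≥ 0`.)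
-/

namespace Pool.Agent.Lib.MP_42948a_nt.BM

open Finset Pool.Agent.Lib.MP_42948a_nt.OA Pool.Agent.Lib.MP_42948a_nt.OM

private theorem N6_sub (z d y y' : ℕ) : NN z d y y' ⊆ II d y y' := by
  classical
  intro n hn
  rw [NN, mem_filter] at hn
  obtain ⟨h1, h2⟩ := hn
  unfold RR at h1
  rw [II, mem_filter]
  exact ⟨(mem_filter.mp h1).1, h2⟩

private theorem N6_II (d y y' : ℕ) : ∀ n ∈ II d y y', 0 < n ∧ n.Coprime d := by
  intro n hn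
  rw [II, mem_filter, mem_Ioc] at hn
  exact ⟨by omega, hn.2⟩

private theorem N6_one (z b0 d y y' n : ℕ) (hn : n ∈ NN z d y y') : 1 ≤ wp z b0 n := by
  classical
  rw [NN, mem_filter] at hn
  obtain ⟨h1, -⟩ := hn
  unfold RR at h1
  exact wp_rough z b0 n (mem_filter.mp h1).2

theorem rough_bessel (κ κ' : ℝ) (hκ : 0 < κ) (d : ℕ) [NeZero d] (hB : BurP κ κ' d) (z b0 y y' : ℕ) (hz : 2 ≤ z)
    (hy0 : 2 * z ^ (4 * b0 + 6) ≤ y) (hy : (d : ℝ) ^ (1 / 4 + κ) ≤ ((y / z ^ (4 * b0 + 6) : ℕ) : ℝ)) (hyy : y ≤ y')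
    (ν : ℝ) (hν0 : 0 ≤ ν) (hν1 : ν ≤ 1 / 2)
    (hν : ∀ g : ℕ → ℝ, (∀ p ∈ PP z, 0 ≤ g p ∧ g p ≤ 1 / (p : ℝ)) → (1 - ν) * BP z b0 g ≤ FF z b0 g)
    (X : Finset (DirichletCharacter ℂ d)) (v : ℕ → ℂ) (hv : ∀ n, ‖v n‖ ≤ 1) :
    ∑ χ ∈ X, ‖ac (NN z d y y') v χ‖ ^ 2 ≤
      WW (NN z d y y') * ((1 + 2 * ν) * WW (NN z d y y') + 3 * ((z : ℝ) ^ (4 * b0 + 6) * (4 * TD d / y)) +
        X.card * ((z : ℝ) ^ (4 * b0 + 6) * (2 * (2 + Real.log y') * (d : ℝ) ^ (-κ')))) := by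
  have hE0 : 0 ≤ (z : ℝ) ^ (4 * b0 + 6) * (2 * (2 + Real.log y') * (d : ℝ) ^ (-κ')) := by
    have h1 : 0 ≤ Real.log (y' : ℝ) := Real.log_natCast_nonneg y'
    have h2 : 0 ≤ (d : ℝ) ^ (-κ') := Real.rpow_nonneg (Nat.cast_nonneg d) _
    positivity
  have hLS := large_sieve d (II d y y') (NN z d y y') (N6_sub z d y y') (N6_II d y y')
    (wp z b0) (fun n _ => wp_nonneg z b0 n) (fun n hn => N6_one z b0 d y y' n hn)
    ((z : ℝ) ^ (4 * b0 + 6) * (2 * (2 + Real.log y') * (d : ℝ) ^ (-κ'))) hE0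
    (fun ψ hψ => majorant_char' κ κ' hκ d hB z b0 y y' (by omega) hy hyy ψ hψ) X v (fun n _ => hv n)
  have hW0 : 0 ≤ WW (NN z d y y') := by
    rw [WW]
    exact Finset.sum_nonneg (fun n _ => by positivity)
  refine hLS.trans (mul_le_mul_of_nonneg_left ?_ hW0)
  have hM := majorant_mass d z b0 y y' hz hy0 hyy ν hν0 hν1 hν
  exact add_le_add hM (le_refl _)

end Pool.Agent.Lib.MP_42948a_nt.BM
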