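import Pool.Agent.Lib.MP_42948a_nt.BM.Defs

/-!
# Choice of the sieve parameter (job N7)

`param'`: for `b ≥ B(A + 1)`, `b ≥ 1`: `ν b ≤ b^(-(A+1))`; `16 b + 24 ≤ 40 b`, so the right side of the last inequality is `≥ C (η/40)^A b^(-A)`, which is `≥ b^(-(A+1))` as soon as `b ≥ (40/η)^A/C`.
`ν b ≤ 1/2` for `b ≥ 2`. `tau0_eq`: unfold the definitions: `gam = β^2/(24 * 2^m)`, `rh1 = β^4/200`, so `kp3 = c β^14`, `c3 = c' β^(14 m + 4)`, `tau0 = c'' β^(28 m + 8)`, with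
`c'' = (((1/(24 * 2^m))^3 * (1/400)^2/2)^m * (1/800)/4/(2 m)^m)^2 > 0` (`m ≥ 1`).
-/

namespace Pool.Agent.Lib.MP_42948a_nt.BM

open Finset Pool.Agent.Lib.MP_42948a_nt.OA Pool.Agent.Lib.MP_42948a_nt.OM

theorem param' (C η : ℝ) (hC : 0 < C) (hη : 0 < η) (A m : ℕ) (ν : ℕ → ℝ)
    (hν : ∀ A : ℕ, ∃ B : ℕ, ∀ b : ℕ, B ≤ b → ν b * (b : ℝ) ^ A ≤ 1) :
    ∃ b0 : ℕ, 1 ≤ b0 ∧ m ≤ b0 ∧ ν b0 ≤ 1 / 2 ∧ ν b0 ≤ C * (η / (16 * b0 + 24)) ^ A := by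
  obtain ⟨B, hB⟩ := hν (A + 1)
  obtain ⟨K, hK⟩ := exists_nat_ge (40 ^ A / (C * η ^ A))
  obtain ⟨b, hb⟩ : ∃ b : ℕ, b = B + K + m + 2 := ⟨_, rfl⟩
  have hb2 : 2 ≤ b := by omega
  have hbr : (2 : ℝ) ≤ b := by exact_mod_cast hb2
  have hb0 : (0 : ℝ) < b := by linarith
  have hbK : (K : ℝ) ≤ b := by
    have : K ≤ b := by omega
    exact_mod_cast this
  have h1 := hB b (by omega)
  have h2 : ν b ≤ 1 / (b : ℝ) ^ (A + 1) := by
    rw [le_div_iff₀ (by positivity)]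
    exact h1
  refine ⟨b, by omega, by omega, ?_, ?_⟩
  · refine h2.trans ?_
    apply one_div_le_one_div_of_le (by norm_num)
    calc (2 : ℝ) ≤ b := hbr
      _ = (b : ℝ) ^ 1 := (pow_one _).symm
      _ ≤ (b : ℝ) ^ (A + 1) := pow_le_pow_right₀ (by linarith) (by omega)
  · refine h2.trans ?_
    have h3 : (η / (40 * b)) ^ A ≤ (η / (16 * b + 24)) ^ A := by
      apply pow_le_pow_left₀ (by positivity)
      apply div_le_div_of_nonneg_left hη.le (by positivity)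
      linarith
    refine le_trans ?_ (mul_le_mul_of_nonneg_left h3 hC.le)
    rw [div_pow, mul_pow, ← mul_div_assoc, div_le_div_iff₀ (by positivity) (by positivity), one_mul]
    have h4 : (40 : ℝ) ^ A ≤ b * (C * η ^ A) := by
      have h5 := hK.trans hbK
      rwa [div_le_iff₀ (by positivity)] at h5
    calc (40 : ℝ) ^ A * (b : ℝ) ^ A ≤ (b * (C * η ^ A)) * (b : ℝ) ^ A :=
          mul_le_mul_of_nonneg_right h4 (by positivity)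
      _ = C * η ^ A * (b : ℝ) ^ (A + 1) := by ring

theorem tau0_eq (m : ℕ) (hm : 1 ≤ m) : ∃ C : ℝ, 0 < C ∧ ∀ β : ℝ, tau0 m β = C * β ^ (28 * m + 8) := by
  have hm0 : (0 : ℝ) < m := by
    have : 0 < m := by omega
    exact_mod_cast this
  refine ⟨(((1 / (24 * 2 ^ m)) ^ 3 * (1 / 400) ^ 2 / 2) ^ m * (1 / 800) / 4 / (2 * (m : ℝ)) ^ m) ^ 2,
    by positivity, ?_⟩
  intro β
  have h1 : kp3 m β = β ^ 14 * ((1 / (24 * 2 ^ m)) ^ 3 * (1 / 400) ^ 2) := by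
    unfold kp3 gam rh1
    field_simp
    ring
  have h2 : c3 m β = β ^ (14 * m + 4) *
      (((1 / (24 * 2 ^ m)) ^ 3 * (1 / 400) ^ 2 / 2) ^ m * (1 / 800) / 4) := by
    unfold c3 rh3 rh1
    have h3 : kp3 m β / 2 = β ^ 14 * ((1 / (24 * 2 ^ m)) ^ 3 * (1 / 400) ^ 2 / 2) := by
      rw [h1]
      ring
    rw [h3, mul_pow, ← pow_mul, pow_add]
    ring
  unfold tau0
  rw [h2, mul_div_assoc, mul_pow, ← pow_mul, mul_comm]
  congr 2
  ring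

end Pool.Agent.Lib.MP_42948a_nt.BM
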