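import Pool.Agent.Lib.MP_42948a_nt.BM.Defs
import Pool.Agent.Lib.MP_42948a_nt.OM.F4

/-!
# The small rough factor (job N8)

The proof of `small_rough` in `OM/F4.lean`; only the last item is more general (it was stated for `ze m ^ Om u` and `1`): for `χ ∉ X` and `h u = ze m ^ (i * Om u) * χ u` (multiplicative, `h 1 = 1`) the mean over
the primes `q ∈ Q` is `ze m ^ i * (mean of χ)`, of norm `≤ τ = d^(-(κ/(2K))) ≤ 1`, and `‖(1/m) ∑_{k=1}^m x^k‖ ≤ τ` for `‖x‖ ≤ τ ≤ 1`.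
-/

namespace Pool.Agent.Lib.MP_42948a_nt.BM

open Finset Pool.Agent.Lib.MP_42948a_nt.OA Pool.Agent.Lib.MP_42948a_nt.OM

private theorem N8_mean (m : ℕ) (hm : 1 ≤ m) (x : ℂ) (τ : ℝ) (hx : ‖x‖ ≤ τ) (hτ : τ ≤ 1) :
    ‖(1 / (m : ℂ)) * ∑ k ∈ Icc 1 m, x ^ k‖ ≤ τ := by
  have hm' : (0 : ℝ) < m := by exact_mod_cast hm
  rw [norm_mul, norm_div, norm_one, Complex.norm_natCast]
  have h1 : ‖∑ k ∈ Icc 1 m, x ^ k‖ ≤ m * τ := by
    refine (norm_sum_le _ _).trans ?_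
    have h2 : ∀ k ∈ Icc 1 m, ‖x ^ k‖ ≤ τ := by
      intro k hk
      rw [mem_Icc] at hk
      rw [norm_pow]
      calc ‖x‖ ^ k ≤ ‖x‖ ^ 1 := pow_le_pow_of_le_one (norm_nonneg _) (hx.trans hτ) hk.1
        _ ≤ τ := by rw [pow_one]; exact hx
    refine (Finset.sum_le_sum h2).trans ?_
    rw [Finset.sum_const, Nat.card_Icc, nsmul_eq_mul]
    simp
  calc 1 / (m : ℝ) * ‖∑ k ∈ Icc 1 m, x ^ k‖ ≤ 1 / (m : ℝ) * (m * τ) :=
        mul_le_mul_of_nonneg_left h1 (by positivity)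
    _ = τ := by field_simp

theorem small_rough' (m : ℕ) (hm : 2 ≤ m) (η : ℝ) (hη : 0 < η) (K : ℕ) (hK1 : 1 ≤ K) (hK : (m : ℝ) ≤ η * K)
    (κ : ℝ) (hκ : 0 < κ) (hκ1 : κ < 1) :
    ∃ d0 : ℕ, 2 ≤ d0 ∧ ∀ d : ℕ, d0 ≤ d → ∀ z : ℕ, (z : ℝ) ≤ (d : ℝ) ^ (1 / (2 * (K : ℝ))) →
      ∃ (U : Finset ℕ) (p : ℕ → ℝ) (X : Finset (DirichletCharacter ℂ d)),
        (∀ u ∈ U, Rough z u) ∧ (∀ u ∈ U, u.Coprime d) ∧ (∀ u ∈ U, (u : ℝ) ≤ (d : ℝ) ^ η) ∧
        (∀ u ∈ U, 0 ≤ p u) ∧ ∑ u ∈ U, p u = 1 ∧ ∑ u ∈ U, (p u : ℂ) * ze m ^ Om u = 0 ∧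
        (1 : DirichletCharacter ℂ d) ∈ X ∧ (X.card : ℝ) ≤ 2 * (d : ℝ) ^ (2 * κ) ∧
        ∀ χ : DirichletCharacter ℂ d, χ ∉ X → ∀ i : ℕ,
          ‖mc U p (fun u => ze m ^ (i * Om u)) χ‖ ≤ (d : ℝ) ^ (-(κ / (2 * K))) := by
  obtain ⟨d0, hd0, H⟩ := exceptional K hK1 κ hκ hκ1
  refine ⟨d0, hd0, fun d hd z hz => ?_⟩
  obtain ⟨hQne, X, hX1, hXc, hX⟩ := H d hd z hz
  have hd2 : (2 : ℝ) ≤ d := by exact_mod_cast hd0.trans hd
  have hK0 : (0 : ℝ) < K := by exact_mod_cast hK1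
  have hd1 : (1 : ℝ) ≤ d := by linarith
  have hdpos : (0 : ℝ) < d := by linarith
  set Y : ℕ := ⌊(d : ℝ) ^ (1 / (K : ℝ))⌋₊ with hYdef
  set Q : Finset ℕ := primesOff d z Y with hQdef
  have hQ : ∀ q ∈ Q, (1 ≤ q ∧ q ≤ Y) ∧ q.Prime ∧ z < q ∧ ¬ q ∣ d := by
    intro q hq
    rw [hQdef] at hq
    unfold primesOff at hq
    rw [mem_filter, mem_Icc] at hq
    exact hq
  have hc0 : (0 : ℝ) < (Q.card : ℝ) := by exact_mod_cast hQne.card_pos
  have hc0' : ((Q.card : ℕ) : ℂ) ≠ 0 := by exact_mod_cast hc0.ne'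
  have hm0 : (0 : ℝ) < m := by
    have : (2 : ℝ) ≤ m := by exact_mod_cast hm
    linarith
  have hm0' : (m : ℂ) ≠ 0 := by exact_mod_cast hm0.ne'
  obtain ⟨U, p, hp, hP, hY, hsum⟩ := small_factor Q hQne (fun q hq => (hQ q hq).1.1) m (by omega)
  have hτ1 : (d : ℝ) ^ (-(κ / (2 * (K : ℝ)))) ≤ 1 := by
    apply Real.rpow_le_one_of_one_le_of_nonpos hd1
    have : 0 < κ / (2 * (K : ℝ)) := by positivity
    linarith
  have hY1 : 1 ≤ Y := by
    rw [hYdef]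
    apply Nat.le_floor
    rw [Nat.cast_one]
    exact Real.one_le_rpow hd1 (by positivity)
  have hRough : ∀ u ∈ U, Rough z u := by
    apply hP (fun u => Rough z u) (Rough.one z) (fun a b ha hb => Rough.mul ha hb)
    intro q hq
    obtain ⟨⟨h1, _⟩, h2, h3, _⟩ := hQ q hq
    refine ⟨h1, fun r hr hrq => ?_⟩
    rw [(Nat.prime_dvd_prime_iff_eq hr h2).1 hrq]
    exact h3
  have hCop : ∀ u ∈ U, u.Coprime d := by
    apply hP (fun u => u.Coprime d) (Nat.coprime_one_left d) (fun a b ha hb => Nat.Coprime.mul_left ha hb)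
    intro q hq
    obtain ⟨_, h2, _, h4⟩ := hQ q hq
    exact (Nat.Prime.coprime_iff_not_dvd h2).2 h4
  have hOm1 : Om 1 = 0 := by simp [Om]
  have hOmM : ∀ a b : ℕ, 0 < a → 0 < b → Om (a * b) = Om a + Om b := by
    intro a b ha hb
    exact ArithmeticFunction.cardFactors_mul ha.ne' hb.ne'
  have hOmp : ∀ q ∈ Q, Om q = 1 := by
    intro q hq
    exact ArithmeticFunction.cardFactors_apply_prime (hQ q hq).2.1
  have hchar : ∀ (c : ℂ), ‖c‖ ≤ 1 → ∀ χ : DirichletCharacter ℂ d, χ ∉ X →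
      ‖(1 / (m : ℂ)) * ∑ k ∈ Icc 1 m, ((∑ q ∈ Q, c * χ (q : ZMod d)) / (Q.card : ℂ)) ^ k‖ ≤
        (d : ℝ) ^ (-(κ / (2 * (K : ℝ)))) := by
    intro c hc χ hχ
    apply N8_mean m (by omega) _ _ _ hτ1
    rw [← Finset.mul_sum, norm_div, norm_mul, Complex.norm_natCast, div_le_iff₀ hc0]
    have h1 := hX χ hχ
    calc ‖c‖ * ‖∑ q ∈ Q, χ (q : ZMod d)‖ ≤ 1 * ‖∑ q ∈ Q, χ (q : ZMod d)‖ :=
          mul_le_mul_of_nonneg_right hc (norm_nonneg _)
      _ ≤ _ := by rw [one_mul]; exact h1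
  have hze : ‖ze m‖ = 1 := by
    have e : ze m = Complex.exp (((2 * Real.pi / m : ℝ) : ℂ) * Complex.I) := by
      unfold ze
      congr 1
      push_cast
      ring
    rw [e, Complex.norm_exp_ofReal_mul_I]
  have hprim : IsPrimitiveRoot (ze m) m := by
    unfold ze
    exact Complex.isPrimitiveRoot_exp m (by omega)
  refine ⟨U, p, X, hRough, hCop, ?_, hp, ?_, ?_, hX1, hXc, ?_⟩
  · intro u hu
    have h1 : (u : ℝ) ≤ (Y : ℝ) ^ m := by
      exact_mod_cast hY Y hY1 (fun q hq => (hQ q hq).1.2) u hu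
    have h2 : (Y : ℝ) ≤ (d : ℝ) ^ (1 / (K : ℝ)) := by
      rw [hYdef]
      exact Nat.floor_le (by positivity)
    calc (u : ℝ) ≤ (Y : ℝ) ^ m := h1
      _ ≤ ((d : ℝ) ^ (1 / (K : ℝ))) ^ m := pow_le_pow_left₀ (Nat.cast_nonneg _) h2 m
      _ = (d : ℝ) ^ ((m : ℝ) / K) := by
          rw [← Real.rpow_natCast ((d : ℝ) ^ (1 / (K : ℝ))) m, ← Real.rpow_mul hdpos.le]
          congr 1
          field_simp
      _ ≤ (d : ℝ) ^ η := by
          apply Real.rpow_le_rpow_of_exponent_le hd1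
          rw [div_le_iff₀ hK0]
          exact hK
  · have h1 := hsum (fun _ => 1) rfl (fun _ _ _ _ => by norm_num)
    simp only [mul_one, Finset.sum_const, nsmul_eq_mul, div_self hc0', one_pow, Nat.card_Icc,
      Nat.add_sub_cancel] at h1
    rw [one_div, inv_mul_cancel₀ hm0'] at h1
    exact_mod_cast h1
  · have h1 := hsum (fun u => ze m ^ Om u) (by simp [hOm1])
      (fun a b ha hb => by simp only [hOmM a b ha hb, pow_add])
    rw [h1]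
    have h2 : (∑ q ∈ Q, ze m ^ Om q) / (Q.card : ℂ) = ze m := by
      have h3 : ∑ q ∈ Q, ze m ^ Om q = ∑ q ∈ Q, ze m :=
        Finset.sum_congr rfl fun q hq => by rw [hOmp q hq, pow_one]
      rw [h3, Finset.sum_const, nsmul_eq_mul, mul_div_assoc, mul_comm, div_mul_cancel₀ _ hc0']
    rw [h2]
    have h4 : ∑ k ∈ Icc 1 m, ze m ^ k = 0 := by
      have h5 : ∑ k ∈ Icc 1 m, ze m ^ k = ze m * ∑ k ∈ range m, ze m ^ k := by
        rw [Finset.mul_sum, Finset.range_eq_Ico]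
        have : Icc 1 m = Ico (0 + 1) (m + 1) := by
          ext x; rw [mem_Icc, mem_Ico]; omega
        rw [this, ← Finset.sum_Ico_add' (fun k => ze m ^ k) 0 m 1]
        apply Finset.sum_congr rfl
        intro k _
        rw [pow_succ, mul_comm]
      rw [h5, hprim.geom_sum_eq_zero (by omega), mul_zero]
    rw [h4, mul_zero]
  · intro χ hχ i
    have h1 := hsum (fun u => ze m ^ (i * Om u) * χ (u : ZMod d)) (by simp [hOm1])
      (fun a b ha hb => by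
        simp only [hOmM a b ha hb, mul_add, pow_add, Nat.cast_mul, map_mul]
        ring)
    have h2 : mc U p (fun u => ze m ^ (i * Om u)) χ =
        ∑ u ∈ U, (p u : ℂ) * (ze m ^ (i * Om u) * χ (u : ZMod d)) := by
      unfold mc
      exact Finset.sum_congr rfl fun u _ => mul_assoc _ _ _
    rw [h2, h1]
    have h3 : ∑ q ∈ Q, ze m ^ (i * Om q) * χ (q : ZMod d) =
        ∑ q ∈ Q, ze m ^ i * χ (q : ZMod d) :=
      Finset.sum_congr rfl fun q hq => by rw [hOmp q hq, mul_one]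
    rw [h3]
    exact hchar (ze m ^ i) (by rw [norm_pow, hze, one_pow]) χ hχ

end Pool.Agent.Lib.MP_42948a_nt.BM
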