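import Pool.Agent.Lib.MP_42948a_nt.BM.Defs
import Pool.Agent.Lib.MP_42948a_nt.OM.G1

/-!
# Products of four numbers in one class (job N9)

As `pair_class` (`OM/G1.lean`). For `x` in the sum put `M = n1 n2 (n3 n4)`: `M ≥ d` (`M^4 ≥ d^4`), `M ≤ d^4`, and a given `M` arises from at most `τ(M)^3` quadruples (`n1, n2, n3` divide `M` and determine `n4`),
`τ(M) ≤ C M^(κ/24) ≤ C d^(κ/6)` (`divisor_bound` of `OA/DV.lean` with exponent `κ/24`), `τ(M)^3 ≤ C^3 d^(κ/2)`. So the sum is `≤ C^3 d^(κ/2) ∑_M 1/M` over the `M ≡ b`, `d ≤ M ≤ d^4`, `≤ C^3 d^(κ/2) (1 + 3 log d)/d`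
(`G1_sum_inv`) `≤ d^(κ-1)` for large `d` (`G1_large`).
-/

namespace Pool.Agent.Lib.MP_42948a_nt.BM

open Finset Pool.Agent.Lib.MP_42948a_nt.OA Pool.Agent.Lib.MP_42948a_nt.OM

private theorem N9_card_fiber (S : Finset ((ℕ × ℕ) × (ℕ × ℕ)))
    (hS : ∀ x ∈ S, 0 < x.1.1 ∧ 0 < x.1.2 ∧ 0 < x.2.1 ∧ 0 < x.2.2) (M : ℕ) :
    (S.filter (fun x => x.1.1 * x.1.2 * (x.2.1 * x.2.2) = M)).card ≤ M.divisors.card ^ 3 := by
  have h0 : M.divisors.card ^ 3 = ((M.divisors ×ˢ M.divisors) ×ˢ M.divisors).card := by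
    rw [card_product, card_product]
    ring
  rw [h0]
  refine Finset.card_le_card_of_injOn (fun x => ((x.1.1, x.1.2), x.2.1)) ?_ ?_
  · intro x hx
    obtain ⟨hxS, hxM⟩ := Finset.mem_filter.1 (Finset.mem_coe.1 hx)
    obtain ⟨h1, h2, h3, h4⟩ := hS x hxS
    have hM : M ≠ 0 := by
      rw [← hxM]
      positivity
    refine Finset.mem_coe.2 (Finset.mem_product.2 ⟨Finset.mem_product.2 ⟨?_, ?_⟩, ?_⟩)
    · exact Nat.mem_divisors.2 ⟨⟨x.1.2 * (x.2.1 * x.2.2), by rw [← hxM]; ring⟩, hM⟩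
    · exact Nat.mem_divisors.2 ⟨⟨x.1.1 * (x.2.1 * x.2.2), by rw [← hxM]; ring⟩, hM⟩
    · exact Nat.mem_divisors.2 ⟨⟨x.1.1 * x.1.2 * x.2.2, by rw [← hxM]; ring⟩, hM⟩
  · intro x hx y hy hxy
    obtain ⟨hxS, hxM⟩ := Finset.mem_filter.1 (Finset.mem_coe.1 hx)
    obtain ⟨hyS, hyM⟩ := Finset.mem_filter.1 (Finset.mem_coe.1 hy)
    obtain ⟨h1, h2, h3, h4⟩ := hS x hxS
    have e1 : x.1.1 = y.1.1 := congrArg (fun t : (ℕ × ℕ) × ℕ => t.1.1) hxy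
    have e2 : x.1.2 = y.1.2 := congrArg (fun t : (ℕ × ℕ) × ℕ => t.1.2) hxy
    have e3 : x.2.1 = y.2.1 := congrArg (fun t : (ℕ × ℕ) × ℕ => t.2) hxy
    rw [← e1, ← e2, ← e3, ← hxM] at hyM
    have h5 := Nat.eq_of_mul_eq_mul_left (Nat.mul_pos h1 h2) hyM
    have h6 := Nat.eq_of_mul_eq_mul_left h3 h5
    exact Prod.ext (Prod.ext e1 e2) (Prod.ext e3 h6.symm)

theorem quad_class (κ : ℝ) (hκ : 0 < κ) : ∃ d0 : ℕ, ∀ d : ℕ, d0 ≤ d → ∀ N : Finset ℕ,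
    (∀ n ∈ N, 0 < n ∧ d ≤ n ^ 4 ∧ n ≤ d) → ∀ b : (ZMod d)ˣ,
      ∑ x ∈ ((N ×ˢ N) ×ˢ (N ×ˢ N)).filter
          (fun x => ((x.1.1 * x.1.2 * (x.2.1 * x.2.2) : ℕ) : ZMod d) = (b : ZMod d)),
        (1 : ℝ) / ((x.1.1 : ℝ) * x.1.2 * ((x.2.1 : ℝ) * x.2.2)) ≤ (d : ℝ) ^ (κ - 1) := by
  obtain ⟨C, hC, hdiv⟩ := divisor_bound (κ / 24) (by positivity)
  have hC3 : 1 ≤ C ^ 3 := one_le_pow₀ hC
  obtain ⟨d0, hd0, hlarge⟩ := G1_large κ hκ (C ^ 3) hC3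
  refine ⟨d0, fun d hd N hN b => ?_⟩
  have hd1 : 0 < d := by omega
  have hdR : (0 : ℝ) < d := by exact_mod_cast hd1
  have hL := hlarge d hd
  set S : Finset ((ℕ × ℕ) × (ℕ × ℕ)) := ((N ×ˢ N) ×ˢ (N ×ˢ N)).filter
    (fun x => ((x.1.1 * x.1.2 * (x.2.1 * x.2.2) : ℕ) : ZMod d) = (b : ZMod d)) with hS
  have hmem : ∀ x ∈ S, (0 < x.1.1 ∧ 0 < x.1.2 ∧ 0 < x.2.1 ∧ 0 < x.2.2) ∧
      d ≤ x.1.1 * x.1.2 * (x.2.1 * x.2.2) ∧ x.1.1 * x.1.2 * (x.2.1 * x.2.2) ≤ d ^ 4 ∧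
      ((x.1.1 * x.1.2 * (x.2.1 * x.2.2) : ℕ) : ZMod d) = (b : ZMod d) := by
    intro x hx
    obtain ⟨h1, h2⟩ := Finset.mem_filter.1 hx
    obtain ⟨h3, h4⟩ := Finset.mem_product.1 h1
    obtain ⟨h3a, h3b⟩ := Finset.mem_product.1 h3
    obtain ⟨h4a, h4b⟩ := Finset.mem_product.1 h4
    obtain ⟨a1, a2, a3⟩ := hN x.1.1 h3a
    obtain ⟨b1, b2, b3⟩ := hN x.1.2 h3b
    obtain ⟨c1, c2, c3⟩ := hN x.2.1 h4a
    obtain ⟨d1, d2, d3⟩ := hN x.2.2 h4b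
    refine ⟨⟨a1, b1, c1, d1⟩, ?_, ?_, h2⟩
    · have h11 : d ^ 4 ≤ (x.1.1 * x.1.2 * (x.2.1 * x.2.2)) ^ 4 := by
        calc d ^ 4 = d * d * (d * d) := by ring
          _ ≤ x.1.1 ^ 4 * x.1.2 ^ 4 * (x.2.1 ^ 4 * x.2.2 ^ 4) :=
            Nat.mul_le_mul (Nat.mul_le_mul a2 b2) (Nat.mul_le_mul c2 d2)
          _ = (x.1.1 * x.1.2 * (x.2.1 * x.2.2)) ^ 4 := by ring
      exact (Nat.pow_le_pow_iff_left (by norm_num)).1 h11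
    · calc x.1.1 * x.1.2 * (x.2.1 * x.2.2) ≤ d * d * (d * d) :=
            Nat.mul_le_mul (Nat.mul_le_mul a3 b3) (Nat.mul_le_mul c3 d3)
        _ = d ^ 4 := by ring
  set T : Finset ℕ := S.image (fun x => x.1.1 * x.1.2 * (x.2.1 * x.2.2)) with hT
  have hTmem : ∀ M ∈ T, d ≤ M ∧ M ≤ d ^ 4 ∧ (M : ZMod d) = (b : ZMod d) := by
    intro M hM
    obtain ⟨x, hx, rfl⟩ := Finset.mem_image.1 hM
    exact (hmem x hx).2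
  have hmaps : ∀ x ∈ S, x.1.1 * x.1.2 * (x.2.1 * x.2.2) ∈ T := fun x hx =>
    Finset.mem_image_of_mem (fun x : (ℕ × ℕ) × (ℕ × ℕ) => x.1.1 * x.1.2 * (x.2.1 * x.2.2)) hx
  have hfib : ∑ x ∈ S, (1 : ℝ) / ((x.1.1 : ℝ) * x.1.2 * ((x.2.1 : ℝ) * x.2.2)) ≤
      ∑ M ∈ T, (C ^ 3 * (d : ℝ) ^ (κ / 2)) * ((1 : ℝ) / M) := by
    rw [← Finset.sum_fiberwise_of_maps_to hmaps]
    refine Finset.sum_le_sum fun M hM => ?_
    obtain ⟨h1, h2, -⟩ := hTmem M hM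
    have hM0 : 0 < M := by omega
    have h3 : ∑ x ∈ S.filter (fun x => x.1.1 * x.1.2 * (x.2.1 * x.2.2) = M),
        (1 : ℝ) / ((x.1.1 : ℝ) * x.1.2 * ((x.2.1 : ℝ) * x.2.2)) =
        ((S.filter (fun x => x.1.1 * x.1.2 * (x.2.1 * x.2.2) = M)).card : ℝ) * ((1 : ℝ) / M) := by
      rw [Finset.sum_congr rfl (g := fun _ => (1 : ℝ) / M) (fun x hx => by
        rw [← (Finset.mem_filter.1 hx).2]; push_cast; rfl), Finset.sum_const, nsmul_eq_mul]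
    rw [h3]
    refine mul_le_mul_of_nonneg_right ?_ (by positivity)
    have h4 := N9_card_fiber S (fun x hx => (hmem x hx).1) M
    have h5 : ((S.filter (fun x => x.1.1 * x.1.2 * (x.2.1 * x.2.2) = M)).card : ℝ) ≤
        (M.divisors.card : ℝ) ^ 3 := by exact_mod_cast h4
    have h6 : (M : ℝ) ≤ (d : ℝ) ^ (4 : ℝ) := by
      have h7 : (M : ℝ) ≤ (d : ℝ) ^ 4 := by exact_mod_cast h2
      refine h7.trans (le_of_eq ?_)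
      rw [← Real.rpow_natCast]
      norm_num
    have h8 : (M.divisors.card : ℝ) ≤ C * (d : ℝ) ^ (κ / 6) := by
      refine (hdiv M hM0).trans (mul_le_mul_of_nonneg_left ?_ (by linarith))
      refine (Real.rpow_le_rpow (Nat.cast_nonneg M) h6 (by positivity)).trans (le_of_eq ?_)
      rw [← Real.rpow_mul hdR.le]
      congr 1; ring
    refine h5.trans ((pow_le_pow_left₀ (Nat.cast_nonneg _) h8 3).trans (le_of_eq ?_))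
    rw [mul_pow, ← Real.rpow_natCast ((d : ℝ) ^ (κ / 6)) 3, ← Real.rpow_mul hdR.le]
    congr 2
    push_cast
    ring
  have hsum := G1_sum_inv d hd1 (b : ZMod d) T hTmem
  have hC0 : (0 : ℝ) ≤ C ^ 3 * (d : ℝ) ^ (κ / 2) := mul_nonneg (by linarith) (Real.rpow_pos_of_pos hdR _).le
  calc ∑ x ∈ S, (1 : ℝ) / ((x.1.1 : ℝ) * x.1.2 * ((x.2.1 : ℝ) * x.2.2))
      ≤ ∑ M ∈ T, (C ^ 3 * (d : ℝ) ^ (κ / 2)) * ((1 : ℝ) / M) := hfib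
    _ = (C ^ 3 * (d : ℝ) ^ (κ / 2)) * ∑ M ∈ T, (1 : ℝ) / M := by rw [← Finset.mul_sum]
    _ ≤ (C ^ 3 * (d : ℝ) ^ (κ / 2)) * ((1 + 3 * Real.log d) / d) := mul_le_mul_of_nonneg_left hsum hC0
    _ = (C ^ 3 * (d : ℝ) ^ (κ / 2) * (1 + 3 * Real.log d)) / d := by ring
    _ ≤ (d : ℝ) ^ κ / d := div_le_div_of_nonneg_right hL hdR.le
    _ = (d : ℝ) ^ (κ - 1) := by rw [Real.rpow_sub_one hdR.ne']

end Pool.Agent.Lib.MP_42948a_nt.BM
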