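import Pool.Agent.Lib.MP_42948a_nt.BM.Defs

/-!
# Choice of the constants (job T6a)

`gam, rh1, kp3, rh3, c3, tau0` are positive for `0 < β`. `tau0_le`: for `0 < β ≤ 1`, `m ≥ 3`: `gam ≤ 1/24`, `rh1 ≤ 1/200`, so `kp3 ≤ 1`, `(kp3/2)^m ≤ 1`, `rh3 = β^4/800`, `c3 ≤ β^4/3200`,
`(2m)^m ≥ 1`, `tau0 ≤ (β^4/3200)^2 ≤ β^2/100`; `√tau0 = c3/(2m)^m` (`Real.sqrt_sq`).
`choose_s0`: with `M = 2 m`, `c = c3 m β`, `ε = c/(8 m M^m)`: the left side of the last inequality tends to `M^m * 2 * m * 2 ε = c/2` and the right side to `4 c - c = 3 c > c/2` for `s, s2 → 0`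
(`(kp3/2)^m * rh3 = 4 c3`, `s^5/s^2 = s^3`). Explicitly: for `s, s2 ≤ s0 ≤ 1` the left side is `≤ M^m (m s0 + 4 m^2 s0 + 2 m s0 C) + c/2` and the right side is
`≥ 3 c - s0 (m^2 + M^m + M^m m^2)` (`(kp3/2)^m ≤ 1`), so `s0 = min(1, β^2/100, rh1/2, kp3/2, c/(M^m (m + 4 m^2 + 2 m C + 1 + m^2) + m^2 + 1))` works.
-/

namespace Pool.Agent.Lib.MP_42948a_nt.BM

open Finset Pool.Agent.Lib.MP_42948a_nt.OA Pool.Agent.Lib.MP_42948a_nt.OM

theorem consts_pos (m : ℕ) (hm : 3 ≤ m) (β : ℝ) (hβ : 0 < β) :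
    0 < gam m β ∧ 0 < rh1 β ∧ 0 < kp3 m β ∧ 0 < rh3 β ∧ 0 < c3 m β ∧ 0 < tau0 m β := by
  have hm0 : (0 : ℝ) < m := by
    have : 0 < m := by omega
    exact_mod_cast this
  have h1 : 0 < gam m β := by unfold gam; positivity
  have h2 : 0 < rh1 β := by unfold rh1; positivity
  have h3 : 0 < kp3 m β := by unfold kp3; positivity
  have h4 : 0 < rh3 β := by unfold rh3; positivity
  have h5 : 0 < c3 m β := by unfold c3; positivity
  have h6 : 0 < tau0 m β := by unfold tau0; positivity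
  exact ⟨h1, h2, h3, h4, h5, h6⟩

private theorem T6a_kp3 (m : ℕ) (hm : 3 ≤ m) (β : ℝ) (hβ : 0 < β) (hβ1 : β ≤ 1) :
    kp3 m β ≤ 1 ∧ (kp3 m β / 2) ^ m ≤ 1 := by
  obtain ⟨h1, h2, h3, -, -, -⟩ := consts_pos m hm β hβ
  have hg : gam m β ≤ 1 := by
    unfold gam
    rw [div_le_one (by positivity)]
    have e1 : β ^ 2 ≤ 1 := pow_le_one₀ hβ.le hβ1
    have e2 : (1 : ℝ) ≤ 2 ^ m := one_le_pow₀ (by norm_num)
    linarith
  have hr : rh1 β / 2 ≤ 1 := by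
    unfold rh1
    have e1 : β ^ 4 ≤ 1 := pow_le_one₀ hβ.le hβ1
    linarith
  have hk : kp3 m β ≤ 1 := by
    unfold kp3
    have e1 : gam m β ^ 3 ≤ 1 := pow_le_one₀ h1.le hg
    have e2 : (rh1 β / 2) ^ 2 ≤ 1 := pow_le_one₀ (by positivity) hr
    exact mul_le_one₀ e1 (by positivity) e2
  exact ⟨hk, pow_le_one₀ (by positivity) (by linarith)⟩

private theorem T6a_one_le (m : ℕ) (hm : 3 ≤ m) : (1 : ℝ) ≤ (2 * (m : ℝ)) ^ m := by
  apply one_le_pow₀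
  have : (3 : ℝ) ≤ m := by exact_mod_cast hm
  linarith

theorem tau0_le (m : ℕ) (hm : 3 ≤ m) (β : ℝ) (hβ : 0 < β) (hβ1 : β ≤ 1) :
    tau0 m β ≤ β ^ 2 / 100 ∧ √(tau0 m β) * (2 * (m : ℝ)) ^ m = c3 m β := by
  obtain ⟨-, h2, h3, h4, h5, -⟩ := consts_pos m hm β hβ
  obtain ⟨-, hk⟩ := T6a_kp3 m hm β hβ hβ1
  have hA := T6a_one_le m hm
  have hA0 : (0 : ℝ) < (2 * (m : ℝ)) ^ m := by linarith
  constructor
  · have hc : c3 m β ≤ β ^ 4 / 3200 := by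
      unfold c3
      have e1 : (kp3 m β / 2) ^ m * rh3 β ≤ 1 * rh3 β := mul_le_mul_of_nonneg_right hk h4.le
      have e2 : rh3 β = β ^ 4 / 800 := by unfold rh3 rh1; ring
      rw [e2] at e1
      rw [e2]
      linarith
    have hb : β ^ 4 ≤ β := by
      have e1 : β ^ 3 ≤ 1 := pow_le_one₀ hβ.le hβ1
      have e2 : β ^ 3 * β ≤ 1 * β := mul_le_mul_of_nonneg_right e1 hβ.le
      have e3 : β ^ 4 = β ^ 3 * β := by ring
      rw [e3]
      linarith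
    have hd : c3 m β / (2 * (m : ℝ)) ^ m ≤ β / 10 := by
      have e1 : c3 m β / (2 * (m : ℝ)) ^ m ≤ c3 m β := div_le_self h5.le hA
      linarith
    have hd0 : 0 ≤ c3 m β / (2 * (m : ℝ)) ^ m := by positivity
    unfold tau0
    have e1 : (c3 m β / (2 * (m : ℝ)) ^ m) ^ 2 ≤ (β / 10) ^ 2 := pow_le_pow_left₀ hd0 hd 2
    have e2 : (β / 10) ^ 2 = β ^ 2 / 100 := by ring
    linarith
  · unfold tau0
    rw [Real.sqrt_sq (by positivity)]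
    exact div_mul_cancel₀ _ hA0.ne'

theorem choose_s0 (m : ℕ) (hm : 3 ≤ m) (β : ℝ) (hβ : 0 < β) (hβ1 : β ≤ 1) (C : ℝ) (hC : 0 ≤ C) :
    ∃ s0 : ℝ, 0 < s0 ∧ s0 ≤ 1 ∧ s0 ≤ β ^ 2 / 100 ∧ s0 ≤ rh1 β / 2 ∧ s0 ≤ kp3 m β / 2 ∧
      ∀ s s2 : ℝ, 0 < s → s ≤ s0 → 0 ≤ s2 → s2 ≤ s0 →
        (2 * (m : ℝ)) ^ m * ((m : ℝ) * s ^ 2 + 2 * ((m : ℝ) * (2 * ((m : ℝ) * s ^ 2) +
            2 * (c3 m β / (8 * m * (2 * (m : ℝ)) ^ m)) + s2 * C))) <
          (kp3 m β / 2) ^ m * (rh3 β - (m : ℝ) ^ 2 * s ^ 5 / s ^ 2) - s * (2 * (m : ℝ)) ^ m -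
            (2 * (m : ℝ)) ^ m * ((m : ℝ) ^ 2 * s ^ 5 / s ^ 2) - c3 m β := by
  obtain ⟨-, h2, h3, h4, h5, -⟩ := consts_pos m hm β hβ
  obtain ⟨-, hk⟩ := T6a_kp3 m hm β hβ hβ1
  have hA := T6a_one_le m hm
  have hm0 : (0 : ℝ) < m := by
    have : 0 < m := by omega
    exact_mod_cast this
  have hc4 : (kp3 m β / 2) ^ m * rh3 β = 4 * c3 m β := by unfold c3; ring
  have hk0 : 0 < (kp3 m β / 2) ^ m := by positivity
  generalize (kp3 m β / 2) ^ m = k at hk hc4 hk0 ⊢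
  generalize (2 * (m : ℝ)) ^ m = A at hA ⊢
  generalize hcc : c3 m β = c at h5 hc4 ⊢
  generalize (m : ℝ) = M at hm0 ⊢
  obtain ⟨D, hD⟩ : ∃ D, D = A * (M + 4 * M ^ 2 + 2 * M * C + 1 + M ^ 2) + M ^ 2 + 1 := ⟨_, rfl⟩
  have hD0 : 0 < D := by rw [hD]; positivity
  obtain ⟨s0, hs0⟩ : ∃ s0, s0 = min (min (min 1 (β ^ 2 / 100)) (min (rh1 β / 2) (kp3 m β / 2))) (c / D) :=
    ⟨_, rfl⟩
  have a1 : s0 ≤ 1 := by
    rw [hs0]; exact (min_le_left _ _).trans ((min_le_left _ _).trans (min_le_left _ _))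
  have a2 : s0 ≤ β ^ 2 / 100 := by
    rw [hs0]; exact (min_le_left _ _).trans ((min_le_left _ _).trans (min_le_right _ _))
  have a3 : s0 ≤ rh1 β / 2 := by
    rw [hs0]; exact (min_le_left _ _).trans ((min_le_right _ _).trans (min_le_left _ _))
  have a4 : s0 ≤ kp3 m β / 2 := by
    rw [hs0]; exact (min_le_left _ _).trans ((min_le_right _ _).trans (min_le_right _ _))
  have a5 : s0 ≤ c / D := by
    rw [hs0]; exact min_le_right _ _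
  have a0 : 0 < s0 := by
    rw [hs0]
    refine lt_min (lt_min (lt_min one_pos (by positivity)) (lt_min (by positivity) (by positivity)))
      (by positivity)
  refine ⟨s0, a0, a1, a2, a3, a4, ?_⟩
  intro s s2 hs hss hs2 hs2s
  have a6 : s0 * D ≤ c := by rwa [le_div_iff₀ hD0] at a5
  have hs1 : s ≤ 1 := hss.trans a1
  have e2 : s ^ 2 ≤ s0 := by nlinarith
  have e3 : s ^ 3 ≤ s0 := by
    have e4 : s ^ 3 = s ^ 2 * s := by ring
    have e5 : s ^ 2 * s ≤ 1 * s := by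
      apply mul_le_mul_of_nonneg_right _ hs.le
      exact pow_le_one₀ hs.le hs1
    rw [e4]
    linarith
  have e30 : 0 ≤ s ^ 3 := by positivity
  have e6 : M ^ 2 * s ^ 5 / s ^ 2 = M ^ 2 * s ^ 3 := by
    field_simp
  have e7 : c / (8 * M * A) * (4 * M * A) = c / 2 := by
    have hA0 : A ≠ 0 := by positivity
    field_simp
    norm_num
  have hA0 : (0 : ℝ) < A := by linarith
  have lhs : A * (M * s ^ 2 + 2 * (M * (2 * (M * s ^ 2) + 2 * (c / (8 * M * A)) + s2 * C))) =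
      A * (M + 4 * M ^ 2) * s ^ 2 + 2 * M * C * A * s2 + c / 2 := by
    rw [← e7]
    ring
  rw [lhs, e6]
  have l1 : A * (M + 4 * M ^ 2) * s ^ 2 ≤ A * (M + 4 * M ^ 2) * s0 :=
    mul_le_mul_of_nonneg_left e2 (by positivity)
  have l2 : 2 * M * C * A * s2 ≤ 2 * M * C * A * s0 :=
    mul_le_mul_of_nonneg_left hs2s (by positivity)
  have r1 : k * (M ^ 2 * s ^ 3) ≤ 1 * (M ^ 2 * s0) := by
    apply mul_le_mul hk _ (by positivity) (by norm_num)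
    exact mul_le_mul_of_nonneg_left e3 (by positivity)
  have r2 : A * (M ^ 2 * s ^ 3) ≤ A * (M ^ 2 * s0) :=
    mul_le_mul_of_nonneg_left (mul_le_mul_of_nonneg_left e3 (by positivity)) hA0.le
  have r3 : s * A ≤ s0 * A := mul_le_mul_of_nonneg_right hss hA0.le
  have r4 : k * (rh3 β - M ^ 2 * s ^ 3) = 4 * c - k * (M ^ 2 * s ^ 3) := by
    rw [mul_sub, hc4]
  rw [r4]
  have r5 : s0 * D = A * (M + 4 * M ^ 2) * s0 + 2 * M * C * A * s0 + s0 * A + A * (M ^ 2 * s0) +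
      1 * (M ^ 2 * s0) + s0 := by
    rw [hD]
    ring
  linarith

end Pool.Agent.Lib.MP_42948a_nt.BM
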