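import Pool.Agent.Lib.MP_42948a_nt.OM.E9
import Pool.Agent.Lib.MP_42948a_nt.OM.J2
import Pool.Agent.Lib.MP_42948a_nt.OM.J5
import Pool.Agent.Lib.MP_42948a_nt.BM.T6a
import Pool.Agent.Lib.MP_42948a_nt.BM.N3
import Pool.Agent.Lib.MP_42948a_nt.BM.N5
import Pool.Agent.Lib.MP_42948a_nt.BM.N6
import Pool.Agent.Lib.MP_42948a_nt.BM.N7
import Pool.Agent.Lib.MP_42948a_nt.BM.N8
import Pool.Agent.Lib.MP_42948a_nt.BM.N9
import Pool.Agent.Lib.MP_42948a_nt.BM.N9b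
import Pool.Agent.Lib.MP_42948a_nt.BM.N10
import Pool.Agent.Lib.MP_42948a_nt.BM.N12

/-!
# Existence of the walk (job N13)

Adapt `dat_exists` of `OM/J5.lean` (copy the file; `J5_mem` can be used). Let `c0` be the constant of `bias η`, `C1 ≥ 1` the constant of `MM_le`, `ν` the function of `FF_near`, `C = min (c0/(2 C1)) 1`,
`Ct` the constant of `tau0_eq m`, `A = 12 (28 m + 8)`, `η1 = min η (κ'/4)`, `b0` from `param' (Ct * C ^ (28 m + 8)/4) η1 A m ν` (so `m ≤ b0`, `ν b0 ≤ 1/2`), `δ = η1/(16 b0 + 24)`, `β = C δ^12`, so `0 < β ≤ 1` and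
`ν b0 ≤ tau0 m β/4` (`tau0_eq`). `K = ⌈m/η⌉₊`, `κX = η1/8`, `c = κX/(2 K)`; `δ ≤ 1/(2 K)` as in `J5` (`η1 (2 K) ≤ 2 η K ≤ 2 m + 2 η ≤ 16 b0 + 24`); `δ ≤ η/4`.
`small_rough' m η K κX` gives `U, p, X` with `#X ≤ 2 d^(2 κX)`. Given `s2`: `e1 = min (c0/2 δ^11/C1) (min (tau0 m β/2 * β) (s2 * β))`, `large_d' η η1 δ κ' b0 z0 d1 .. e1`, `d1 ≥` the bounds of `small_rough'` and
`quad_class (c/2)`; and `d` so large that `d^(-(3 c/2)) ≤ β^4` (`K_large` in `OM/K.lean`, or `tendsto_rpow_neg_atTop`). `x0 = ⌈d^(1/4+η)⌉₊`, `y'` from the bias (`ζ = ze m`), `W = WW (NN z d x0 y')`,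
`β ≤ W ≤ C1/δ`, `β W ≤ ‖∑ ze m ^ Om n/n‖` exactly as in `J5` (`β = C δ^12 ≤ c0/(2 C1) δ^12`). Then `wlk_fixed` (`BM/N12.lean`) with `N = NN z d x0 y'`, `I = II d x0 y'`, `w = wp z b0` (`J3_sub`, `J3_II`, `J3_one`,
`wp_nonneg`), `Y = ⌊d^(1/4+3η)⌋₊` (`n u ≤ d^(1/4+2η) d^η`), `τ = tau0 m β ≤ β^2/100` (`tau0_le`), `s = d^(-c)`:
* `hbes`: `rough_bessel` (`κ = η/2`; `X'` in place of `X`, `#X' ≤ N + 2` with `N = #X ≤ 2 d^(2 κX)`): `≤ W ((1 + 2 ν) W + e1)` by the last item of `large_d'` (`0 ≤ z^K ..`), and `2 ν ≤ τ/2`, `e1 ≤ τ/2 β ≤ τ/2 W`.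
* `h8`: `eighth_moment` with `R = d^(c/2 - 1)` (`quad_class`; `n > x0` gives `d ≤ x0^4 ≤ n^4`; `n ≤ y' ≤ d^(1/4+2η) ≤ d`): `(..) * s^8 ≤ d^(c/2) W^4 d^(-8c) ≤ d^(-6 c) W^8` because `d^(-(3c/2)) ≤ β^4 ≤ W^4`
  (`φ(d) ≤ d`; `d^(c/2) d^(-8 c) = d^(-6 c) d^(-(3 c/2))`).
* `hT`: `majorant_mass` and the last item of `large_d'` with `N = 0`: `≤ (1 + 2 ν) W + e1 ≤ 2 W`. `hC`: `majorant_char'` and the last item with `N = 0` (`2 (..) ≤ e1`, the first summand is `≥ 0`): `≤ e1 ≤ s2 β ≤ s2 W`.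
-/

namespace Pool.Agent.Lib.MP_42948a_nt.BM

open Finset Pool.Agent.Lib.MP_42948a_nt.OA Pool.Agent.Lib.MP_42948a_nt.OM

private theorem N13_e8 (D W β c s : ℝ) (hD : 1 ≤ D) (hβ : 0 < β) (hW : β ≤ W) (hs : s = D ^ (-c))
    (hsm : D ^ (-(3 * c / 2)) ≤ β ^ 4) (S T : ℝ) (hS : S ≤ T * D ^ (c / 2 - 1) * W ^ 4) (hT : T ≤ D) :
    S * s ^ 8 ≤ s ^ 6 * W ^ 8 := by
  have hD0 : 0 < D := by linarith
  have hW0 : 0 < W := lt_of_lt_of_le hβ hW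
  have hs0 : 0 < s := by
    rw [hs]
    exact Real.rpow_pos_of_pos hD0 _
  have h1 : S ≤ D ^ (c / 2) * W ^ 4 := by
    refine hS.trans ?_
    refine mul_le_mul_of_nonneg_right ?_ (by positivity)
    calc T * D ^ (c / 2 - 1) ≤ D * D ^ (c / 2 - 1) := mul_le_mul_of_nonneg_right hT (Real.rpow_nonneg hD0.le _)
      _ = D ^ (c / 2) := by
          rw [Real.rpow_sub_one hD0.ne']
          field_simp
  have h2 : D ^ (c / 2) * s ^ 2 ≤ W ^ 4 := by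
    have h3 : D ^ (c / 2) * s ^ 2 = D ^ (-(3 * c / 2)) := by
      rw [hs, ← Real.rpow_natCast, ← Real.rpow_mul hD0.le, ← Real.rpow_add hD0]
      congr 1
      push_cast
      ring
    rw [h3]
    exact hsm.trans (pow_le_pow_left₀ hβ.le hW 4)
  calc S * s ^ 8 ≤ D ^ (c / 2) * W ^ 4 * s ^ 8 := mul_le_mul_of_nonneg_right h1 (by positivity)
    _ = (D ^ (c / 2) * s ^ 2) * (s ^ 6 * W ^ 4) := by ring
    _ ≤ W ^ 4 * (s ^ 6 * W ^ 4) := mul_le_mul_of_nonneg_right h2 (by positivity)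
    _ = s ^ 6 * W ^ 8 := by ring

private theorem N13_mem {z d x0 y' n : ℕ} (h : n ∈ NN z d x0 y') :
    x0 < n ∧ n ≤ y' ∧ Rough z n ∧ n.Coprime d := by
  classical
  unfold NN at h
  obtain ⟨h1, h2⟩ := mem_filter.1 h
  unfold RR at h1
  obtain ⟨h3, h4⟩ := mem_filter.1 h1
  exact ⟨(mem_Ioc.1 h3).1, (mem_Ioc.1 h3).2, h4, h2⟩

theorem wlk_exists (m : ℕ) (hm : 3 ≤ m) [NeZero m] (η κ' : ℝ) (hη : 0 < η) (hη1 : η ≤ 1 / 8) (hκ' : 0 < κ') :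
    ∃ δ β c : ℝ, 0 < δ ∧ 0 < β ∧ β ≤ 1 ∧ 0 < c ∧ c < 1 ∧ ∀ s2 : ℝ, 0 < s2 → ∃ d0 : ℕ, 2 ≤ d0 ∧
      ∀ (d : ℕ) [NeZero d], d0 ≤ d → BurP (η / 2) κ' d →
        Nonempty (Wlk m d ⌊(d : ℝ) ^ δ⌋₊ ⌊(d : ℝ) ^ (1 / 4 + 3 * η)⌋₊ β (tau0 m β) ((d : ℝ) ^ (-c)) s2) := by
  obtain ⟨c0, hc0, hbias⟩ := bias η hη (by linarith)
  obtain ⟨C1, hC1, hMM⟩ := MM_le
  obtain ⟨ν, hν0, hνA, hνFF⟩ := FF_near
  obtain ⟨Ct, hCt, htau⟩ := tau0_eq m (by omega)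
  have hC1pos : 0 < C1 := by linarith
  obtain ⟨C, hC⟩ : ∃ C : ℝ, C = min (c0 / (2 * C1)) 1 := ⟨_, rfl⟩
  have hCpos : 0 < C := by
    rw [hC]
    exact lt_min (by positivity) one_pos
  have hCle : C ≤ c0 / (2 * C1) := by
    rw [hC]
    exact min_le_left _ _
  have hCle1 : C ≤ 1 := by
    rw [hC]
    exact min_le_right _ _
  obtain ⟨η1, hη1d⟩ : ∃ η1 : ℝ, η1 = min η (κ' / 4) := ⟨_, rfl⟩
  have hη1pos : 0 < η1 := by
    rw [hη1d]
    exact lt_min hη (by positivity)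
  have hη1η : η1 ≤ η := by
    rw [hη1d]
    exact min_le_left _ _
  have hη1κ : η1 ≤ κ' / 4 := by
    rw [hη1d]
    exact min_le_right _ _
  obtain ⟨b0, hb1, hbm, hν1, hν2⟩ := param' (Ct * C ^ (28 * m + 8) / 4) η1 (by positivity) hη1pos
    (12 * (28 * m + 8)) m ν hνA
  obtain ⟨δ, hδ⟩ : ∃ δ : ℝ, δ = η1 / (16 * b0 + 24) := ⟨_, rfl⟩
  have hb0 : (0 : ℝ) ≤ b0 := Nat.cast_nonneg _
  have hden : (0 : ℝ) < 16 * b0 + 24 := by positivity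
  have hδpos : 0 < δ := by
    rw [hδ]
    positivity
  have hδeq : δ * (16 * b0 + 24) = η1 := by rw [hδ]; field_simp
  have hδη1 : δ ≤ η1 / 4 := by
    rw [hδ]
    apply div_le_div_of_nonneg_left hη1pos.le (by norm_num)
    linarith
  have hδη : δ ≤ η / 4 := by linarith
  have hδ1 : δ ≤ 1 := by linarith
  obtain ⟨β, hβ⟩ : ∃ β : ℝ, β = C * δ ^ 12 := ⟨_, rfl⟩
  have hβpos : 0 < β := by
    rw [hβ]
    positivity
  have hβ1 : β ≤ 1 := by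
    rw [hβ]
    exact mul_le_one₀ hCle1 (by positivity) (pow_le_one₀ hδpos.le hδ1)
  obtain ⟨-, -, -, -, -, htpos⟩ := consts_pos m hm β hβpos
  obtain ⟨htle, -⟩ := tau0_le m hm β hβpos hβ1
  obtain ⟨τ, hτ⟩ : ∃ τ : ℝ, τ = tau0 m β := ⟨_, rfl⟩
  have hτe : τ = Ct * C ^ (28 * m + 8) * δ ^ (12 * (28 * m + 8)) := by
    rw [hτ, htau, hβ, mul_pow, ← pow_mul]
    ring
  rw [← hδ] at hν2
  have hν2' : ν b0 ≤ τ / 4 := by
    rw [hτe]
    refine hν2.trans (le_of_eq ?_)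
    ring
  rw [← hτ] at htpos htle
  have hτ1 : τ ≤ 1 / 100 := by
    have : β ^ 2 ≤ 1 := pow_le_one₀ hβpos.le hβ1
    linarith
  obtain ⟨κX, hκX⟩ : ∃ κX : ℝ, κX = η1 / 8 := ⟨_, rfl⟩
  have hκpos : 0 < κX := by
    rw [hκX]
    positivity
  obtain ⟨K, hK⟩ : ∃ K : ℕ, K = ⌈(m : ℝ) / η⌉₊ := ⟨_, rfl⟩
  have hmpos : (0 : ℝ) < m := by exact_mod_cast (by omega : 0 < m)
  have hKm : (m : ℝ) ≤ η * K := by
    have h1 : (m : ℝ) / η ≤ K := by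
      rw [hK]
      exact Nat.le_ceil _
    rw [div_le_iff₀ hη] at h1
    linarith
  have hK1 : 1 ≤ K := by
    rw [hK]
    exact Nat.one_le_ceil_iff.2 (by positivity)
  have hKpos : (0 : ℝ) < K := by exact_mod_cast hK1
  have hKup : η * K ≤ m + η := by
    have h1 : (K : ℝ) < (m : ℝ) / η + 1 := by
      rw [hK]
      exact Nat.ceil_lt_add_one (by positivity)
    have h2 : η * K ≤ η * ((m : ℝ) / η + 1) := mul_le_mul_of_nonneg_left h1.le hη.le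
    refine h2.trans (le_of_eq ?_)
    field_simp
  obtain ⟨c, hc⟩ : ∃ c : ℝ, c = κX / (2 * K) := ⟨_, rfl⟩
  have hcpos : 0 < c := by
    rw [hc]
    positivity
  have hc1 : c < 1 := by
    have hK1' : (1 : ℝ) ≤ K := by exact_mod_cast hK1
    rw [hc, div_lt_one (by positivity)]
    linarith
  have hδK : δ ≤ 1 / (2 * (K : ℝ)) := by
    rw [hδ, div_le_div_iff₀ hden (by positivity)]
    have h1 : (m : ℝ) ≤ b0 := by exact_mod_cast hbm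
    have h2 : η1 * (2 * (K : ℝ)) ≤ 2 * (η * K) := by
      have h3 : η1 * (K : ℝ) ≤ η * K := mul_le_mul_of_nonneg_right hη1η hKpos.le
      linarith
    linarith
  obtain ⟨z0, hz0⟩ := hbias δ hδpos hδη
  obtain ⟨d2, hd2, hsm⟩ := small_rough' m (by omega) η hη K hK1 hKm κX hκpos (by linarith)
  obtain ⟨d3, hpc⟩ := quad_class (c / 2) (by positivity)
  have hd5 : ∃ d5 : ℕ, ∀ d : ℕ, d5 ≤ d → (d : ℝ) ^ (-(3 * c / 2)) ≤ β ^ 4 := by
    have h1 : Filter.Tendsto (fun d : ℕ => (d : ℝ) ^ (-(3 * c / 2))) Filter.atTop (nhds 0) :=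
      (tendsto_rpow_neg_atTop (by positivity : 0 < 3 * c / 2)).comp tendsto_natCast_atTop_atTop
    have h2 := h1.eventually (gt_mem_nhds (by positivity : (0 : ℝ) < β ^ 4))
    obtain ⟨d5, h5⟩ := Filter.eventually_atTop.1 h2
    exact ⟨d5, fun d hd => (h5 d hd).le⟩
  obtain ⟨d5, hd5⟩ := hd5
  refine ⟨δ, β, c, hδpos, hβpos, hβ1, hcpos, hc1, fun s2 hs2 => ?_⟩
  rw [← hτ]
  obtain ⟨e1, he1⟩ : ∃ e1 : ℝ, e1 = min (c0 / 2 * δ ^ 11 / C1) (min (τ / 2 * β) (s2 * β)) := ⟨_, rfl⟩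
  have he1pos : 0 < e1 := by
    rw [he1]
    exact lt_min (by positivity) (lt_min (by positivity) (by positivity))
  have he1a : e1 ≤ c0 / 2 * δ ^ 11 / C1 := by
    rw [he1]
    exact min_le_left _ _
  have he1b : e1 ≤ τ / 2 * β := by
    rw [he1]
    exact (min_le_right _ _).trans (min_le_left _ _)
  have he1c : e1 ≤ s2 * β := by
    rw [he1]
    exact (min_le_right _ _).trans (min_le_right _ _)
  obtain ⟨d4, hd4⟩ := large_d' η η1 δ κ' b0 z0 (max d2 d3) hη hη1 hη1pos hη1η hη1κ hδeq e1 he1pos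
  refine ⟨max (max d4 d5) 2, le_max_right _ _, fun d _ hd hB => ?_⟩
  have hdd4 : d4 ≤ d := ((le_max_left _ _).trans (le_max_left _ _)).trans hd
  have hdd5 : d5 ≤ d := ((le_max_right _ _).trans (le_max_left _ _)).trans hd
  have hd2' : 2 ≤ d := (le_max_right _ _).trans hd
  have hdR : (1 : ℝ) ≤ d := by exact_mod_cast (by omega : 1 ≤ d)
  have hdpos : (0 : ℝ) < d := by linarith
  obtain ⟨z, hz⟩ : ∃ z : ℕ, z = ⌊(d : ℝ) ^ δ⌋₊ := ⟨_, rfl⟩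
  obtain ⟨x0, hx0⟩ : ∃ x0 : ℕ, x0 = ⌈(d : ℝ) ^ (1 / 4 + η)⌉₊ := ⟨_, rfl⟩
  obtain ⟨g1, g2, g3, g4, g5, g6, g7, g8, g9, g10, g11⟩ := hd4 d hdd4 z x0 hz hx0
  obtain ⟨y', hy1, hy2, hy3⟩ := hz0 z x0 g3 g5 g6 (ze m) (ze_norm m) (ze_re m hm)
  obtain ⟨g7a, g7b, g7c, g7d⟩ := g7 y' hy1 hy2
  have hzd : (z : ℝ) ≤ (d : ℝ) ^ (1 / (2 * (K : ℝ))) := by
    rw [hz]
    exact (Nat.floor_le (Real.rpow_nonneg hdpos.le _)).trans (Real.rpow_le_rpow_of_exponent_le hdR hδK)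
  obtain ⟨U, p, X, u1, u2, u3, u4, u5, u6, u7, u8, u9⟩ :=
    hsm d ((le_max_left _ _).trans g1) z hzd
  have hlogz : 0 < Real.log z := Real.log_pos (by exact_mod_cast g4)
  have hx0pos : 0 < x0 := by
    have : 0 < z ^ (4 * b0 + 6) := Nat.pow_pos (by omega)
    omega
  have hy0pos : 0 < y' := by omega
  have hzx : z ≤ y' := by
    have h1 : z ≤ z ^ (4 * b0 + 6) := Nat.le_self_pow (by omega) z
    omega
  obtain ⟨W, hW⟩ : ∃ W : ℝ, W = WW (NN z d x0 y') := ⟨_, rfl⟩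
  have hMMy := hMM z y' g4 hzx
  have hWle : W ≤ C1 / δ := by
    rw [hW]
    refine (WW_NN_le d z x0 y').trans (hMMy.trans ?_)
    rw [div_eq_mul_inv C1 δ]
    apply mul_le_mul_of_nonneg_left _ hC1pos.le
    rw [div_le_iff₀ hlogz, inv_mul_eq_div, le_div_iff₀ hδpos]
    linarith
  have hA : c0 / 2 * δ ^ 11 ≤ ‖∑ n ∈ NN z d x0 y', ze m ^ Om n / (n : ℂ)‖ := by
    have h1 := removal (ze m) (ze_norm m) d z x0 y' (by omega) g4
    refine le_trans ?_ h1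
    have h2 : Real.log d / Real.log z * (1 / z) * MM z y' ≤ c0 / 2 * δ ^ 11 := by
      have h3 : 0 ≤ Real.log d / Real.log z * (1 / (z : ℝ)) := by
        have : 0 ≤ Real.log d := Real.log_nonneg hdR
        positivity
      calc Real.log d / Real.log z * (1 / z) * MM z y' ≤
          Real.log d / Real.log z * (1 / z) * (C1 * (Real.log y' / Real.log z)) :=
            mul_le_mul_of_nonneg_left hMMy h3
        _ = C1 * (Real.log d / Real.log z * (1 / z) * (Real.log y' / Real.log z)) := by ring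
        _ ≤ C1 * (c0 / 2 * δ ^ 11 / C1) :=
            mul_le_mul_of_nonneg_left (g7c.trans he1a) hC1pos.le
        _ = c0 / 2 * δ ^ 11 := by field_simp
    linarith
  have hAW : ‖∑ n ∈ NN z d x0 y', ze m ^ Om n / (n : ℂ)‖ ≤ W := by
    rw [hW]
    exact norm_sum_le_WW (ze m) (ze_norm m) _
  have hCC : C * C1 ≤ c0 / 2 := by
    have h1 : C * C1 ≤ c0 / (2 * C1) * C1 := mul_le_mul_of_nonneg_right hCle hC1pos.le
    have h2 : c0 / (2 * C1) * C1 = c0 / 2 := by field_simp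
    linarith
  have hβW : β * (C1 / δ) ≤ c0 / 2 * δ ^ 11 := by
    have h1 : β * (C1 / δ) = C * C1 * δ ^ 11 := by
      rw [hβ]
      field_simp
    rw [h1]
    exact mul_le_mul_of_nonneg_right hCC (by positivity)
  have hβle : β ≤ c0 / 2 * δ ^ 11 := by
    refine le_trans ?_ hβW
    have h2 : 1 ≤ C1 / δ := by
      rw [one_le_div hδpos]
      linarith
    exact le_mul_of_one_le_right hβpos.le h2
  have hWβ : β ≤ W := hβle.trans (hA.trans hAW)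
  have hWpos : 0 < W := lt_of_lt_of_le hβpos hWβ
  have hbiasW : β * W ≤ ‖∑ n ∈ NN z d x0 y', ze m ^ Om n / (n : ℂ)‖ := by
    refine le_trans ?_ hA
    exact (mul_le_mul_of_nonneg_left hWle hβpos.le).trans hβW
  obtain ⟨E, hE⟩ : ∃ E : ℝ, E = (z : ℝ) ^ (4 * b0 + 6) * (2 * (2 + Real.log y') * (d : ℝ) ^ (-κ')) := ⟨_, rfl⟩
  obtain ⟨F, hF⟩ : ∃ F : ℝ, F = 3 * ((z : ℝ) ^ (4 * b0 + 6) * (4 * TD d / x0)) := ⟨_, rfl⟩
  have hlogy : 0 ≤ Real.log y' := Real.log_nonneg (by exact_mod_cast hy0pos)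
  have hE0 : 0 ≤ E := by
    rw [hE]
    have := Real.rpow_nonneg hdpos.le (-κ')
    positivity
  have hF0 : 0 ≤ F := by
    rw [hF]
    unfold TD
    positivity
  rw [← hE, ← hF] at g7d
  have g0 : F + 2 * E ≤ e1 := by
    have h1 := g7d 0 (by positivity)
    linarith
  have hνW : (1 + 2 * ν b0) * W + e1 ≤ (1 + τ) * W := by
    have h1 : e1 ≤ τ / 2 * W := he1b.trans (mul_le_mul_of_nonneg_left hWβ (by positivity))
    have h2 : 2 * ν b0 * W ≤ τ / 2 * W := mul_le_mul_of_nonneg_right (by linarith) hWpos.le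
    linarith
  have hbes : ∀ v : ℕ → ℂ, (∀ n, ‖v n‖ ≤ 1) → ∀ X' : Finset (DirichletCharacter ℂ d), X'.card ≤ X.card + 2 →
      ∑ χ ∈ X', ‖ac (NN z d x0 y') v χ‖ ^ 2 ≤ (1 + τ) * W ^ 2 := by
    intro v hv X' hX'
    have h1 := rough_bessel (η / 2) κ' (by positivity) d hB z b0 x0 y' g4 g8 g9 hy1 (ν b0) (hν0 b0) hν1
      (fun g hg => hνFF z b0 g hg) X' v hv
    rw [← hW, ← hE, ← hF] at h1
    refine h1.trans ?_
    have h2 : F + (X'.card : ℝ) * E ≤ e1 := by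
      have h3 := g7d (X.card : ℝ) (by rw [← hκX]; exact u8)
      have h4 : (X'.card : ℝ) ≤ (X.card : ℝ) + 2 := by exact_mod_cast hX'
      have h5 : (X'.card : ℝ) * E ≤ ((X.card : ℝ) + 2) * E := mul_le_mul_of_nonneg_right h4 hE0
      linarith
    calc W * ((1 + 2 * ν b0) * W + F + (X'.card : ℝ) * E) ≤ W * ((1 + τ) * W) :=
          mul_le_mul_of_nonneg_left (by linarith) hWpos.le
      _ = (1 + τ) * W ^ 2 := by ring
  have hT : ∑ n ∈ II d x0 y', wp z b0 n / n ≤ 2 * W := by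
    have h1 := majorant_mass d z b0 x0 y' g4 g8 hy1 (ν b0) (hν0 b0) hν1 (fun g hg => hνFF z b0 g hg)
    rw [← hW, ← hF] at h1
    have h2 : (1 + τ) * W ≤ 2 * W := mul_le_mul_of_nonneg_right (by linarith) hWpos.le
    linarith
  have hC' : ∀ χ : DirichletCharacter ℂ d, χ ≠ 1 →
      ‖∑ n ∈ II d x0 y', ((wp z b0 n / n : ℝ) : ℂ) * χ (n : ZMod d)‖ ≤ s2 * W := by
    intro χ hχ
    have h1 := majorant_char' (η / 2) κ' (by positivity) d hB z b0 x0 y' (by omega) g9 hy1 χ hχ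
    rw [← hE] at h1
    have h2 : s2 * β ≤ s2 * W := mul_le_mul_of_nonneg_left hWβ hs2.le
    linarith
  have h8 : ∀ v : ℕ → ℂ, (∀ n, ‖v n‖ ≤ 1) →
      (∑ χ : DirichletCharacter ℂ d, ‖ac (NN z d x0 y') v χ‖ ^ 8) * ((d : ℝ) ^ (-c)) ^ 8 ≤
        ((d : ℝ) ^ (-c)) ^ 6 * W ^ 8 := by
    intro v hv
    have h1 := eighth_moment d (NN z d x0 y') (fun n hn => (N13_mem hn).2.2.2) ((d : ℝ) ^ (c / 2 - 1))
      (hpc d ((le_max_right _ _).trans g1) (NN z d x0 y') (fun n hn => by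
        obtain ⟨a1, a2, a3, a4⟩ := N13_mem hn
        refine ⟨a3.1, ?_, ?_⟩
        · exact g10.trans (Nat.pow_le_pow_left a1.le 4)
        · have h5 : (n : ℝ) ≤ (d : ℝ) := by
            have h6 : (n : ℝ) ≤ (y' : ℝ) := by exact_mod_cast a2
            exact h6.trans (g7a.trans g11)
          exact_mod_cast h5)) v hv
    rw [← hW] at h1
    exact N13_e8 d W β c _ hdR hβpos hWβ rfl (hd5 d hdd5) _ _ h1 (by exact_mod_cast Nat.totient_le d)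
  rw [← hz]
  rw [hW] at hWpos hbes hT hC' h8 hbiasW
  refine wlk_fixed m d hm z _ β τ _ s2 (NN z d x0 y') (II d x0 y') U p (wp z b0) X hβpos htle
    (Real.rpow_pos_of_pos hdpos _) hs2.le (J3_sub z d x0 y') (J3_II d x0 y') (fun n hn => (N13_mem hn).2.2.1)
    u1 u2 ?_ u4 u5 u6 u7 ?_ hWpos hbes hbiasW h8 (fun n _ => wp_nonneg z b0 n)
    (fun n hn => J3_one z b0 d x0 y' n hn) hT hC'
  · intro n hn u hu
    refine Nat.le_floor ?_
    have h6 : (n : ℝ) ≤ (y' : ℝ) := by exact_mod_cast (N13_mem hn).2.1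
    have h7 : (n : ℝ) ≤ (d : ℝ) ^ (1 / 4 + 2 * η) := h6.trans g7a
    push_cast
    calc (n : ℝ) * u ≤ (d : ℝ) ^ (1 / 4 + 2 * η) * (d : ℝ) ^ η :=
          mul_le_mul h7 (u3 u hu) (Nat.cast_nonneg _) (Real.rpow_nonneg hdpos.le _)
      _ = (d : ℝ) ^ (1 / 4 + 3 * η) := by
          rw [← Real.rpow_add hdpos]
          congr 1
          ring
  · intro χ hχ i
    rw [hc]
    exact u9 χ hχ i

end Pool.Agent.Lib.MP_42948a_nt.BM
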