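import Pool.Agent.Lib.MP_42948a_nt.BM.S1
import Pool.Agent.Lib.MP_42948a_nt.OM.I2

/-!
# The step for the sets of residues (job S2)

As `step_sets` in `OM/I2.lean` with `W.Q` in place of the pairs `(n, u)` and `step_count` of `BM/S1.lean` (copy the proof): `A x = OmSet m z' X' x`, `κ x = τ(A x)/‖τ(A x)‖` if `#(A x) = k`, else `0`, where
`τ(A) = ∑_{x ∈ A} ze m ^ x.val`; for `b ∈ B`: `C = OmSet m z'' X'' b` (`#C ≤ k`), `v = τ(C)/‖τ(C)‖` if some pair `(a, x)` with `a ∈ Q`, `x ∉ E`, `a x ≡ b` exists, and `v = 1` otherwise. For such a pair `A x + Om a ⊆ C`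
(`n ≤ X'` `z'`-rough, `≡ x` gives `a n` `z''`-rough, `≤ Y X' ≤ X''`, `≡ b`), `#(A x) ≥ k ≥ #C`, so equality, `0 < k < m`, `τ(C) = ze m ^ Om a τ(A x)` (`tau_shift`, `ze_pow_cast`), `τ(A x) ≠ 0` (`tau_ne_zero`).
-/

namespace Pool.Agent.Lib.MP_42948a_nt.BM

open Finset Pool.Agent.Lib.MP_42948a_nt.OA Pool.Agent.Lib.MP_42948a_nt.OM

private theorem S2_Om {a b : ℕ} (ha : 0 < a) (hb : 0 < b) : Om (a * b) = Om a + Om b := by
  show ArithmeticFunction.cardFactors (a * b) = ArithmeticFunction.cardFactors a + ArithmeticFunction.cardFactors b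
  rw [ArithmeticFunction.cardFactors_mul ha.ne' hb.ne']

theorem step_sets {m d : ℕ} (hm : m.Prime) [NeZero m] [NeZero d] {z Y : ℕ} {β τ s s2 : ℝ}
    (W : Wlk m d z Y β τ s s2) (hβ : 0 < β) (hs : 0 ≤ s) (k : ℕ) (hk1 : 1 ≤ k) (hkm : k < m) (z' z'' X' X'' : ℕ)
    (hz : z'' ≤ z) (hz' : z'' ≤ z') (hX : Y * X' ≤ X'') (E B : Finset (ZMod d)ˣ)
    (hE : ∀ x : (ZMod d)ˣ, x ∉ E → k ≤ (OmSet m z' X' x).card)
    (hB : ∀ b ∈ B, (OmSet m z'' X'' b).card ≤ k) :
    (B.card : ℝ) ≤ 16 / β ^ 2 * E.card + 256 * s ^ 2 * (d.totient : ℝ) / β ^ 4 := by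
  classical
  set τ' : Finset (ZMod m) → ℂ := fun A => ∑ x ∈ A, ze m ^ x.val with hτ
  refine step_count W hβ hs (fun x => if (OmSet m z' X' x).card = k then
    τ' (OmSet m z' X' x) / ((‖τ' (OmSet m z' X' x)‖ : ℝ) : ℂ) else 0) (fun x => ?_) E B
    (fun b hb => ?_)
  · split_ifs
    · rw [norm_div, Complex.norm_real, norm_norm]
      exact div_self_le_one _
    · simp
  · have key : ∀ a ∈ W.Q, ∀ x : (ZMod d)ˣ, x ∉ E →
        ((a : ℕ) : ZMod d) * (x : ZMod d) = (b : ZMod d) →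
        (OmSet m z' X' x).card = k ∧ (OmSet m z'' X'' b).card = k ∧
        τ' (OmSet m z'' X'' b) = ze m ^ (Om a) * τ' (OmSet m z' X' x) := by
      intro a ha x hx he
      have hsub : (OmSet m z' X' x).image (fun y => y + ((Om a : ℕ) : ZMod m)) ⊆
          OmSet m z'' X'' b := by
        intro y hy
        obtain ⟨y', hy', rfl⟩ := mem_image.1 hy
        unfold OmSet at hy'
        obtain ⟨n1, hn1, rfl⟩ := mem_image.1 hy'
        obtain ⟨hn1a, hn1r, hn1x⟩ := mem_filter.1 hn1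
        rw [mem_Icc] at hn1a
        have p1 := (W.rough a ha).pos
        have p3 : 0 < n1 := hn1a.1
        have e1 : ((Om n1 : ℕ) : ZMod m) + ((Om a : ℕ) : ZMod m) =
            ((Om (a * n1) : ℕ) : ZMod m) := by
          rw [S2_Om p1 p3]
          push_cast
          ring
        rw [e1]
        refine I2_mem (Nat.mul_pos p1 p3)
          ((Nat.mul_le_mul (W.le a ha) hn1a.2).trans hX) ?_ ?_
        · exact (I2_mono hz (W.rough a ha)).mul (I2_mono hz' hn1r)
        · rw [← he, ← hn1x]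
          push_cast
          ring
      have hcard : ((OmSet m z' X' x).image
          (fun y => y + ((Om a : ℕ) : ZMod m))).card = (OmSet m z' X' x).card :=
        card_image_of_injective _ (add_left_injective _)
      have hk := hE x hx
      have hC := hB b hb
      have hle := card_le_card hsub
      have heq := eq_of_subset_of_card_le hsub (by omega)
      refine ⟨by omega, by omega, ?_⟩
      have h1 := tau_shift m (OmSet m z' X' x) ((Om a : ℕ) : ZMod m)
      rw [heq, ze_pow_cast] at h1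
      exact h1
    by_cases hex : ∃ a ∈ W.Q, ∃ x : (ZMod d)ˣ, x ∉ E ∧
        ((a : ℕ) : ZMod d) * (x : ZMod d) = (b : ZMod d)
    · obtain ⟨a, ha, x, hx, he⟩ := hex
      obtain ⟨k1, k2, k3⟩ := key a ha x hx he
      have hne : τ' (OmSet m z'' X'' b) ≠ 0 :=
        tau_ne_zero m hm _ (card_pos.1 (by omega)) (by omega)
      refine ⟨τ' (OmSet m z'' X'' b) / ((‖τ' (OmSet m z'' X'' b)‖ : ℝ) : ℂ), ?_, ?_⟩
      · rw [norm_div, Complex.norm_real, norm_norm]
        exact div_self (norm_ne_zero_iff.2 hne)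
      · intro a' ha' x' hx' he'
        obtain ⟨l1, l2, l3⟩ := key a' ha' x' hx' he'
        have hnorm : ‖τ' (OmSet m z'' X'' b)‖ = ‖τ' (OmSet m z' X' x')‖ := by
          rw [l3, norm_mul, norm_pow, ze_norm, one_pow, one_mul]
        rw [if_pos l1, hnorm, l3, mul_div_assoc]
    · refine ⟨1, by simp, ?_⟩
      intro a ha x hx he
      exact absurd ⟨a, ha, x, hx, he⟩ hex

end Pool.Agent.Lib.MP_42948a_nt.BM
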