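import Pool.Agent.Lib.MP_42948a_nt.BM.T6
import Pool.Agent.Lib.MP_42948a_nt.OM.I2

/-!
# Few classes have fewer than `min m 4` residues (job S3)

Let `t0 = min m 4`, `j0 = m + 1 - t0` (`1 ≤ j0 < m`, `m ≤ j0 + 3`, since `m = 3` or `m ≥ 5`; `m = 4` is not prime, but the inequalities hold anyway). For a set `J` of `j0` residues let
`B_J = {b ∈ B : OmSet m z'' X'' b ∩ J = ∅}`. If `s φ ≤ #B_J` then `base_abs` gives `a1, .., a4 ∈ Q` with product `n = a1 a2 a3 a4` of class `b ∈ B_J` (`ucl_val`, `Nat.Coprime.mul_left`), `n` is `z''`-rough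
(`Rough.mul`, `I2_mono`), `1 ≤ n ≤ Y^4 ≤ X''` (`W.le`), `Om n = Om a1 + .. + Om a4` (`ArithmeticFunction.cardFactors_mul`) and its class is in `J` and in `OmSet m z'' X'' b` (`I2_mem`): contradiction. So
`#B_J < s φ`. Every `b ∈ B` lies in some `B_J`: the complement of `OmSet .. b` has `≥ m - (t0 - 1) = j0` elements (`Finset.card_compl`, `ZMod.card`) and contains a `J` with `j0` elements
(`Finset.exists_subset_card_eq`). There are at most `2^m` sets `J`: `#B ≤ ∑_J #B_J ≤ 2^m s φ` (`Finset.card_biUnion_le`).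
-/

namespace Pool.Agent.Lib.MP_42948a_nt.BM

open Finset Pool.Agent.Lib.MP_42948a_nt.OA Pool.Agent.Lib.MP_42948a_nt.OM

theorem S3_Om4 {a b c e : ℕ} (ha : 0 < a) (hb : 0 < b) (hc : 0 < c) (he : 0 < e) :
    Om (a * b * c * e) = Om a + Om b + Om c + Om e := by
  have h1 := I2_Om (a := a * b) (b := c) (c := e) (Nat.mul_pos ha hb) hc he
  have h2 := I2_Om (a := a) (b := b) (c := 1) ha hb one_pos
  have h3 : Om 1 = 0 := by
    show ArithmeticFunction.cardFactors 1 = 0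
    exact ArithmeticFunction.cardFactors_one
  rw [mul_one, h3, add_zero] at h2
  rw [h1, h2]

theorem S3_aux {m d z Y : ℕ} [NeZero d] {β τ s s2 : ℝ} (W : Wlk m d z Y β τ s s2)
    {z'' X'' : ℕ} (hz : z'' ≤ z) (hX : Y ^ 4 ≤ X'') {a1 a2 a3 a4 : ℕ} (h1 : a1 ∈ W.Q)
    (h2 : a2 ∈ W.Q) (h3 : a3 ∈ W.Q) (h4 : a4 ∈ W.Q) :
    ((Om a1 : ZMod m) + (Om a2 : ZMod m) + (Om a3 : ZMod m) + (Om a4 : ZMod m)) ∈
      OmSet m z'' X'' (ucl d a1 * ucl d a2 * ucl d a3 * ucl d a4) := by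
  have r1 := W.rough a1 h1
  have r2 := W.rough a2 h2
  have r3 := W.rough a3 h3
  have r4 := W.rough a4 h4
  have p1 := r1.pos
  have p2 := r2.pos
  have p3 := r3.pos
  have p4 := r4.pos
  have e1 : ((Om a1 : ZMod m) + (Om a2 : ZMod m) + (Om a3 : ZMod m) + (Om a4 : ZMod m)) =
      ((Om (a1 * a2 * a3 * a4) : ℕ) : ZMod m) := by
    rw [S3_Om4 p1 p2 p3 p4]
    push_cast
    ring
  rw [e1]
  refine I2_mem (Nat.mul_pos (Nat.mul_pos (Nat.mul_pos p1 p2) p3) p4) ?_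
    (I2_mono hz (((r1.mul r2).mul r3).mul r4)) ?_
  · refine le_trans ?_ hX
    calc a1 * a2 * a3 * a4 ≤ Y * Y * Y * Y :=
          Nat.mul_le_mul (Nat.mul_le_mul (Nat.mul_le_mul (W.le a1 h1) (W.le a2 h2)) (W.le a3 h3))
            (W.le a4 h4)
      _ = Y ^ 4 := by ring
  · rw [Units.val_mul, Units.val_mul, Units.val_mul, ucl_val (W.cop a1 h1), ucl_val (W.cop a2 h2),
      ucl_val (W.cop a3 h3), ucl_val (W.cop a4 h4)]
    push_cast
    ring

theorem base_sets (m : ℕ) (hm : m.Prime) (hm3 : 3 ≤ m) [NeZero m] (β : ℝ) (hβ : 0 < β) (hβ1 : β ≤ 1) :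
    ∃ s0 : ℝ, 0 < s0 ∧ ∀ (d : ℕ) [NeZero d] (z Y : ℕ) (τ s s2 : ℝ) (W : Wlk m d z Y β τ s s2),
      τ ≤ tau0 m β → 0 < s → s ≤ s0 → 0 ≤ s2 → s2 ≤ s0 → ∀ (z'' X'' : ℕ), z'' ≤ z → Y ^ 4 ≤ X'' →
      ∀ B : Finset (ZMod d)ˣ, (∀ b ∈ B, (OmSet m z'' X'' b).card < min m 4) →
        (B.card : ℝ) ≤ 2 ^ m * (s * (d.totient : ℝ)) := by
  classical
  obtain ⟨s0, hs0, H⟩ := base_abs m hm hm3 β hβ hβ1
  refine ⟨s0, hs0, fun d _ z Y τ s s2 W hτ hs hs1 hs2 hs3 z'' X'' hz hX B hB => ?_⟩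
  obtain ⟨j0, hj0⟩ : ∃ j0, j0 = m + 1 - min m 4 := ⟨_, rfl⟩
  have hj1 : 1 ≤ j0 := by omega
  have hj2 : j0 < m := by omega
  have hj3 : m ≤ j0 + 3 := by omega
  set BJ : Finset (ZMod m) → Finset (ZMod d)ˣ :=
    fun J => B.filter (fun b => Disjoint (OmSet m z'' X'' b) J) with hBJ
  have claim : ∀ J : Finset (ZMod m), J.card = j0 →
      ((BJ J).card : ℝ) ≤ s * (d.totient : ℝ) := by
    intro J hJ
    by_contra hcon
    push Not at hcon
    obtain ⟨a1, h1, a2, h2, a3, h3, a4, h4, hb, hj⟩ :=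
      H d z Y τ s s2 W hτ hs hs1 hs2 hs3 (BJ J) J hcon.le (by omega) (by omega) (by omega)
    have h5 := (mem_filter.1 hb).2
    exact Finset.disjoint_left.1 h5 (S3_aux W hz hX h1 h2 h3 h4) hj
  have hsub : B ⊆ ((univ : Finset (Finset (ZMod m))).filter (fun J => J.card = j0)).biUnion BJ := by
    intro b hb
    have h1 := hB b hb
    have h2 : j0 ≤ ((OmSet m z'' X'' b)ᶜ).card := by
      rw [Finset.card_compl, ZMod.card]
      omega
    obtain ⟨J, hJ, hJc⟩ := Finset.exists_subset_card_eq h2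
    refine mem_biUnion.2 ⟨J, mem_filter.2 ⟨mem_univ _, hJc⟩, mem_filter.2 ⟨hb, ?_⟩⟩
    rw [Finset.disjoint_right]
    intro x hx
    exact Finset.mem_compl.1 (hJ hx)
  have h1 : (B.card : ℝ) ≤
      ∑ J ∈ (univ : Finset (Finset (ZMod m))).filter (fun J => J.card = j0), ((BJ J).card : ℝ) := by
    have h := (card_le_card hsub).trans Finset.card_biUnion_le
    exact_mod_cast h
  have h2 : ∑ J ∈ (univ : Finset (Finset (ZMod m))).filter (fun J => J.card = j0),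
      ((BJ J).card : ℝ) ≤
      ∑ _J ∈ (univ : Finset (Finset (ZMod m))).filter (fun J => J.card = j0),
        s * (d.totient : ℝ) :=
    Finset.sum_le_sum fun J hJ => claim J (mem_filter.1 hJ).2
  rw [Finset.sum_const, nsmul_eq_mul] at h2
  have h3 : (((univ : Finset (Finset (ZMod m))).filter (fun J => J.card = j0)).card : ℝ) ≤
      2 ^ m := by
    have h := Finset.card_filter_le (univ : Finset (Finset (ZMod m))) (fun J => J.card = j0)
    rw [Finset.card_univ, Fintype.card_finset, ZMod.card] at h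
    exact_mod_cast h
  have h4 : 0 ≤ s * (d.totient : ℝ) := mul_nonneg hs.le (Nat.cast_nonneg _)
  exact h1.trans (h2.trans (mul_le_mul_of_nonneg_right h3 h4))

end Pool.Agent.Lib.MP_42948a_nt.BM
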