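import Pool.Agent.Lib.MP_42948a_nt.BM.Defs

/-!
# Integers prime to `d` in an interval, small error term (job N1)

`∑_{e ∣ d, e ∣ n} μ(e) = 1` if `n` is coprime to `d` and `0` otherwise (`d.divisors.filter (· ∣ n) = (n.gcd d).divisors`, `ArithmeticFunction.coe_moebius_mul_coe_zeta` or `moebius_mul_coe_zeta`: see the private
lemma `HH_moebius` at the beginning of `BU/HH.lean` in the repository, copied here:
  `∑ e ∈ d.divisors with e ∣ n, ArithmeticFunction.moebius e = if n.Coprime d then 1 else 0`, proof: rewrite the filter as `(n.gcd d).divisors`, `← ArithmeticFunction.coe_mul_zeta_apply`,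
  `ArithmeticFunction.moebius_mul_coe_zeta`, `ArithmeticFunction.one_apply`).
So `#{1 ≤ n ≤ N : (n, d) = 1} = ∑_{e ∣ d} μ(e) (N / e)` (natural division; `Nat.card_multiples` or `Nat.Ioc_filter_dvd_card_eq_div`). For `N = d`: `φ(d) = ∑_{e ∣ d} μ(e) (d / e)`, `(d / e : ℕ) = d/e` exactly, so
`N φ(d)/d = ∑_{e ∣ d} μ(e) N/e`. The difference is `∑_{e ∣ d} μ(e) ((N/e : ℕ) - N/e)`, each term at most `1` in absolute value (`|μ| ≤ 1`).
`TD_ge_one`: `1 ∣ d`.
-/

namespace Pool.Agent.Lib.MP_42948a_nt.BM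

open Finset Pool.Agent.Lib.MP_42948a_nt.OA Pool.Agent.Lib.MP_42948a_nt.OM

private theorem N1_moebius (d n : ℕ) (hd : d ≠ 0) :
    ∑ e ∈ d.divisors with e ∣ n, ArithmeticFunction.moebius e = if n.Coprime d then (1 : ℤ) else 0 := by
  have h1 : d.divisors.filter (fun e => e ∣ n) = (n.gcd d).divisors := by
    ext e
    rw [mem_filter, Nat.mem_divisors, Nat.mem_divisors]
    constructor
    · rintro ⟨⟨h1, _⟩, h2⟩
      exact ⟨Nat.dvd_gcd h2 h1, (Nat.gcd_pos_of_pos_right _ (Nat.pos_of_ne_zero hd)).ne'⟩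
    · rintro ⟨h1, _⟩
      exact ⟨⟨h1.trans (Nat.gcd_dvd_right _ _), hd⟩, h1.trans (Nat.gcd_dvd_left _ _)⟩
  rw [h1, ← ArithmeticFunction.coe_mul_zeta_apply, ArithmeticFunction.moebius_mul_coe_zeta,
    ArithmeticFunction.one_apply]

private theorem N1_count (d N : ℕ) (hd : d ≠ 0) :
    (((Icc 1 N).filter (fun n => n.Coprime d)).card : ℝ) =
      ∑ e ∈ d.divisors, (ArithmeticFunction.moebius e : ℝ) * ((N / e : ℕ) : ℝ) := by
  have h1 : (((Icc 1 N).filter (fun n => n.Coprime d)).card : ℤ) =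
      ∑ e ∈ d.divisors, ArithmeticFunction.moebius e * ((N / e : ℕ) : ℤ) := by
    have h2 : ∀ e ∈ d.divisors, ArithmeticFunction.moebius e * ((N / e : ℕ) : ℤ) =
        ∑ n ∈ Icc 1 N, if e ∣ n then ArithmeticFunction.moebius e else 0 := by
      intro e _
      rw [← Finset.sum_filter, Finset.sum_const, nsmul_eq_mul]
      have h3 : ((Icc 1 N).filter (fun n => e ∣ n)).card = N / e := by
        have h4 := Nat.Ioc_filter_dvd_card_eq_div N e
        have h5 : Icc 1 N = Ioc 0 N := by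
          ext n
          rw [mem_Icc, mem_Ioc]
          omega
        rw [h5]
        exact h4
      rw [h3, mul_comm]
    rw [Finset.sum_congr rfl h2, Finset.sum_comm]
    rw [Finset.card_filter]
    push_cast
    refine Finset.sum_congr rfl (fun n _ => ?_)
    rw [← Finset.sum_filter, N1_moebius d n hd]
  have h2 : (((Icc 1 N).filter (fun n => n.Coprime d)).card : ℝ) =
      ((((Icc 1 N).filter (fun n => n.Coprime d)).card : ℤ) : ℝ) := by push_cast; rfl
  rw [h2, h1]
  push_cast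
  rfl

private theorem N1_totient (d : ℕ) :
    ((Icc 1 d).filter (fun n => n.Coprime d)).card = d.totient := by
  rw [← Nat.filter_coprime_Ico_eq_totient d 1]
  congr 1
  ext n
  rw [mem_filter, mem_filter, mem_Icc, mem_Ico, Nat.coprime_comm]
  constructor
  · rintro ⟨h1, h2⟩
    exact ⟨⟨h1.1, by omega⟩, h2⟩
  · rintro ⟨h1, h2⟩
    exact ⟨⟨h1.1, by omega⟩, h2⟩

theorem TD_ge_one (d : ℕ) [NeZero d] : 1 ≤ TD d := by
  have hd0 : 0 < d := Nat.pos_of_ne_zero (NeZero.ne d)
  have : 0 < d.divisors.card := Finset.card_pos.mpr ⟨1, Nat.one_mem_divisors.mpr hd0.ne'⟩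
  unfold TD
  exact_mod_cast this

theorem coprime_count' (d : ℕ) [NeZero d] (N : ℕ) :
    |(((Icc 1 N).filter (fun n => n.Coprime d)).card : ℝ) - (N : ℝ) * (d.totient : ℝ) / d| ≤ TD d := by
  have hd : d ≠ 0 := NeZero.ne d
  have hd0 : (0 : ℝ) < d := by
    have : 0 < d := Nat.pos_of_ne_zero hd
    exact_mod_cast this
  have h1 : (d.totient : ℝ) = ∑ e ∈ d.divisors, (ArithmeticFunction.moebius e : ℝ) * ((d : ℝ) / e) := by
    rw [← N1_totient d, N1_count d d hd]
    refine Finset.sum_congr rfl (fun e he => ?_)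
    have he0 : (e : ℝ) ≠ 0 := by
      have : e ≠ 0 := (Nat.pos_of_mem_divisors he).ne'
      exact_mod_cast this
    rw [Nat.cast_div (Nat.dvd_of_mem_divisors he) he0]
  have h2 : (N : ℝ) * (d.totient : ℝ) / d =
      ∑ e ∈ d.divisors, (ArithmeticFunction.moebius e : ℝ) * ((N : ℝ) / e) := by
    rw [h1, Finset.mul_sum, Finset.sum_div]
    refine Finset.sum_congr rfl (fun e _ => ?_)
    field_simp
  rw [N1_count d N hd, h2, ← Finset.sum_sub_distrib]
  refine (Finset.abs_sum_le_sum_abs _ _).trans ?_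
  have h3 : ∀ e ∈ d.divisors, |(ArithmeticFunction.moebius e : ℝ) * ((N / e : ℕ) : ℝ) -
      (ArithmeticFunction.moebius e : ℝ) * ((N : ℝ) / e)| ≤ 1 := by
    intro e he
    have he0 : 0 < e := Nat.pos_of_mem_divisors he
    have he1 : (0 : ℝ) < e := by exact_mod_cast he0
    rw [← mul_sub, abs_mul]
    have h4 : |(ArithmeticFunction.moebius e : ℝ)| ≤ 1 := by
      have := ArithmeticFunction.abs_moebius_le_one (n := e)
      exact_mod_cast this
    have h5 : |((N / e : ℕ) : ℝ) - (N : ℝ) / e| ≤ 1 := by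
      have h6 : ((N / e : ℕ) : ℝ) * e ≤ N := by
        have := Nat.div_mul_le_self N e
        exact_mod_cast this
      have h7 : (N : ℝ) ≤ (((N / e : ℕ) : ℝ) + 1) * e := by
        have := (Nat.lt_mul_div_succ N he0).le
        rw [mul_comm] at this
        exact_mod_cast this
      have h8 : ((N / e : ℕ) : ℝ) ≤ (N : ℝ) / e := by
        rw [le_div_iff₀ he1]
        exact h6
      have h9 : (N : ℝ) / e ≤ ((N / e : ℕ) : ℝ) + 1 := by
        rw [div_le_iff₀ he1]
        exact h7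
      rw [abs_le]
      constructor <;> linarith
    calc |(ArithmeticFunction.moebius e : ℝ)| * |((N / e : ℕ) : ℝ) - (N : ℝ) / e| ≤ 1 * 1 :=
          mul_le_mul h4 h5 (abs_nonneg _) zero_le_one
      _ = 1 := one_mul 1
  refine (Finset.sum_le_sum h3).trans ?_
  rw [Finset.sum_const, nsmul_eq_mul, mul_one]
  rfl

end Pool.Agent.Lib.MP_42948a_nt.BM
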