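import Pool.Agent.Lib.MP_42948a_nt.BM.N1
import Pool.Agent.Lib.MP_42948a_nt.OM.B5

/-!
# Harmonic sums over multiples of `e` coprime to `d`, small error term (job N2)

The proof of `coprime_multiples` in `OM/B5.lean` with `coprime_count'` in place of `coprime_count` and `TD d` in place of `BB d` (copy `B5_partial`, `B5_abel`, `coprime_multiples`; `B5_sum_le`, `B5_le_sum`,
`B5_log_bound`, `B5_reindex` can be used as they are; `TD_ge_one` in place of `BB_ge_one`).
-/

namespace Pool.Agent.Lib.MP_42948a_nt.BM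

open Finset Pool.Agent.Lib.MP_42948a_nt.OA Pool.Agent.Lib.MP_42948a_nt.OM

private theorem N2_partial (d : ℕ) [NeZero d] (a u : ℕ) :
    |∑ k ∈ Ioc a u, ((if k.Coprime d then (1 : ℝ) else 0) - (d.totient : ℝ) / d)| ≤ 2 * TD d := by
  rcases lt_or_ge u a with hua | hau
  · rw [Finset.Ioc_eq_empty (by omega), Finset.sum_empty, abs_zero]
    have := TD_ge_one d
    linarith
  · have hB : ∀ N : ℕ, ∑ k ∈ Icc 1 N, ((if k.Coprime d then (1 : ℝ) else 0) - (d.totient : ℝ) / d) =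
        (((Icc 1 N).filter (fun n => n.Coprime d)).card : ℝ) - (N : ℝ) * (d.totient : ℝ) / d := by
      intro N
      rw [Finset.sum_sub_distrib, Finset.sum_const, Nat.card_Icc, Finset.sum_boole, nsmul_eq_mul,
        Nat.add_sub_cancel]
      ring
    have h1 : ∑ k ∈ Ioc a u, ((if k.Coprime d then (1 : ℝ) else 0) - (d.totient : ℝ) / d) =
        ∑ k ∈ Icc 1 u, ((if k.Coprime d then (1 : ℝ) else 0) - (d.totient : ℝ) / d) -
        ∑ k ∈ Icc 1 a, ((if k.Coprime d then (1 : ℝ) else 0) - (d.totient : ℝ) / d) := by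
      rw [eq_sub_iff_add_eq, add_comm]
      have h2 : Icc 1 u = Icc 1 a ∪ Ioc a u := by
        ext k
        simp only [mem_union, mem_Icc, mem_Ioc]
        omega
      rw [h2, Finset.sum_union]
      rw [Finset.disjoint_left]
      intro k hk hk'
      rw [mem_Icc] at hk
      rw [mem_Ioc] at hk'
      omega
    rw [h1, hB, hB]
    have h2 := coprime_count' d u
    have h3 := coprime_count' d a
    calc |((((Icc 1 u).filter (fun n => n.Coprime d)).card : ℝ) - (u : ℝ) * (d.totient : ℝ) / d) -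
          ((((Icc 1 a).filter (fun n => n.Coprime d)).card : ℝ) - (a : ℝ) * (d.totient : ℝ) / d)|
        ≤ |(((Icc 1 u).filter (fun n => n.Coprime d)).card : ℝ) - (u : ℝ) * (d.totient : ℝ) / d| +
          |(((Icc 1 a).filter (fun n => n.Coprime d)).card : ℝ) - (a : ℝ) * (d.totient : ℝ) / d| :=
            abs_sub _ _
      _ ≤ 2 * TD d := by linarith

private theorem N2_abel (d : ℕ) [NeZero d] (a b : ℕ) :
    |∑ k ∈ (Ioc a b).filter (fun k => k.Coprime d), (1 : ℝ) / k -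
      (d.totient : ℝ) / d * ∑ k ∈ Ioc a b, (1 : ℝ) / k| ≤ 2 * TD d * (1 / ((a + 1 : ℕ) : ℝ)) := by
  have hB := TD_ge_one d
  have h1 : ∑ k ∈ (Ioc a b).filter (fun k => k.Coprime d), (1 : ℝ) / k -
      (d.totient : ℝ) / d * ∑ k ∈ Ioc a b, (1 : ℝ) / k =
      ∑ k ∈ Ioc a b, ((if k.Coprime d then (1 : ℝ) else 0) - (d.totient : ℝ) / d) * (1 / (k : ℝ)) := by
    rw [Finset.sum_filter, Finset.mul_sum, ← Finset.sum_sub_distrib]
    apply Finset.sum_congr rfl
    intro k _
    split_ifs <;> ring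
  rw [h1, abs_le]
  have hg0 : ∀ n : ℕ, a < n → (0 : ℝ) ≤ 1 / (n : ℝ) := by
    intro n _
    positivity
  have hanti : ∀ n : ℕ, a < n → (1 : ℝ) / ((n + 1 : ℕ) : ℝ) ≤ 1 / (n : ℝ) := by
    intro n hn
    have hn0 : (0 : ℝ) < n := by
      have : 0 < n := by omega
      exact_mod_cast this
    apply one_div_le_one_div_of_le hn0
    push_cast
    linarith
  constructor
  · have h2 := abel_mono (fun k => -((if k.Coprime d then (1 : ℝ) else 0) - (d.totient : ℝ) / d))
      (fun k => 1 / (k : ℝ)) (2 * TD d) (by linarith) a b hg0 hanti (fun u _ => by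
        have h3 := N2_partial d a u
        rw [abs_le] at h3
        rw [Finset.sum_neg_distrib]
        linarith [h3.1])
    have h4 : ∑ k ∈ Ioc a b, -((if k.Coprime d then (1 : ℝ) else 0) - (d.totient : ℝ) / d) * (1 / (k : ℝ)) =
        -∑ k ∈ Ioc a b, ((if k.Coprime d then (1 : ℝ) else 0) - (d.totient : ℝ) / d) * (1 / (k : ℝ)) := by
      rw [← Finset.sum_neg_distrib]
      apply Finset.sum_congr rfl
      intro k _
      ring
    rw [h4] at h2
    linarith
  · exact abel_mono (fun k => (if k.Coprime d then (1 : ℝ) else 0) - (d.totient : ℝ) / d)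
      (fun k => 1 / (k : ℝ)) (2 * TD d) (by linarith) a b hg0 hanti (fun u _ => by
        have h3 := N2_partial d a u
        rw [abs_le] at h3
        exact h3.2)

theorem coprime_multiples' (d : ℕ) [NeZero d] (e y y' : ℕ) (he : 1 ≤ e) (hed : e.Coprime d)
    (hy : 2 * e ≤ y) (hyy : y ≤ y') :
    |∑ n ∈ (II d y y').filter (fun n => e ∣ n), (1 : ℝ) / n -
      (d.totient : ℝ) / d * Real.log ((y' : ℝ) / y) * (1 / (e : ℝ))| ≤ 4 * TD d / y := by
  have hB := TD_ge_one d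
  have hd0 : (0 : ℝ) < d := by
    have : 0 < d := Nat.pos_of_ne_zero (NeZero.ne d)
    exact_mod_cast this
  have he0 : (0 : ℝ) < e := by exact_mod_cast he
  have hy0 : (0 : ℝ) < y := by
    have : 0 < y := by omega
    exact_mod_cast this
  obtain ⟨θ, hθ⟩ : ∃ θ : ℝ, θ = (d.totient : ℝ) / d := ⟨_, rfl⟩
  have hθ0 : 0 ≤ θ := by rw [hθ]; positivity
  have hθ1 : θ ≤ 1 := by
    rw [hθ, div_le_one hd0]
    exact_mod_cast Nat.totient_le d
  rw [B5_reindex d e y y' he hed]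
  have h1 := N2_abel d (y / e) (y' / e)
  have h2 := B5_log_bound e y y' he hy hyy
  rw [← hθ] at h1 ⊢
  obtain ⟨A, hA⟩ : ∃ A : ℝ, A = ∑ k ∈ (Ioc (y / e) (y' / e)).filter (fun k => k.Coprime d), (1 : ℝ) / k :=
    ⟨_, rfl⟩
  obtain ⟨S, hS⟩ : ∃ S : ℝ, S = ∑ k ∈ Ioc (y / e) (y' / e), (1 : ℝ) / k := ⟨_, rfl⟩
  obtain ⟨Lg, hLg⟩ : ∃ Lg : ℝ, Lg = Real.log ((y' : ℝ) / y) := ⟨_, rfl⟩
  rw [← hA, ← hS] at h1
  rw [← hS, ← hLg] at h2
  rw [← hA, ← hLg]
  have h3 : (1 : ℝ) / ((y / e + 1 : ℕ) : ℝ) ≤ e / y := by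
    rw [div_le_div_iff₀ (by positivity) hy0, one_mul]
    have h4 : y < e * (y / e + 1) := Nat.lt_mul_div_succ y (by omega)
    have h5 : (y : ℝ) < e * ((y / e + 1 : ℕ) : ℝ) := by exact_mod_cast h4
    exact h5.le
  have h4 : |A - θ * S| ≤ 2 * TD d * (e / y) :=
    le_trans h1 (mul_le_mul_of_nonneg_left h3 (by linarith))
  have h5 : |θ * S - θ * Lg| ≤ 2 * (e / y) := by
    rw [← mul_sub, abs_mul, abs_of_nonneg hθ0]
    calc θ * |S - Lg| ≤ 1 * |S - Lg| := mul_le_mul_of_nonneg_right hθ1 (abs_nonneg _)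
      _ = |S - Lg| := one_mul _
      _ ≤ 2 * e / y := h2
      _ = 2 * (e / y) := by ring
  have h6 : |A - θ * Lg| ≤ (2 * TD d + 2) * (e / y) := by
    calc |A - θ * Lg| = |(A - θ * S) + (θ * S - θ * Lg)| := by
          congr 1
          ring
      _ ≤ |A - θ * S| + |θ * S - θ * Lg| := abs_add_le _ _
      _ ≤ 2 * TD d * (e / y) + 2 * (e / y) := add_le_add h4 h5
      _ = (2 * TD d + 2) * (e / y) := by ring
  have h7 : 1 / (e : ℝ) * A - θ * Lg * (1 / (e : ℝ)) = (1 / (e : ℝ)) * (A - θ * Lg) := by ring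
  rw [h7, abs_mul, abs_of_nonneg (by positivity)]
  calc 1 / (e : ℝ) * |A - θ * Lg| ≤ 1 / (e : ℝ) * ((2 * TD d + 2) * (e / y)) :=
        mul_le_mul_of_nonneg_left h6 (by positivity)
    _ = (2 * TD d + 2) / y := by
        field_simp
    _ ≤ 4 * TD d / y := by
        apply div_le_div_of_nonneg_right _ hy0.le
        linarith

end Pool.Agent.Lib.MP_42948a_nt.BM
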