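import Pool.Agent.Lib.MP_42948a_nt.BM.Defs
import Pool.Agent.Lib.MP_42948a_nt.OM.B4
import Pool.Agent.Lib.MP_42948a_nt.OM.B5

/-!
# Character sums over multiples of `e` with Burgess' bound (job N4)

As in `char_multiples` of `OM/B4.lean` the sum is `(χ(e)/e) ∑_{k ∈ Ioc a b} χ(k)/k` with `a = y/e`, `b = y'/e` (natural division; `a ≤ b`), `‖χ e‖ ≤ 1`, `e ≥ 1`. If `b = a` it is `0`. `1 ≤ d^(1/4+κ) ≤ a`.
Let `S u = ∑_{k ∈ Ioc a u} χ k`; for `u ≥ a`: `‖S u‖ ≤ ‖∑_{Icc 1 u}‖ + ‖∑_{Icc 1 a}‖ ≤ 2 u D`, `D = d^(-κ')` (`hB` at `u` and `a`). `B1_ident` (`OM/B1.lean`) with `g k = 1/k`: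
`‖∑_{k ∈ Ioc a b} χ(k)/k‖ ≤ 2 b D/(b+1) + ∑_{k ∈ Ioc a b} 2 k D (1/k - 1/(k+1)) ≤ 2 D (1 + ∑_{k ∈ Ioc a b} 1/k) ≤ 2 D (1 + log b - log a) ≤ 2 D (1 + log y')` (`B5_sum_le`; `log a ≥ 0`, `b ≤ y'`), because
`k (1/k - 1/(k+1)) = 1/(k+1) ≤ 1/k`.
-/

namespace Pool.Agent.Lib.MP_42948a_nt.BM

open Finset Pool.Agent.Lib.MP_42948a_nt.OA Pool.Agent.Lib.MP_42948a_nt.OM

theorem N4_reindex (d : ℕ) [NeZero d] (χ : DirichletCharacter ℂ d) (e y y' : ℕ) (he : 1 ≤ e) :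
    ∑ n ∈ (Ioc y y').filter (fun n => e ∣ n), χ (n : ZMod d) / (n : ℂ) =
      χ (e : ZMod d) / (e : ℂ) * ∑ k ∈ Ioc (y / e) (y' / e), χ (k : ZMod d) * (((1 / (k : ℝ) : ℝ)) : ℂ) := by
  have he0 : 0 < e := he
  have heC : (e : ℂ) ≠ 0 := by exact_mod_cast he0.ne'
  rw [Finset.mul_sum]
  refine Finset.sum_nbij' (fun n => n / e) (fun k => e * k) ?_ ?_ ?_ ?_ ?_
  · intro n hn
    rw [mem_filter, mem_Ioc] at hn
    obtain ⟨⟨h1, h2⟩, k, rfl⟩ := hn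
    rw [mem_Ioc, Nat.mul_div_cancel_left k he0]
    constructor
    · rw [Nat.div_lt_iff_lt_mul he0]
      linarith [mul_comm e k]
    · rw [Nat.le_div_iff_mul_le he0]
      linarith [mul_comm e k]
  · intro k hk
    rw [mem_Ioc] at hk
    rw [mem_filter, mem_Ioc]
    have h1 := (Nat.div_lt_iff_lt_mul he0).1 hk.1
    have h2 := (Nat.le_div_iff_mul_le he0).1 hk.2
    refine ⟨⟨?_, ?_⟩, Dvd.intro _ rfl⟩
    · linarith [mul_comm e k]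
    · linarith [mul_comm e k]
  · intro n hn
    rw [mem_filter] at hn
    exact Nat.mul_div_cancel' hn.2
  · intro k _
    exact Nat.mul_div_cancel_left k he0
  · intro n hn
    rw [mem_filter, mem_Ioc] at hn
    obtain ⟨⟨h1, h2⟩, k, rfl⟩ := hn
    rw [Nat.mul_div_cancel_left k he0]
    push_cast
    rw [map_mul]
    have hk : (k : ℂ) ≠ 0 := by
      rintro hk0
      have : k = 0 := by exact_mod_cast hk0
      subst this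
      omega
    field_simp

theorem N4_interval (κ κ' : ℝ) (d : ℕ) [NeZero d] (hB : BurP κ κ' d) (χ : DirichletCharacter ℂ d)
    (hχ : χ ≠ 1) (a u : ℕ) (ha : (d : ℝ) ^ (1 / 4 + κ) ≤ (a : ℝ)) (hau : a ≤ u) :
    ‖∑ n ∈ Ioc a u, χ (n : ZMod d)‖ ≤ 2 * (u : ℝ) * (d : ℝ) ^ (-κ') := by
  have hauR : (a : ℝ) ≤ u := by exact_mod_cast hau
  have hD : 0 ≤ (d : ℝ) ^ (-κ') := by positivity
  have h1 : ∑ n ∈ Icc 1 u, χ (n : ZMod d) = ∑ n ∈ Icc 1 a, χ (n : ZMod d) +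
      ∑ n ∈ Ioc a u, χ (n : ZMod d) := by
    have e1 : Icc 1 u = Ioc 0 u := by ext x; simp only [mem_Icc, mem_Ioc]; omega
    have e2 : Icc 1 a = Ioc 0 a := by ext x; simp only [mem_Icc, mem_Ioc]; omega
    rw [e1, e2]
    exact (Finset.sum_Ioc_consecutive _ (Nat.zero_le a) hau).symm
  have h2 : ∑ n ∈ Ioc a u, χ (n : ZMod d) = ∑ n ∈ Icc 1 u, χ (n : ZMod d) -
      ∑ n ∈ Icc 1 a, χ (n : ZMod d) := by rw [h1]; ring
  rw [h2]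
  calc ‖∑ n ∈ Icc 1 u, χ (n : ZMod d) - ∑ n ∈ Icc 1 a, χ (n : ZMod d)‖
      ≤ ‖∑ n ∈ Icc 1 u, χ (n : ZMod d)‖ + ‖∑ n ∈ Icc 1 a, χ (n : ZMod d)‖ := norm_sub_le _ _
    _ ≤ (u : ℝ) * (d : ℝ) ^ (-κ') + (a : ℝ) * (d : ℝ) ^ (-κ') :=
        add_le_add (hB χ hχ u (le_trans ha hauR)) (hB χ hχ a ha)
    _ ≤ (u : ℝ) * (d : ℝ) ^ (-κ') + (u : ℝ) * (d : ℝ) ^ (-κ') := by
        have := mul_le_mul_of_nonneg_right hauR hD
        linarith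
    _ = 2 * (u : ℝ) * (d : ℝ) ^ (-κ') := by ring

theorem N4_abel (κ κ' : ℝ) (d : ℕ) [NeZero d] (hB : BurP κ κ' d) (χ : DirichletCharacter ℂ d)
    (hχ : χ ≠ 1) (a b : ℕ) (ha1 : 1 ≤ a) (ha : (d : ℝ) ^ (1 / 4 + κ) ≤ (a : ℝ)) (hab : a ≤ b) :
    ‖∑ k ∈ Ioc a b, χ (k : ZMod d) * (((1 / (k : ℝ) : ℝ)) : ℂ)‖ ≤
      2 * (1 + (Real.log b - Real.log a)) * (d : ℝ) ^ (-κ') := by
  have hD : 0 ≤ (d : ℝ) ^ (-κ') := by positivity
  rw [B1_ident (fun k : ℕ => χ (k : ZMod d)) (fun k : ℕ => (((1 / (k : ℝ) : ℝ)) : ℂ)) a b hab]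
  have h1 : ‖(∑ k ∈ Ioc a b, χ (k : ZMod d)) * (((1 / ((b + 1 : ℕ) : ℝ) : ℝ)) : ℂ)‖ ≤
      2 * (d : ℝ) ^ (-κ') := by
    rw [norm_mul, Complex.norm_real, Real.norm_of_nonneg (by positivity)]
    have h2 := N4_interval κ κ' d hB χ hχ a b ha hab
    have hb : (0 : ℝ) < ((b + 1 : ℕ) : ℝ) := by positivity
    calc ‖∑ k ∈ Ioc a b, χ (k : ZMod d)‖ * (1 / ((b + 1 : ℕ) : ℝ))
        ≤ (2 * (b : ℝ) * (d : ℝ) ^ (-κ')) * (1 / ((b + 1 : ℕ) : ℝ)) :=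
          mul_le_mul_of_nonneg_right h2 (by positivity)
      _ = (2 * (d : ℝ) ^ (-κ')) * ((b : ℝ) / ((b + 1 : ℕ) : ℝ)) := by ring
      _ ≤ (2 * (d : ℝ) ^ (-κ')) * 1 := by
          apply mul_le_mul_of_nonneg_left _ (by positivity)
          rw [div_le_one hb]
          push_cast
          linarith
      _ = 2 * (d : ℝ) ^ (-κ') := mul_one _
  have h2 : ‖∑ n ∈ Ioc a b, (∑ m ∈ Ioc a n, χ (m : ZMod d)) *
      ((((1 / (n : ℝ) : ℝ)) : ℂ) - (((1 / ((n + 1 : ℕ) : ℝ) : ℝ)) : ℂ))‖ ≤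
      ∑ n ∈ Ioc a b, (2 * (d : ℝ) ^ (-κ')) * ((1 : ℝ) / n) := by
    refine norm_sum_le_of_le _ (fun n hn => ?_)
    rw [mem_Ioc] at hn
    have hn0 : (0 : ℝ) < n := by
      have : 0 < n := by omega
      exact_mod_cast this
    have h4 : ((((1 / (n : ℝ) : ℝ)) : ℂ) - (((1 / ((n + 1 : ℕ) : ℝ) : ℝ)) : ℂ)) =
        ((1 / (n : ℝ) - 1 / ((n + 1 : ℕ) : ℝ) : ℝ) : ℂ) := by push_cast; rfl
    have h5 : 1 / (n : ℝ) - 1 / ((n + 1 : ℕ) : ℝ) = 1 / ((n : ℝ) * ((n + 1 : ℕ) : ℝ)) := by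
      push_cast
      field_simp
      ring
    rw [h4, h5, norm_mul, Complex.norm_real, Real.norm_of_nonneg (by positivity)]
    have h6 := N4_interval κ κ' d hB χ hχ a n ha hn.1.le
    calc ‖∑ m ∈ Ioc a n, χ (m : ZMod d)‖ * (1 / ((n : ℝ) * ((n + 1 : ℕ) : ℝ)))
        ≤ (2 * (n : ℝ) * (d : ℝ) ^ (-κ')) * (1 / ((n : ℝ) * ((n + 1 : ℕ) : ℝ))) :=
          mul_le_mul_of_nonneg_right h6 (by positivity)
      _ = (2 * (d : ℝ) ^ (-κ')) * (1 / ((n + 1 : ℕ) : ℝ)) := by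
          field_simp
      _ ≤ (2 * (d : ℝ) ^ (-κ')) * ((1 : ℝ) / n) := by
          apply mul_le_mul_of_nonneg_left _ (by positivity)
          apply one_div_le_one_div_of_le hn0
          push_cast
          linarith
  rw [← Finset.mul_sum] at h2
  have h3 := B5_sum_le a b ha1 hab
  have h4 : (2 * (d : ℝ) ^ (-κ')) * ∑ n ∈ Ioc a b, (1 : ℝ) / n ≤
      (2 * (d : ℝ) ^ (-κ')) * (Real.log b - Real.log a) :=
    mul_le_mul_of_nonneg_left h3 (by positivity)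
  refine (norm_add_le _ _).trans ?_
  refine (add_le_add h1 (h2.trans h4)).trans (le_of_eq ?_)
  ring

theorem char_multiples' (κ κ' : ℝ) (hκ : 0 < κ) (d : ℕ) [NeZero d] (hB : BurP κ κ' d) (χ : DirichletCharacter ℂ d)
    (hχ : χ ≠ 1) (e y y' : ℕ) (he : 1 ≤ e) (hy : (d : ℝ) ^ (1 / 4 + κ) ≤ ((y / e : ℕ) : ℝ)) (hyy : y ≤ y') :
    ‖∑ n ∈ (Ioc y y').filter (fun n => e ∣ n), χ (n : ZMod d) / (n : ℂ)‖ ≤
      2 * (2 + Real.log y') * (d : ℝ) ^ (-κ') := by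
  have hD : 0 ≤ (d : ℝ) ^ (-κ') := by positivity
  have hd0 : 0 < d := Nat.pos_of_ne_zero (NeZero.ne d)
  have hd1 : (1 : ℝ) ≤ d := by exact_mod_cast hd0
  have he0 : 0 < e := he
  have heR : (1 : ℝ) ≤ e := by exact_mod_cast he
  have h1 : (1 : ℝ) ≤ (d : ℝ) ^ (1 / 4 + κ) := Real.one_le_rpow hd1 (by linarith)
  have ha1 : 1 ≤ y / e := by
    have : (1 : ℝ) ≤ ((y / e : ℕ) : ℝ) := h1.trans hy
    exact_mod_cast this
  have hab : y / e ≤ y' / e := Nat.div_le_div_right hyy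
  have hy'e : 1 ≤ y' / e := ha1.trans hab
  have hby : y' / e ≤ y' := Nat.div_le_self _ _
  have h2 := N4_abel κ κ' d hB χ hχ (y / e) (y' / e) ha1 hy hab
  have hla : 0 ≤ Real.log ((y / e : ℕ) : ℝ) := Real.log_nonneg (by exact_mod_cast ha1)
  have hlb : Real.log ((y' / e : ℕ) : ℝ) ≤ Real.log y' := by
    apply Real.log_le_log
    · have : 0 < y' / e := hy'e
      exact_mod_cast this
    · exact_mod_cast hby
  have hly : 0 ≤ Real.log (y' : ℝ) := by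
    apply Real.log_nonneg
    exact_mod_cast hy'e.trans hby
  rw [N4_reindex d χ e y y' he, norm_mul, norm_div]
  have h3 : ‖χ (e : ZMod d)‖ ≤ 1 := DirichletCharacter.norm_le_one χ _
  have h4 : ‖(e : ℂ)‖ = e := by simp
  rw [h4]
  have h5 : ‖χ (e : ZMod d)‖ / (e : ℝ) ≤ 1 := by
    rw [div_le_one (by linarith)]
    linarith
  calc ‖χ (e : ZMod d)‖ / (e : ℝ) * ‖∑ k ∈ Ioc (y / e) (y' / e), χ (k : ZMod d) * (((1 / (k : ℝ) : ℝ)) : ℂ)‖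
      ≤ 1 * (2 * (1 + (Real.log ((y' / e : ℕ) : ℝ) - Real.log ((y / e : ℕ) : ℝ))) * (d : ℝ) ^ (-κ')) :=
        mul_le_mul h5 h2 (norm_nonneg _) zero_le_one
    _ ≤ 2 * (2 + Real.log y') * (d : ℝ) ^ (-κ') := by
        rw [one_mul]
        apply mul_le_mul_of_nonneg_right _ hD
        linarith

end Pool.Agent.Lib.MP_42948a_nt.BM
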