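import Pool.Agent.Lib.MP_42948a_nt.BM.Defs
import Pool.Agent.Lib.MP_42948a_nt.OM.G2

/-!
# The eighth moment (job N9b)

`ac N v χ ^ 4 = ∑_{x ∈ (N ×ˢ N) ×ˢ (N ×ˢ N)} (v/n)(v/n)(v/n)(v/n) χ(n1 n2 (n3 n4))` (`G2_sq` of `OM/G2.lean` twice, `Finset.sum_mul_sum`, `Finset.sum_product`), so by `parseval_class` (`OM/A1.lean`; `n1 n2 (n3 n4)` is coprime to
`d`) `∑ χ, ‖ac N v χ‖^8 = φ(d) ∑ b, ‖cw b‖^2`, `‖cw b‖ ≤ r b := ∑_{x : n1 n2 (n3 n4) ≡ b} 1/(n1 n2 (n3 n4)) ≤ R`, and `∑ b, r b = (WW N)^4` (`G2_fiber`, `G2_WW`). So the moment is `≤ φ(d) R (WW N)^4`.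
-/

namespace Pool.Agent.Lib.MP_42948a_nt.BM

open Finset Pool.Agent.Lib.MP_42948a_nt.OA Pool.Agent.Lib.MP_42948a_nt.OM

private theorem N9b_quad (d : ℕ) (N : Finset ℕ) (v : ℕ → ℂ) (χ : DirichletCharacter ℂ d) :
    ac N v χ ^ 4 = ∑ x ∈ (N ×ˢ N) ×ˢ (N ×ˢ N),
      ((v x.1.1 / (x.1.1 : ℂ) * (v x.1.2 / (x.1.2 : ℂ))) *
        (v x.2.1 / (x.2.1 : ℂ) * (v x.2.2 / (x.2.2 : ℂ)))) *
      χ ((x.1.1 * x.1.2 * (x.2.1 * x.2.2) : ℕ) : ZMod d) := by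
  have e : ac N v χ ^ 4 = ac N v χ ^ 2 * ac N v χ ^ 2 := by ring
  rw [e, G2_sq, Finset.sum_mul_sum, ← Finset.sum_product']
  refine Finset.sum_congr rfl (fun x _ => ?_)
  rw [Nat.cast_mul (x.1.1 * x.1.2) (x.2.1 * x.2.2), map_mul]
  ring

private theorem N9b_WW (N : Finset ℕ) :
    ∑ x ∈ (N ×ˢ N) ×ˢ (N ×ˢ N), (1 : ℝ) / ((x.1.1 : ℝ) * x.1.2 * ((x.2.1 : ℝ) * x.2.2)) =
      WW N ^ 4 := by
  have e : WW N ^ 4 = WW N ^ 2 * WW N ^ 2 := by ring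
  rw [e, ← G2_WW, Finset.sum_mul_sum, ← Finset.sum_product']
  refine Finset.sum_congr rfl (fun x _ => ?_)
  rw [div_mul_div_comm, one_mul]

theorem eighth_moment (d : ℕ) [NeZero d] (N : Finset ℕ) (hN : ∀ n ∈ N, n.Coprime d) (R : ℝ)
    (hR : ∀ b : (ZMod d)ˣ, ∑ x ∈ ((N ×ˢ N) ×ˢ (N ×ˢ N)).filter
        (fun x => ((x.1.1 * x.1.2 * (x.2.1 * x.2.2) : ℕ) : ZMod d) = (b : ZMod d)),
      (1 : ℝ) / ((x.1.1 : ℝ) * x.1.2 * ((x.2.1 : ℝ) * x.2.2)) ≤ R) (v : ℕ → ℂ) (hv : ∀ n, ‖v n‖ ≤ 1) :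
    ∑ χ : DirichletCharacter ℂ d, ‖ac N v χ‖ ^ 8 ≤ (d.totient : ℝ) * R * WW N ^ 4 := by
  classical
  have hX : ∀ x ∈ (N ×ˢ N) ×ˢ (N ×ˢ N),
      IsUnit (((x.1.1 * x.1.2 * (x.2.1 * x.2.2) : ℕ) : ZMod d)) := by
    intro x hx
    rw [Finset.mem_product, Finset.mem_product, Finset.mem_product] at hx
    rw [ZMod.isUnit_iff_coprime]
    exact Nat.Coprime.mul_left (Nat.Coprime.mul_left (hN _ hx.1.1) (hN _ hx.1.2))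
      (Nat.Coprime.mul_left (hN _ hx.2.1) (hN _ hx.2.2))
  have h1 : ∑ χ : DirichletCharacter ℂ d, ‖ac N v χ‖ ^ 8 =
      ∑ χ : DirichletCharacter ℂ d, ‖∑ x ∈ (N ×ˢ N) ×ˢ (N ×ˢ N),
        ((v x.1.1 / (x.1.1 : ℂ) * (v x.1.2 / (x.1.2 : ℂ))) *
          (v x.2.1 / (x.2.1 : ℂ) * (v x.2.2 / (x.2.2 : ℂ)))) *
        χ ((x.1.1 * x.1.2 * (x.2.1 * x.2.2) : ℕ) : ZMod d)‖ ^ 2 := by
    refine Finset.sum_congr rfl (fun χ _ => ?_)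
    rw [← N9b_quad, norm_pow, ← pow_mul]
  rw [h1, parseval_class d ((N ×ˢ N) ×ˢ (N ×ˢ N))
    (fun x => ((x.1.1 * x.1.2 * (x.2.1 * x.2.2) : ℕ) : ZMod d))
    (fun x => (v x.1.1 / (x.1.1 : ℂ) * (v x.1.2 / (x.1.2 : ℂ))) *
      (v x.2.1 / (x.2.1 : ℂ) * (v x.2.2 / (x.2.2 : ℂ)))) hX, mul_assoc]
  refine mul_le_mul_of_nonneg_left ?_ (Nat.cast_nonneg _)
  rw [← N9b_WW, ← G2_fiber d ((N ×ˢ N) ×ˢ (N ×ˢ N))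
    (fun x => ((x.1.1 * x.1.2 * (x.2.1 * x.2.2) : ℕ) : ZMod d)) _ hX, Finset.mul_sum]
  refine Finset.sum_le_sum (fun b _ => ?_)
  have hc2 : ∀ a b : ℕ, ‖v a / (a : ℂ) * (v b / (b : ℂ))‖ ≤ (1 : ℝ) / ((a : ℝ) * b) := by
    intro a b
    rw [norm_mul, norm_div, norm_div, Complex.norm_natCast, Complex.norm_natCast,
      div_mul_div_comm]
    refine div_le_div_of_nonneg_right ?_ (by positivity)
    exact mul_le_one₀ (hv _) (norm_nonneg _) (hv _)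
  have hc : ∀ x : (ℕ × ℕ) × (ℕ × ℕ), ‖(v x.1.1 / (x.1.1 : ℂ) * (v x.1.2 / (x.1.2 : ℂ))) *
      (v x.2.1 / (x.2.1 : ℂ) * (v x.2.2 / (x.2.2 : ℂ)))‖ ≤
      (1 : ℝ) / ((x.1.1 : ℝ) * x.1.2 * ((x.2.1 : ℝ) * x.2.2)) := by
    intro x
    rw [norm_mul]
    refine (mul_le_mul (hc2 _ _) (hc2 _ _) (norm_nonneg _) (by positivity)).trans (le_of_eq ?_)
    rw [div_mul_div_comm, one_mul]
  have h2 : ‖cw ((N ×ˢ N) ×ˢ (N ×ˢ N))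
      (fun x => ((x.1.1 * x.1.2 * (x.2.1 * x.2.2) : ℕ) : ZMod d))
      (fun x => (v x.1.1 / (x.1.1 : ℂ) * (v x.1.2 / (x.1.2 : ℂ))) *
        (v x.2.1 / (x.2.1 : ℂ) * (v x.2.2 / (x.2.2 : ℂ)))) b‖ ≤
      ∑ x ∈ ((N ×ˢ N) ×ˢ (N ×ˢ N)).filter
        (fun x => ((x.1.1 * x.1.2 * (x.2.1 * x.2.2) : ℕ) : ZMod d) = (b : ZMod d)),
        (1 : ℝ) / ((x.1.1 : ℝ) * x.1.2 * ((x.2.1 : ℝ) * x.2.2)) := by
    unfold cw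
    refine (norm_sum_le _ _).trans ?_
    refine le_trans (Finset.sum_le_sum (fun x _ => hc x)) (le_of_eq ?_)
    refine Finset.sum_congr ?_ (fun _ _ => rfl)
    ext x
    simp only [Finset.mem_filter]
  have h3 := hR b
  have h2' : ‖cw ((N ×ˢ N) ×ˢ (N ×ˢ N))
      (fun x => ((x.1.1 * x.1.2 * (x.2.1 * x.2.2) : ℕ) : ZMod d))
      (fun x => (v x.1.1 / (x.1.1 : ℂ) * (v x.1.2 / (x.1.2 : ℂ))) *
        (v x.2.1 / (x.2.1 : ℂ) * (v x.2.2 / (x.2.2 : ℂ)))) b‖ ≤ R := by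
    refine h2.trans (le_trans (le_of_eq ?_) h3)
    refine Finset.sum_congr ?_ (fun _ _ => rfl)
    ext x
    simp only [Finset.mem_filter]
  have h4 : 0 ≤ ‖cw ((N ×ˢ N) ×ˢ (N ×ˢ N))
      (fun x => ((x.1.1 * x.1.2 * (x.2.1 * x.2.2) : ℕ) : ZMod d))
      (fun x => (v x.1.1 / (x.1.1 : ℂ) * (v x.1.2 / (x.1.2 : ℂ))) *
        (v x.2.1 / (x.2.1 : ℂ) * (v x.2.2 / (x.2.2 : ℂ)))) b‖ := norm_nonneg _
  rw [sq]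
  refine mul_le_mul h2' (h2.trans (le_of_eq ?_)) h4 (h4.trans h2')
  refine Finset.sum_congr ?_ (fun _ _ => rfl)
  ext x
  simp only [Finset.mem_filter]

end Pool.Agent.Lib.MP_42948a_nt.BM
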