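import Pool.Agent.Lib.MP_42948a_nt.BM.A5

/-!
# The step count (job S1)

As `step_count` in `OM/H2.lean` (copy and adapt what helps). `ν = β^2/16`. For a unit `b`, `a ∈ Q` let `x a = b * (ucl a)⁻¹`, so `(a : ZMod d) * (x a) = b`.
`V b = ∑_{a ∈ Q} ω a es (1 * Om a) κ(b (ucl a)⁻¹)`, `e b = ∑_{a ∈ Q : x a ∈ E} ω a`.
(1) `∑_b e b = #E` (`∑ ω = 1`; `b ↦ x a` is a bijection), so at most `#E/ν` units have `e b > ν` (Markov).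
(2) Put `κ' g = κ (g⁻¹)`: `κ (b (ucl a)⁻¹) = κ' (b⁻¹ ucl a)`, so `V b = ∑_χ FT κ' χ χ(b⁻¹) AA 1 χ` (`FT_inv`, `ucl_val`). Part `χ ∈ offX X`, call it `R b`: `∑_b ‖R b‖^2 = φ ∑_{χ ∈ offX X} ‖FT κ' χ‖^2 ‖AA 1 χ‖^2 ≤ φ s^2`
(`FT_parseval`, `FT_uniq` for the function `g ↦ R (g⁻¹)`; `W.off`; `∑ ‖FT κ'‖^2 ≤ 1`), so at most `s^2 φ/ν^2` units have `‖R b‖ ≥ ν` (`card_large`, `OM/A2.lean`).
(3) Part `χ ∈ X`: Cauchy-Schwarz: `≤ √(∑ ‖FT κ'‖^2) √(∑_{X} ‖AA 1‖^2) ≤ √(1 - β^2/2) ≤ 1 - β^2/4` (`W.gap`).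
(4) For `b ∈ B` with `e b ≤ ν`, `‖R b‖ < ν`: for `a ∈ Q` with `x a ∉ E`: `es (Om a) κ (x a) = ze m ^ Om a * κ (x a) = v` (`es_nat`), so `‖V b‖ ≥ (1 - e b) - e b ≥ 1 - 2 ν` and `‖V b‖ < 1 - β^2/4 + ν`:
`3 ν > β^2/4`, false. So `#B ≤ #E/ν + s^2 φ/ν^2`.
-/

namespace Pool.Agent.Lib.MP_42948a_nt.BM

open Finset Pool.Agent.Lib.MP_42948a_nt.OA Pool.Agent.Lib.MP_42948a_nt.OM

open Classical in
/-- the weight of the `a` whose partner is exceptional -/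
noncomputable def S1_e (d : ℕ) (Q : Finset ℕ) (ω : ℕ → ℝ) (E : Finset (ZMod d)ˣ) (b : (ZMod d)ˣ) : ℝ :=
  ∑ a ∈ Q, if b * (ucl d a)⁻¹ ∈ E then ω a else 0

theorem S1_e_nonneg (d : ℕ) (Q : Finset ℕ) (ω : ℕ → ℝ) (hω : ∀ a ∈ Q, 0 ≤ ω a)
    (E : Finset (ZMod d)ˣ) (b : (ZMod d)ˣ) : 0 ≤ S1_e d Q ω E b := by
  refine sum_nonneg fun a ha => ?_
  split_ifs
  · exact hω a ha
  · exact le_refl _

theorem S1_e_sum (d : ℕ) [NeZero d] (Q : Finset ℕ) (ω : ℕ → ℝ) (h1 : ∑ a ∈ Q, ω a = 1)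
    (E : Finset (ZMod d)ˣ) : ∑ b : (ZMod d)ˣ, S1_e d Q ω E b = E.card := by
  classical
  simp only [S1_e]
  rw [sum_comm]
  have h : ∀ a ∈ Q, ∑ b : (ZMod d)ˣ, (if b * (ucl d a)⁻¹ ∈ E then ω a else 0) =
      (E.card : ℝ) * ω a := by
    intro a _
    have h2 : ∑ b : (ZMod d)ˣ, (if b * (ucl d a)⁻¹ ∈ E then ω a else 0) =
        ∑ x : (ZMod d)ˣ, (if x ∈ E then ω a else 0) :=
      Equiv.sum_comp (Equiv.mulRight (ucl d a)⁻¹) (fun x => if x ∈ E then ω a else 0)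
    rw [h2, Finset.sum_ite_mem, Finset.univ_inter, sum_const, nsmul_eq_mul]
  rw [sum_congr rfl h, ← mul_sum, h1, mul_one]

open Classical in
theorem S1_markov (d : ℕ) [NeZero d] (Q : Finset ℕ) (ω : ℕ → ℝ) (hω : ∀ a ∈ Q, 0 ≤ ω a)
    (h1 : ∑ a ∈ Q, ω a = 1) (E : Finset (ZMod d)ˣ) (ν : ℝ) (hν : 0 < ν) :
    ((univ.filter (fun b => ν < S1_e d Q ω E b)).card : ℝ) ≤ E.card / ν := by
  rw [le_div_iff₀ hν, ← S1_e_sum d Q ω h1 E, ← nsmul_eq_mul, ← sum_const]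
  refine (sum_le_sum fun b hb => ((mem_filter.mp hb).2).le).trans ?_
  exact sum_le_sum_of_subset_of_nonneg (filter_subset _ _) fun b _ _ => S1_e_nonneg d Q ω hω E b

/-- lower bound for the sum when the values agree outside the exceptional terms -/
theorem S1_lower (d : ℕ) (Q : Finset ℕ) (ω : ℕ → ℝ) (hω : ∀ a ∈ Q, 0 ≤ ω a)
    (h1 : ∑ a ∈ Q, ω a = 1) (E : Finset (ZMod d)ˣ) (b : (ZMod d)ˣ) (G : ℕ → ℂ)
    (hG : ∀ a, ‖G a‖ ≤ 1) (v : ℂ) (hv : ‖v‖ = 1)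
    (h : ∀ a ∈ Q, b * (ucl d a)⁻¹ ∉ E → G a = v) :
    1 - 2 * S1_e d Q ω E b ≤ ‖∑ a ∈ Q, (ω a : ℂ) * G a‖ := by
  classical
  have h2 : ∑ a ∈ Q, (ω a : ℂ) * v = v := by
    rw [← sum_mul, ← Complex.ofReal_sum, h1, Complex.ofReal_one, one_mul]
  have h3 : ‖∑ a ∈ Q, (ω a : ℂ) * v - ∑ a ∈ Q, (ω a : ℂ) * G a‖ ≤ 2 * S1_e d Q ω E b := by
    rw [← sum_sub_distrib, S1_e, mul_sum]
    refine (norm_sum_le _ _).trans (sum_le_sum fun a ha => ?_)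
    rw [← mul_sub, norm_mul, Complex.norm_real, Real.norm_eq_abs, abs_of_nonneg (hω a ha)]
    by_cases hx : b * (ucl d a)⁻¹ ∈ E
    · rw [if_pos hx]
      have h4 : ‖v - G a‖ ≤ 2 := by
        refine (norm_sub_le _ _).trans ?_
        have := hG a
        linarith
      calc ω a * ‖v - G a‖ ≤ ω a * 2 := mul_le_mul_of_nonneg_left h4 (hω a ha)
        _ = 2 * ω a := by ring
    · rw [if_neg hx, h a ha hx, sub_self, norm_zero, mul_zero, mul_zero]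
  rw [h2] at h3
  have h6 := norm_sub_norm_le v (∑ a ∈ Q, (ω a : ℂ) * G a)
  rw [hv] at h6
  linarith

open Classical in
/-- the part of the characters outside `X` -/
theorem S1_few {d : ℕ} [NeZero d] (X : Finset (DirichletCharacter ℂ d))
    (c k : DirichletCharacter ℂ d → ℂ) (s ν : ℝ) (hs : 0 ≤ s) (hν : 0 < ν)
    (hc : ∀ χ, χ ∉ X → ‖c χ‖ ≤ s * ‖k χ‖) (hk : ∑ χ : DirichletCharacter ℂ d, ‖k χ‖ ^ 2 ≤ 1) :
    ((univ.filter (fun b : (ZMod d)ˣ => ν ≤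
      ‖∑ χ ∈ offX X, c χ * χ ((b⁻¹ : (ZMod d)ˣ) : ZMod d)‖)).card : ℝ) ≤
      s ^ 2 * (d.totient : ℝ) / ν ^ 2 := by
  have hφ : (0 : ℝ) < d.totient := by
    exact_mod_cast Nat.totient_pos.mpr (Nat.pos_of_ne_zero (NeZero.ne d))
  rw [le_div_iff₀ (by positivity)]
  refine (card_large (fun b : (ZMod d)ˣ => ∑ χ ∈ offX X, c χ * χ ((b⁻¹ : (ZMod d)ˣ) : ZMod d))
    ν hν).trans ?_
  let R : (ZMod d)ˣ → ℂ := fun g => ∑ χ ∈ offX X, c χ * χ (g : ZMod d)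
  have h1 : ∑ b : (ZMod d)ˣ, ‖∑ χ ∈ offX X, c χ * χ ((b⁻¹ : (ZMod d)ˣ) : ZMod d)‖ ^ 2 =
      ∑ g : (ZMod d)ˣ, ‖R g‖ ^ 2 := Equiv.sum_comp (Equiv.inv _) (fun g => ‖R g‖ ^ 2)
  rw [h1]
  have h2 : ∀ g : (ZMod d)ˣ, R g = ∑ χ : DirichletCharacter ℂ d,
      (if χ ∈ X then 0 else c χ) * χ (g : ZMod d) := by
    intro g
    rw [sum_offX X]
    have h3 : ∑ χ ∈ X, (if χ ∈ X then 0 else c χ) * χ (g : ZMod d) = 0 := by
      refine sum_eq_zero fun χ hχ => ?_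
      rw [if_pos hχ, zero_mul]
    rw [h3, zero_add]
    refine sum_congr rfl fun χ hχ => ?_
    rw [if_neg (mem_offX.1 hχ)]
  have h3 := FT_parseval R
  have h4 : ∑ χ : DirichletCharacter ℂ d, ‖FT R χ‖ ^ 2 ≤ s ^ 2 := by
    calc ∑ χ : DirichletCharacter ℂ d, ‖FT R χ‖ ^ 2
        ≤ ∑ χ : DirichletCharacter ℂ d, s ^ 2 * ‖k χ‖ ^ 2 := by
          refine sum_le_sum fun χ _ => ?_
          rw [FT_uniq _ R h2 χ]
          by_cases h : χ ∈ X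
          · rw [if_pos h, norm_zero, zero_pow two_ne_zero]
            positivity
          · rw [if_neg h, ← mul_pow]
            exact pow_le_pow_left₀ (norm_nonneg _) (hc χ h) 2
      _ = s ^ 2 * ∑ χ : DirichletCharacter ℂ d, ‖k χ‖ ^ 2 := by rw [mul_sum]
      _ ≤ s ^ 2 * 1 := mul_le_mul_of_nonneg_left hk (by positivity)
      _ = s ^ 2 := mul_one _
  rw [h3, div_le_iff₀ hφ] at h4
  exact h4

theorem step_count {m d : ℕ} [NeZero m] [NeZero d] {z Y : ℕ} {β τ s s2 : ℝ} (W : Wlk m d z Y β τ s s2) (hβ : 0 < β)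
    (hs : 0 ≤ s) (κ : (ZMod d)ˣ → ℂ) (hκ : ∀ x, ‖κ x‖ ≤ 1) (E B : Finset (ZMod d)ˣ)
    (hB : ∀ b ∈ B, ∃ v : ℂ, ‖v‖ = 1 ∧ ∀ a ∈ W.Q, ∀ x : (ZMod d)ˣ, x ∉ E →
      ((a : ℕ) : ZMod d) * (x : ZMod d) = (b : ZMod d) → ze m ^ Om a * κ x = v) :
    (B.card : ℝ) ≤ 16 / β ^ 2 * E.card + 256 * s ^ 2 * (d.totient : ℝ) / β ^ 4 := by
  classical
  have hφ : (0 : ℝ) < d.totient := by
    exact_mod_cast Nat.totient_pos.mpr (Nat.pos_of_ne_zero (NeZero.ne d))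
  have hν : 0 < β ^ 2 / 16 := by positivity
  let κ' : (ZMod d)ˣ → ℂ := fun g => κ g⁻¹
  let F : (ZMod d)ˣ → ℂ := fun g => ∑ a ∈ W.Q, ((W.ω a : ℂ) * es ((1 : ZMod m) * (Om a : ZMod m))) *
    κ' (g * ucl d a)
  have hk : ∑ χ : DirichletCharacter ℂ d, ‖FT κ' χ‖ ^ 2 ≤ 1 := by
    rw [FT_parseval, div_le_one hφ]
    calc ∑ g : (ZMod d)ˣ, ‖κ' g‖ ^ 2 ≤ ∑ g : (ZMod d)ˣ, (1 : ℝ) :=
          sum_le_sum fun g _ => pow_le_one₀ (norm_nonneg _) (hκ _)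
      _ = d.totient := by
          rw [sum_const, card_univ, ZMod.card_units_eq_totient, nsmul_eq_mul, mul_one]
  have hFT : ∀ χ, FT F χ = AA W.Q W.ω (1 : ZMod m) χ * FT κ' χ := fun χ =>
    FT_walk W.Q (fun a => (W.ω a : ℂ) * es ((1 : ZMod m) * (Om a : ZMod m))) W.cop κ' χ
  have hF : ∀ g, F g = ∑ χ ∈ W.X, FT F χ * χ (g : ZMod d) +
      ∑ χ ∈ offX W.X, FT F χ * χ (g : ZMod d) := by
    intro g
    rw [← sum_offX W.X (fun χ => FT F χ * χ (g : ZMod d))]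
    exact FT_inv F g
  -- the two exceptional sets
  have e1 := S1_markov d W.Q W.ω W.nonneg W.sum_one E (β ^ 2 / 16) hν
  have e2 := S1_few W.X (FT F) (FT κ') s (β ^ 2 / 16) hs hν (fun χ hχ => by
    rw [hFT, norm_mul]
    exact mul_le_mul_of_nonneg_right (W.off 1 χ hχ) (norm_nonneg _)) hk
  -- the part of the characters of `X`
  have hXpart : ∀ g : (ZMod d)ˣ, ‖∑ χ ∈ W.X, FT F χ * χ (g : ZMod d)‖ ^ 2 ≤ 1 - β ^ 2 / 2 := by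
    intro g
    have h1 : ‖∑ χ ∈ W.X, FT F χ * χ (g : ZMod d)‖ ≤
        ∑ χ ∈ W.X, ‖AA W.Q W.ω (1 : ZMod m) χ‖ * ‖FT κ' χ‖ := by
      refine (norm_sum_le _ _).trans (sum_le_sum fun χ _ => ?_)
      rw [norm_mul, norm_char_unit, mul_one, hFT, norm_mul]
    have h2 := Finset.sum_mul_sq_le_sq_mul_sq W.X (fun χ => ‖AA W.Q W.ω (1 : ZMod m) χ‖)
      (fun χ => ‖FT κ' χ‖)
    have h3 : ∑ χ ∈ W.X, ‖FT κ' χ‖ ^ 2 ≤ 1 :=
      (sum_le_sum_of_subset_of_nonneg (subset_univ _) fun _ _ _ => by positivity).trans hk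
    have h4 : 0 ≤ ∑ χ ∈ W.X, ‖AA W.Q W.ω (1 : ZMod m) χ‖ ^ 2 :=
      sum_nonneg fun _ _ => by positivity
    calc ‖∑ χ ∈ W.X, FT F χ * χ (g : ZMod d)‖ ^ 2
        ≤ (∑ χ ∈ W.X, ‖AA W.Q W.ω (1 : ZMod m) χ‖ * ‖FT κ' χ‖) ^ 2 :=
          pow_le_pow_left₀ (norm_nonneg _) h1 2
      _ ≤ (∑ χ ∈ W.X, ‖AA W.Q W.ω (1 : ZMod m) χ‖ ^ 2) * ∑ χ ∈ W.X, ‖FT κ' χ‖ ^ 2 := h2
      _ ≤ (∑ χ ∈ W.X, ‖AA W.Q W.ω (1 : ZMod m) χ‖ ^ 2) * 1 := mul_le_mul_of_nonneg_left h3 h4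
      _ ≤ 1 - β ^ 2 / 2 := by rw [mul_one]; exact W.gap
  have hsub : B ⊆ (univ.filter (fun b => β ^ 2 / 16 < S1_e d W.Q W.ω E b)) ∪
      (univ.filter (fun b : (ZMod d)ˣ => β ^ 2 / 16 ≤
        ‖∑ χ ∈ offX W.X, FT F χ * χ ((b⁻¹ : (ZMod d)ˣ) : ZMod d)‖)) := by
    intro b hb
    rw [mem_union, mem_filter, mem_filter]
    by_contra hcon
    push Not at hcon
    have c1 := hcon.1 (mem_univ _)
    have c2 := hcon.2 (mem_univ _)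
    obtain ⟨v, hv, hv'⟩ := hB b hb
    have l1 := S1_lower d W.Q W.ω W.nonneg W.sum_one E b
      (fun a => ze m ^ Om a * κ (b * (ucl d a)⁻¹))
      (fun a => by
        have h1 : ‖ze m ^ Om a‖ = 1 := by rw [← es_nat (m := m), es_norm]
        rw [norm_mul, h1, one_mul]
        exact hκ _) v hv
      (fun a ha hx => hv' a ha _ hx (by
        rw [← ucl_val (W.cop a ha), ← Units.val_mul, mul_comm b, mul_inv_cancel_left]))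
    have l2 : ∑ a ∈ W.Q, (W.ω a : ℂ) * (ze m ^ Om a * κ (b * (ucl d a)⁻¹)) = F b⁻¹ := by
      refine sum_congr rfl fun a _ => ?_
      have h1 : κ' (b⁻¹ * ucl d a) = κ (b * (ucl d a)⁻¹) := by
        show κ (b⁻¹ * ucl d a)⁻¹ = _
        rw [mul_inv_rev, inv_inv, mul_comm]
      rw [h1, one_mul, es_nat, mul_assoc]
    rw [l2, hF] at l1
    have l3 := norm_add_le (∑ χ ∈ W.X, FT F χ * χ ((b⁻¹ : (ZMod d)ˣ) : ZMod d))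
      (∑ χ ∈ offX W.X, FT F χ * χ ((b⁻¹ : (ZMod d)ˣ) : ZMod d))
    have l4 := hXpart b⁻¹
    generalize ‖∑ χ ∈ W.X, FT F χ * χ ((b⁻¹ : (ZMod d)ˣ) : ZMod d)‖ = A at l3 l4
    have l5 : 1 - 3 * (β ^ 2 / 16) ≤ A := by
      have := l1.trans l3
      linarith
    have hb2 : β ^ 2 ≤ 2 := by
      have := sq_nonneg A
      linarith
    have l6 : 0 ≤ 1 - 3 * (β ^ 2 / 16) := by linarith
    have l7 : (1 - 3 * (β ^ 2 / 16)) ^ 2 ≤ A ^ 2 := pow_le_pow_left₀ l6 l5 2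
    have hb3 : 0 < β ^ 2 := by positivity
    nlinarith [sq_nonneg (β ^ 2)]
  have h3 : (B.card : ℝ) ≤ (E.card : ℝ) / (β ^ 2 / 16) +
      s ^ 2 * (d.totient : ℝ) / (β ^ 2 / 16) ^ 2 := by
    refine le_trans ?_ (add_le_add e1 e2)
    exact_mod_cast (card_le_card hsub).trans (card_union_le _ _)
  refine h3.trans (le_of_eq ?_)
  field_simp
  ring

end Pool.Agent.Lib.MP_42948a_nt.BM
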