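import Pool.Agent.Lib.MP_42948a_nt.BM.G5
import Pool.Agent.Lib.MP_42948a_nt.BM.A3

/-!
# The transform of `F0`, and the vanishing of the fourth step at the identity (job T0)

`RF_F0_le`: `‖RF (F0 B J) i g‖ ≤ #J ≤ m` for `g ∈ B` and it is `0` for `g ∉ B`; so `‖FT (RF F0 i) χ‖ ≤ #J #B/φ ≤ m δ` (`FT_le`, `Finset.card_le_univ`, `ZMod.card`) and
`∑ χ, ‖FT‖^2 = (∑ g, ‖RF F0 i g‖^2)/φ ≤ m^2 δ` (`FT_parseval`). `no_rep`: unfold `stp` three times: the sum is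
`∑_{a1} ∑_{a2} ∑_{a3} ∑_{a4} ω a1 ω a2 ω a3 ω a4 * F0 B J (ucl a1 * ucl a2 * ucl a3 * ucl a4) (Om a1 + Om a2 + Om a3 + Om a4)` and every `F0 ..` vanishes by `h`.
-/

namespace Pool.Agent.Lib.MP_42948a_nt.BM

open Finset Pool.Agent.Lib.MP_42948a_nt.OA Pool.Agent.Lib.MP_42948a_nt.OM

private theorem T0_point {m d : ℕ} [NeZero m] (B : Finset (ZMod d)ˣ) (J : Finset (ZMod m)) (i : ZMod m)
    (g : (ZMod d)ˣ) [Decidable (g ∈ B)] : ‖RF (F0 B J) i g‖ ≤ if g ∈ B then (m : ℝ) else 0 := by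
  unfold RF
  refine (norm_sum_le _ _).trans ?_
  have h1 : ∀ x : ZMod m, ‖es (i * x) * ((F0 B J g x : ℝ) : ℂ)‖ = F0 B J g x := by
    intro x
    rw [norm_mul, es_norm, one_mul, Complex.norm_real, Real.norm_of_nonneg (F0_nonneg B J g x)]
  rw [Finset.sum_congr rfl fun x _ => h1 x]
  split_ifs with hg
  · have h2 : ∀ x ∈ (univ : Finset (ZMod m)), F0 B J g x ≤ 1 := by
      intro x _
      unfold F0
      split_ifs
      · exact le_rfl
      · exact zero_le_one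
    refine (Finset.sum_le_sum h2).trans ?_
    rw [Finset.sum_const, Finset.card_univ, ZMod.card, nsmul_eq_mul, mul_one]
  · refine (Finset.sum_eq_zero fun x _ => ?_).le
    unfold F0
    rw [if_neg fun h => hg h.1]

theorem FT_F0_le {m d : ℕ} [NeZero m] [NeZero d] (B : Finset (ZMod d)ˣ) (J : Finset (ZMod m)) (i : ZMod m)
    (χ : DirichletCharacter ℂ d) :
    ‖FT (RF (F0 B J) i) χ‖ ≤ (m : ℝ) * ((B.card : ℝ) / (d.totient : ℝ)) := by
  classical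
  have hφ : (0 : ℝ) < (d.totient : ℝ) := by
    exact_mod_cast Nat.totient_pos.2 (NeZero.pos d)
  refine (FT_le _ χ).trans ?_
  rw [← mul_div_assoc]
  refine div_le_div_of_nonneg_right ?_ hφ.le
  refine (Finset.sum_le_sum fun g _ => T0_point B J i g).trans ?_
  rw [← Finset.sum_filter, Finset.sum_const, nsmul_eq_mul, Finset.filter_mem_eq_inter,
    Finset.univ_inter, mul_comm]

theorem FT_F0_sq {m d : ℕ} [NeZero m] [NeZero d] (B : Finset (ZMod d)ˣ) (J : Finset (ZMod m)) (i : ZMod m) :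
    ∑ χ : DirichletCharacter ℂ d, ‖FT (RF (F0 B J) i) χ‖ ^ 2 ≤
      (m : ℝ) ^ 2 * ((B.card : ℝ) / (d.totient : ℝ)) := by
  classical
  have hφ : (0 : ℝ) < (d.totient : ℝ) := by
    exact_mod_cast Nat.totient_pos.2 (NeZero.pos d)
  rw [FT_parseval, ← mul_div_assoc]
  refine div_le_div_of_nonneg_right ?_ hφ.le
  have h1 : ∀ g : (ZMod d)ˣ, ‖RF (F0 B J) i g‖ ^ 2 ≤ if g ∈ B then (m : ℝ) ^ 2 else 0 := by
    intro g
    have h2 := T0_point B J i g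
    split_ifs at h2 ⊢ with hg
    · exact pow_le_pow_left₀ (norm_nonneg _) h2 2
    · have h3 : ‖RF (F0 B J) i g‖ = 0 := le_antisymm h2 (norm_nonneg _)
      rw [h3]
      norm_num
  refine (Finset.sum_le_sum fun g _ => h1 g).trans ?_
  rw [← Finset.sum_filter, Finset.sum_const, nsmul_eq_mul, Finset.filter_mem_eq_inter,
    Finset.univ_inter, mul_comm]

theorem no_rep {m d : ℕ} [NeZero m] [NeZero d] (Q : Finset ℕ) (ω : ℕ → ℝ) (B : Finset (ZMod d)ˣ)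
    (J : Finset (ZMod m))
    (h : ∀ a1 ∈ Q, ∀ a2 ∈ Q, ∀ a3 ∈ Q, ∀ a4 ∈ Q, ucl d a1 * ucl d a2 * ucl d a3 * ucl d a4 ∈ B →
      ((Om a1 : ZMod m) + (Om a2 : ZMod m) + (Om a3 : ZMod m) + (Om a4 : ZMod m)) ∉ J) :
    ∑ a ∈ Q, ω a * stp Q ω (stp Q ω (stp Q ω (F0 B J))) (ucl d a) (Om a : ZMod m) = 0 := by
  unfold stp
  refine Finset.sum_eq_zero fun a1 h1 => ?_
  refine mul_eq_zero_of_right _ (Finset.sum_eq_zero fun a2 h2 => ?_)
  refine mul_eq_zero_of_right _ (Finset.sum_eq_zero fun a3 h3 => ?_)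
  refine mul_eq_zero_of_right _ (Finset.sum_eq_zero fun a4 h4 => ?_)
  refine mul_eq_zero_of_right _ ?_
  unfold F0
  rw [if_neg]
  rintro ⟨hB, hJ⟩
  exact h a1 h1 a2 h2 a3 h3 a4 h4 hB hJ

end Pool.Agent.Lib.MP_42948a_nt.BM
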