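import Pool.Agent.Lib.MP_42948a_nt.BM.A4
import Pool.Agent.Lib.MP_42948a_nt.BM.T0

/-!
# The average of the projection along `Q` (job T3)

`F3 = stp (stp (stp F0))`, `δ = #B/φ`. `∑_a ω a F3 (ucl a) (Om a) = (1/m) ∑_i ∑_a ω a es (-(i Om a)) RF F3 i (ucl a) = (1/m) ∑_i ∑_χ FT (RF F3 i) χ AA (-i) χ` (`RF_inv`, `Q_eval`) is `0` by `h0`. In the same
way `∑_a ω a rX (ucl a) (Om a)` is the real part of `(1/m) ∑_i ∑_{χ ∈ X} FT (RF F3 i) χ AA (-i) χ` (`ω a` real; `χ (ucl a) = χ a`), so it is minus the real part of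
`(1/m) ∑_i ∑_{χ ∈ offX X} FT (RF F3 i) χ AA (-i) χ`, and `FT (RF F3 i) χ AA (-i) χ = AA (-i) χ ^ 4 FT (RF F0 i) χ` (`FT_RF_stp3`). By Cauchy-Schwarz, `FT_F0_sq` and `W.eighth` the norm of the inner sum is
`≤ √(m^2 δ) √(s^6) = m √δ s^3`, and `s √δ ≤ δ` because `s ≤ δ ≤ 1` (`s √δ ≤ δ √δ ≤ δ`): total `≤ m s^2 δ`. (`δ ≤ 1`: `Finset.card_le_univ`, `ZMod.card_units_eq_totient`.)
-/

namespace Pool.Agent.Lib.MP_42948a_nt.BM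

open Finset Pool.Agent.Lib.MP_42948a_nt.OA Pool.Agent.Lib.MP_42948a_nt.OM

private theorem T3_term {m d : ℕ} [NeZero m] [NeZero d] (Q : Finset ℕ) (ω : ℕ → ℝ)
    (hQ : ∀ a ∈ Q, a.Coprime d) (f : ZMod m → DirichletCharacter ℂ d → ℂ)
    (X : Finset (DirichletCharacter ℂ d)) :
    ∑ a ∈ Q, (ω a : ℂ) * ((1 / (m : ℂ)) * ∑ i : ZMod m, es (-(i * (Om a : ZMod m))) *
      ∑ χ ∈ X, f i χ * χ ((ucl d a : (ZMod d)ˣ) : ZMod d)) =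
    (1 / (m : ℂ)) * ∑ i : ZMod m, ∑ χ ∈ X, f i χ * AA Q ω (-i) χ := by
  unfold AA
  simp only [Finset.mul_sum]
  rw [Finset.sum_comm]
  refine Finset.sum_congr rfl fun i _ => ?_
  rw [Finset.sum_comm]
  refine Finset.sum_congr rfl fun χ _ => ?_
  refine Finset.sum_congr rfl fun a ha => ?_
  rw [ucl_val (hQ a ha), neg_mul]
  ring

private theorem T3_off {m d : ℕ} [NeZero m] [NeZero d] {z Y : ℕ} {β τ s s2 : ℝ} (W : Wlk m d z Y β τ s s2)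
    (hs0 : 0 < s) (B : Finset (ZMod d)ˣ) (J : Finset (ZMod m)) (hB : s * (d.totient : ℝ) ≤ B.card)
    (i : ZMod m) :
    ‖∑ χ ∈ offX W.X, FT (RF (stp W.Q W.ω (stp W.Q W.ω (stp W.Q W.ω (F0 B J)))) i) χ *
      AA W.Q W.ω (-i) χ‖ ≤ (m : ℝ) * s ^ 2 * ((B.card : ℝ) / (d.totient : ℝ)) := by
  have hφ : (0 : ℝ) < d.totient := by exact_mod_cast Nat.totient_pos.2 (NeZero.pos d)
  set δ : ℝ := (B.card : ℝ) / (d.totient : ℝ) with hδ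
  have hsδ : s ≤ δ := by
    rw [hδ, le_div_iff₀ hφ]
    exact hB
  have hδ1 : δ ≤ 1 := by
    rw [hδ, div_le_one hφ]
    have h1 : B.card ≤ Fintype.card (ZMod d)ˣ := Finset.card_le_univ B
    rw [ZMod.card_units_eq_totient] at h1
    exact_mod_cast h1
  have hδ0 : 0 < δ := lt_of_lt_of_le hs0 hsδ
  have h1 : ‖∑ χ ∈ offX W.X, FT (RF (stp W.Q W.ω (stp W.Q W.ω (stp W.Q W.ω (F0 B J)))) i) χ *
      AA W.Q W.ω (-i) χ‖ ≤ ∑ χ ∈ offX W.X, ‖AA W.Q W.ω (-i) χ‖ ^ 4 * ‖FT (RF (F0 B J) i) χ‖ := by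
    refine (norm_sum_le _ _).trans (le_of_eq ?_)
    refine Finset.sum_congr rfl fun χ _ => ?_
    rw [FT_RF_stp3 W.Q W.ω W.cop, norm_mul, norm_mul, norm_pow]
    ring
  have h2 := Finset.sum_mul_sq_le_sq_mul_sq (offX W.X) (fun χ => ‖AA W.Q W.ω (-i) χ‖ ^ 4)
    (fun χ => ‖FT (RF (F0 B J) i) χ‖)
  have h3 : ∑ χ ∈ offX W.X, (‖AA W.Q W.ω (-i) χ‖ ^ 4) ^ 2 ≤ s ^ 6 := by
    have h4 := W.eighth (-i)
    simp only [← pow_mul]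
    exact h4
  have h5 : ∑ χ ∈ offX W.X, ‖FT (RF (F0 B J) i) χ‖ ^ 2 ≤ (m : ℝ) ^ 2 * δ := by
    refine le_trans ?_ (FT_F0_sq B J i)
    rw [sum_offX W.X]
    have : 0 ≤ ∑ χ ∈ W.X, ‖FT (RF (F0 B J) i) χ‖ ^ 2 :=
      Finset.sum_nonneg fun χ _ => by positivity
    linarith
  have h6 : (∑ χ ∈ offX W.X, ‖AA W.Q W.ω (-i) χ‖ ^ 4 * ‖FT (RF (F0 B J) i) χ‖) ^ 2 ≤
      ((m : ℝ) * s ^ 2 * δ) ^ 2 := by
    refine h2.trans ?_
    calc (∑ χ ∈ offX W.X, (‖AA W.Q W.ω (-i) χ‖ ^ 4) ^ 2) *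
          (∑ χ ∈ offX W.X, ‖FT (RF (F0 B J) i) χ‖ ^ 2) ≤ s ^ 6 * ((m : ℝ) ^ 2 * δ) :=
          mul_le_mul h3 h5 (Finset.sum_nonneg fun χ _ => by positivity) (by positivity)
      _ = ((m : ℝ) ^ 2 * s ^ 4 * δ) * s ^ 2 := by ring
      _ ≤ ((m : ℝ) ^ 2 * s ^ 4 * δ) * δ := by
          refine mul_le_mul_of_nonneg_left ?_ (by positivity)
          nlinarith
      _ = ((m : ℝ) * s ^ 2 * δ) ^ 2 := by ring
  refine h1.trans ?_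
  exact (le_abs_self _).trans (abs_le_of_sq_le_sq h6 (by positivity))

theorem rX_zero {m d : ℕ} [NeZero m] [NeZero d] {z Y : ℕ} {β τ s s2 : ℝ} (W : Wlk m d z Y β τ s s2) (hs0 : 0 < s)
    (B : Finset (ZMod d)ˣ) (J : Finset (ZMod m)) (hB : s * (d.totient : ℝ) ≤ B.card)
    (h0 : ∑ a ∈ W.Q, W.ω a * stp W.Q W.ω (stp W.Q W.ω (stp W.Q W.ω (F0 B J))) (ucl d a) (Om a : ZMod m) = 0) :
    |∑ a ∈ W.Q, W.ω a * rX W.X (stp W.Q W.ω (stp W.Q W.ω (stp W.Q W.ω (F0 B J)))) (ucl d a) (Om a : ZMod m)| ≤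
      (m : ℝ) * s ^ 2 * ((B.card : ℝ) / (d.totient : ℝ)) := by
  set F3 := stp W.Q W.ω (stp W.Q W.ω (stp W.Q W.ω (F0 B J))) with hF3
  have hm0 : (0 : ℝ) < m := by exact_mod_cast NeZero.pos m
  set f : ZMod m → DirichletCharacter ℂ d → ℂ := fun i χ => FT (RF F3 i) χ with hf
  have hall : (1 / (m : ℂ)) * ∑ i : ZMod m, ∑ χ : DirichletCharacter ℂ d, f i χ * AA W.Q W.ω (-i) χ = 0 := by
    rw [← T3_term W.Q W.ω W.cop f univ]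
    have e : ∀ a ∈ W.Q, (W.ω a : ℂ) * ((1 / (m : ℂ)) * ∑ i : ZMod m, es (-(i * (Om a : ZMod m))) *
        ∑ χ : DirichletCharacter ℂ d, f i χ * χ ((ucl d a : (ZMod d)ˣ) : ZMod d)) =
        ((W.ω a * F3 (ucl d a) (Om a : ZMod m) : ℝ) : ℂ) := by
      intro a _
      rw [Complex.ofReal_mul, RF_inv F3]
      congr 2
      refine Finset.sum_congr rfl fun i _ => ?_
      rw [← FT_inv]
    rw [Finset.sum_congr rfl e, ← Complex.ofReal_sum, h0, Complex.ofReal_zero]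
  have hX : ∑ a ∈ W.Q, W.ω a * rX W.X F3 (ucl d a) (Om a : ZMod m) =
      ((1 / (m : ℂ)) * ∑ i : ZMod m, ∑ χ ∈ W.X, f i χ * AA W.Q W.ω (-i) χ).re := by
    rw [← T3_term W.Q W.ω W.cop f W.X, Complex.re_sum]
    refine Finset.sum_congr rfl fun a _ => ?_
    rw [Complex.re_ofReal_mul]
    rfl
  have hsplit : (1 / (m : ℂ)) * ∑ i : ZMod m, ∑ χ ∈ W.X, f i χ * AA W.Q W.ω (-i) χ =
      - ((1 / (m : ℂ)) * ∑ i : ZMod m, ∑ χ ∈ offX W.X, f i χ * AA W.Q W.ω (-i) χ) := by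
    rw [eq_neg_iff_add_eq_zero, ← mul_add, ← Finset.sum_add_distrib]
    rw [← hall]
    congr 1
    refine Finset.sum_congr rfl fun i _ => ?_
    rw [← sum_offX W.X]
  rw [hX, hsplit]
  refine (Complex.abs_re_le_norm _).trans ?_
  rw [norm_neg, norm_mul, norm_div, norm_one, Complex.norm_natCast]
  have h1 : ‖∑ i : ZMod m, ∑ χ ∈ offX W.X, f i χ * AA W.Q W.ω (-i) χ‖ ≤
      (m : ℝ) * ((m : ℝ) * s ^ 2 * ((B.card : ℝ) / (d.totient : ℝ))) := by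
    refine (norm_sum_le _ _).trans ?_
    have h2 := Finset.sum_le_card_nsmul (univ : Finset (ZMod m))
      (fun i => ‖∑ χ ∈ offX W.X, f i χ * AA W.Q W.ω (-i) χ‖)
      ((m : ℝ) * s ^ 2 * ((B.card : ℝ) / (d.totient : ℝ))) (fun i _ => T3_off W hs0 B J hB i)
    rw [Finset.card_univ, ZMod.card, nsmul_eq_mul] at h2
    exact h2
  calc 1 / (m : ℝ) * ‖∑ i : ZMod m, ∑ χ ∈ offX W.X, f i χ * AA W.Q W.ω (-i) χ‖ ≤
        1 / (m : ℝ) * ((m : ℝ) * ((m : ℝ) * s ^ 2 * ((B.card : ℝ) / (d.totient : ℝ)))) :=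
        mul_le_mul_of_nonneg_left h1 (by positivity)
    _ = (m : ℝ) * s ^ 2 * ((B.card : ℝ) / (d.totient : ℝ)) := by
        rw [← mul_assoc, one_div, inv_mul_cancel₀ hm0.ne', one_mul]

end Pool.Agent.Lib.MP_42948a_nt.BM
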