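import Pool.Agent.Lib.MP_42948a_nt.BM.Defs

/-!
# Lower bound for the mean of a product (job T4)

`D = {g : ∃ x, η < |f g x - r g x|}`: `#D * η^2 ≤ ∑_g ∑_x (f - r)^2 ≤ e N`, so `#D ≤ (e/η^2) N`. On `P \ D`: `r g x ≥ f g x - η ≥ κ - η ≥ κ/2 > 0`, the product is `≥ (κ/2)^m` (`Finset.prod_le_prod`,
`Finset.prod_const`, `ZMod.card`), and `#(P \ D) ≥ (ρ - e/η^2) N`. Outside `P ∪ D`: `r g x ≥ -η` and `|r g x| ≤ M`: the product is `≥ -η M^m`: it is `≥ 0` if all `r g x ≥ 0`; otherwise some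
`|r g x0| ≤ η` and the other factors are `≤ M` in absolute value, so `|∏| ≤ η M^(m-1) ≤ η M^m` (`Finset.mul_prod_erase`, `Finset.abs_prod`, `1 ≤ M`). On `D`: `∏ ≥ -M^m`. Sum over `g`, divide by `N`
(at most `N` elements outside `P ∪ D`; `(κ/2)^m * #(P \ D) ≥ (κ/2)^m (ρ - e/η^2) N`).
-/

namespace Pool.Agent.Lib.MP_42948a_nt.BM

open Finset Pool.Agent.Lib.MP_42948a_nt.OA Pool.Agent.Lib.MP_42948a_nt.OM

private theorem T4_pos {m : ℕ} [NeZero m] (s : ZMod m → ℝ) (κ : ℝ) (hκ : 0 < κ)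
    (h : ∀ x, κ / 2 ≤ s x) : (κ / 2) ^ m ≤ ∏ x, s x := by
  have h1 : ∏ _x : ZMod m, (κ / 2) ≤ ∏ x, s x :=
    Finset.prod_le_prod (fun x _ => by positivity) (fun x _ => h x)
  rw [Finset.prod_const, Finset.card_univ, ZMod.card] at h1
  exact h1

private theorem T4_abs {m : ℕ} [NeZero m] (s : ZMod m → ℝ) (M : ℝ)
    (h : ∀ x, |s x| ≤ M) : |∏ x, s x| ≤ M ^ m := by
  rw [Finset.abs_prod]
  have h1 : ∏ x, |s x| ≤ ∏ _x : ZMod m, M :=
    Finset.prod_le_prod (fun x _ => abs_nonneg _) (fun x _ => h x)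
  rw [Finset.prod_const, Finset.card_univ, ZMod.card] at h1
  exact h1

private theorem T4_neg {m : ℕ} [NeZero m] (s : ZMod m → ℝ) (M η : ℝ) (hM : 1 ≤ M) (hη : 0 < η)
    (h : ∀ x, |s x| ≤ M) (h0 : ∀ x, -η ≤ s x) : -(η * M ^ m) ≤ ∏ x, s x := by
  classical
  have hM0 : 0 ≤ M := by linarith
  by_cases hall : ∀ x, 0 ≤ s x
  · have h1 : 0 ≤ ∏ x, s x := Finset.prod_nonneg fun x _ => hall x
    have h2 : 0 ≤ η * M ^ m := by positivity
    linarith
  · obtain ⟨x0, hx0⟩ := not_forall.1 hall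
    have hx0' : s x0 < 0 := not_le.1 hx0
    have h1 : |s x0| ≤ η := by
      rw [abs_of_neg hx0']
      have := h0 x0
      linarith
    have h2 : |∏ x, s x| ≤ η * M ^ m := by
      rw [Finset.abs_prod, ← Finset.mul_prod_erase Finset.univ (fun x => |s x|) (Finset.mem_univ x0)]
      have h3 : ∏ x ∈ Finset.univ.erase x0, |s x| ≤ ∏ _x ∈ Finset.univ.erase x0, M :=
        Finset.prod_le_prod (fun x _ => abs_nonneg _) (fun x _ => h x)
      rw [Finset.prod_const, Finset.card_erase_of_mem (Finset.mem_univ x0), Finset.card_univ,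
        ZMod.card] at h3
      have h4 : M ^ (m - 1) ≤ M ^ m := pow_le_pow_right₀ hM (Nat.sub_le m 1)
      exact mul_le_mul h1 (h3.trans h4) (Finset.prod_nonneg fun x _ => abs_nonneg _) hη.le
    have h5 := (abs_le.1 h2).1
    exact h5

theorem prod_lower {G : Type*} [Fintype G] {m : ℕ} [NeZero m] (f r : G → ZMod m → ℝ) (N : ℝ) (hN : 0 < N)
    (hcard : (Fintype.card G : ℝ) = N) (M κ ρ e η : ℝ) (hM : 1 ≤ M) (hκ : 0 < κ) (he : 0 ≤ e) (hη : 0 < η)
    (hηκ : η ≤ κ / 2) (hr : ∀ g x, |r g x| ≤ M) (hf : ∀ g x, 0 ≤ f g x) (P : Finset G) (hP : ρ * N ≤ P.card)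
    (hPκ : ∀ g ∈ P, ∀ x, κ ≤ f g x) (hfr : ∑ g, ∑ x, (f g x - r g x) ^ 2 ≤ e * N) :
    (κ / 2) ^ m * (ρ - e / η ^ 2) - η * M ^ m - M ^ m * (e / η ^ 2) ≤ (∑ g, ∏ x, r g x) / N := by
  classical
  have hM0 : 0 ≤ M := by linarith
  set D : Finset G := Finset.univ.filter (fun g => ∃ x, η < |f g x - r g x|) with hDdef
  have hη2 : 0 < η ^ 2 := by positivity
  have hDc : (D.card : ℝ) * η ^ 2 ≤ e * N := by
    have h1 : (D.card : ℝ) * η ^ 2 = ∑ _g ∈ D, η ^ 2 := by
      rw [Finset.sum_const, nsmul_eq_mul]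
    rw [h1]
    have h2 : ∑ _g ∈ D, η ^ 2 ≤ ∑ g ∈ D, ∑ x, (f g x - r g x) ^ 2 := by
      refine Finset.sum_le_sum fun g hg => ?_
      obtain ⟨x, hx⟩ := (Finset.mem_filter.1 hg).2
      have h3 : η ^ 2 ≤ (f g x - r g x) ^ 2 := by
        rw [← sq_abs (f g x - r g x)]
        exact pow_le_pow_left₀ hη.le hx.le 2
      exact h3.trans (Finset.single_le_sum (f := fun x => (f g x - r g x) ^ 2)
        (fun x _ => sq_nonneg _) (Finset.mem_univ x))
    have h4 : ∑ g ∈ D, ∑ x, (f g x - r g x) ^ 2 ≤ ∑ g, ∑ x, (f g x - r g x) ^ 2 :=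
      Finset.sum_le_sum_of_subset_of_nonneg (Finset.subset_univ _)
        (fun g _ _ => Finset.sum_nonneg fun x _ => sq_nonneg _)
    exact h2.trans (h4.trans hfr)
  have hDN : (D.card : ℝ) ≤ e / η ^ 2 * N := by
    rw [div_mul_eq_mul_div, le_div_iff₀ hη2]
    exact hDc
  have hnD : ∀ g, g ∉ D → ∀ x, f g x - η ≤ r g x := by
    intro g hg x
    by_contra hcon
    apply hg
    rw [hDdef, Finset.mem_filter]
    refine ⟨Finset.mem_univ _, x, ?_⟩
    have h1 : η < f g x - r g x := by linarith [not_le.1 hcon]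
    exact h1.trans_le (le_abs_self _)
  have hpt : ∀ g, (if g ∈ P \ D then (κ / 2) ^ m else 0) - η * M ^ m - (if g ∈ D then M ^ m else 0) ≤
      ∏ x, r g x := by
    intro g
    have hMm : 0 ≤ M ^ m := by positivity
    have hηM : 0 ≤ η * M ^ m := by positivity
    by_cases hgD : g ∈ D
    · have h1 : g ∉ P \ D := fun h => (Finset.mem_sdiff.1 h).2 hgD
      rw [if_neg h1, if_pos hgD]
      have h2 := (abs_le.1 (T4_abs (fun x => r g x) M (hr g))).1
      linarith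
    · rw [if_neg hgD]
      by_cases hgP : g ∈ P
      · rw [if_pos (Finset.mem_sdiff.2 ⟨hgP, hgD⟩)]
        have h2 := T4_pos (fun x => r g x) κ hκ (fun x => by
          have h3 := hnD g hgD x
          have h4 := hPκ g hgP x
          show κ / 2 ≤ r g x
          linarith)
        linarith
      · rw [if_neg (fun h => hgP (Finset.mem_sdiff.1 h).1)]
        have h2 := T4_neg (fun x => r g x) M η hM hη (hr g) (fun x => by
          have h3 := hnD g hgD x
          have h4 := hf g x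
          show -η ≤ r g x
          linarith)
        linarith
  have hsum : ((P \ D).card : ℝ) * (κ / 2) ^ m - N * (η * M ^ m) - (D.card : ℝ) * M ^ m ≤
      ∑ g, ∏ x, r g x := by
    have h1 := Finset.sum_le_sum (fun g (_ : g ∈ (Finset.univ : Finset G)) => hpt g)
    rw [Finset.sum_sub_distrib, Finset.sum_sub_distrib, ← Finset.sum_filter, ← Finset.sum_filter,
      Finset.sum_const, Finset.sum_const, Finset.sum_const, Finset.card_univ, nsmul_eq_mul, nsmul_eq_mul,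
      nsmul_eq_mul, hcard] at h1
    have e1 : (Finset.univ.filter (fun g => g ∈ P \ D)).card = (P \ D).card := by
      rw [Finset.filter_mem_eq_inter, Finset.univ_inter]
    have e2 : (Finset.univ.filter (fun g => g ∈ D)).card = D.card := by
      rw [Finset.filter_mem_eq_inter, Finset.univ_inter]
    rw [e1, e2] at h1
    exact h1
  have hPD : (P.card : ℝ) - D.card ≤ ((P \ D).card : ℝ) := by
    have h1 : P.card ≤ (P \ D).card + D.card := Finset.card_le_card_sdiff_add_card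
    have h2 : (P.card : ℝ) ≤ ((P \ D).card : ℝ) + D.card := by exact_mod_cast h1
    linarith
  rw [le_div_iff₀ hN]
  refine le_trans ?_ hsum
  have hκm : 0 ≤ (κ / 2) ^ m := by positivity
  have hMm : 0 ≤ M ^ m := by positivity
  have h1 : (ρ - e / η ^ 2) * N ≤ ((P \ D).card : ℝ) := by
    have : (ρ - e / η ^ 2) * N = ρ * N - e / η ^ 2 * N := by ring
    rw [this]
    linarith
  have h2 : (κ / 2) ^ m * ((ρ - e / η ^ 2) * N) ≤ (κ / 2) ^ m * ((P \ D).card : ℝ) :=
    mul_le_mul_of_nonneg_left h1 hκm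
  have h3 : M ^ m * (D.card : ℝ) ≤ M ^ m * (e / η ^ 2 * N) := mul_le_mul_of_nonneg_left hDN hMm
  nlinarith

end Pool.Agent.Lib.MP_42948a_nt.BM
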