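import Pool.Agent.Lib.MP_42948a_nt.BM.A4

/-!
# Upper bound for negative parts along `Q` (job T5)

Weierstrass (`exists_polynomial_near_of_continuousOn`) on `[-M, M]` for the continuous function `x ↦ max 0 (-x) + ε/2` and the tolerance `ε/2`: a real polynomial `P` with
`max 0 (-x) ≤ P x ≤ max 0 (-x) + ε` for `|x| ≤ M`. Take `C = ∑ k ∈ P.support, |P.coeff k| * M ^ k ≥ 0`. If `Wn r ≤ M` then `|r g| ≤ M` (`norm_le_Wn`), `h g = P.eval (r g) ≥ 0`,
`Wn h ≤ C` (`Wn_poly`), so by `W.major`: `∑ ω a max 0 (-r) ≤ ∑ ω a h (ucl a) ≤ 2 mn h + s2 C` and `mn h ≤ mn (max 0 (-r)) + ε` (`card G = φ > 0`).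
-/

namespace Pool.Agent.Lib.MP_42948a_nt.BM

open Finset Pool.Agent.Lib.MP_42948a_nt.OA Pool.Agent.Lib.MP_42948a_nt.OM

theorem neg_part (M ε : ℝ) (hM : 0 < M) (hε : 0 < ε) : ∃ C : ℝ, 0 ≤ C ∧ ∀ (m d : ℕ) [NeZero m] [NeZero d] (z Y : ℕ)
    (β τ s s2 : ℝ) (W : Wlk m d z Y β τ s s2), 0 ≤ s2 → ∀ r : (ZMod d)ˣ → ℝ, Wn (fun g => ((r g : ℝ) : ℂ)) ≤ M →
      ∑ a ∈ W.Q, W.ω a * max 0 (-(r (ucl d a))) ≤ 2 * mn (fun g => max 0 (-(r g))) + 2 * ε + s2 * C := by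
  obtain ⟨P, hP⟩ := exists_polynomial_near_of_continuousOn (-M) M
    (fun x : ℝ => max 0 (-x) + ε / 2) (by fun_prop) (ε / 2) (by positivity)
  refine ⟨∑ k ∈ P.support, |P.coeff k| * M ^ k, Finset.sum_nonneg fun k _ => by positivity, ?_⟩
  intro m d _ _ z Y β τ s s2 W hs2 r hr
  have hb : ∀ g, r g ∈ Set.Icc (-M) M := by
    intro g
    have h1 := (norm_le_Wn (fun g => ((r g : ℝ) : ℂ)) g).trans hr
    rw [Complex.norm_real, Real.norm_eq_abs] at h1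
    exact abs_le.1 h1
  have hlo : ∀ g, max 0 (-(r g)) ≤ P.eval (r g) := by
    intro g
    have h1 := abs_lt.1 (hP (r g) (hb g))
    linarith [h1.1]
  have hhi : ∀ g, P.eval (r g) ≤ max 0 (-(r g)) + ε := by
    intro g
    have h1 := abs_lt.1 (hP (r g) (hb g))
    linarith [h1.2]
  have h1 := W.major (fun g => P.eval (r g)) fun g => (le_max_left _ _).trans (hlo g)
  have h2 : ∑ a ∈ W.Q, W.ω a * max 0 (-(r (ucl d a))) ≤
      ∑ a ∈ W.Q, W.ω a * P.eval (r (ucl d a)) :=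
    Finset.sum_le_sum fun a ha => mul_le_mul_of_nonneg_left (hlo _) (W.nonneg a ha)
  have h3 : s2 * Wn (fun g => ((P.eval (r g) : ℝ) : ℂ)) ≤
      s2 * ∑ k ∈ P.support, |P.coeff k| * M ^ k :=
    mul_le_mul_of_nonneg_left (Wn_poly P r M hr) hs2
  have h4 : mn (fun g => P.eval (r g)) ≤ mn (fun g => max 0 (-(r g))) + ε := by
    have hd : 0 < d.totient := Nat.totient_pos.2 (Nat.pos_of_ne_zero (NeZero.ne d))
    have hd' : (0 : ℝ) < (d.totient : ℝ) := by exact_mod_cast hd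
    unfold mn
    rw [div_add' _ _ _ hd'.ne']
    refine div_le_div_of_nonneg_right ?_ hd'.le
    refine (Finset.sum_le_sum fun g _ => hhi g).trans (le_of_eq ?_)
    rw [Finset.sum_add_distrib, Finset.sum_const, Finset.card_univ,
      ZMod.card_units_eq_totient, nsmul_eq_mul]
    ring
  linarith

end Pool.Agent.Lib.MP_42948a_nt.BM
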