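import Pool.Agent.Lib.MP_42948a_nt.BM.T1
import Pool.Agent.Lib.MP_42948a_nt.BM.T3
import Pool.Agent.Lib.MP_42948a_nt.BM.T4
import Pool.Agent.Lib.MP_42948a_nt.BM.T5
import Pool.Agent.Lib.MP_42948a_nt.BM.T6a

/-!
# The abstract theorem (job T6)

`M = 2 m`, `ε = c3 m β/(8 m M^m)`, `C` from `neg_part M ε`, `s0` from `choose_s0`. Suppose there are no such `a1, .., a4`; `F3 = stp (stp (stp F0))`, `δ = #B/φ ≥ s > 0`, `f g x = F3 g x/δ ≥ 0` (`stp_nonneg`,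
`F0_nonneg`), `r g x = rX W.X F3 g x/δ`. `τ ≤ tau0 ≤ β^2/100 ≤ 1` (`tau0_le`).
(1) `Wn (r . x) ≤ M` (`Wn_rX`, `Wn_const_mul` with `c = 1/δ`), so `|r| ≤ M` (`norm_le_Wn`). (2) `close`: `∑_g ∑_x (f - r)^2 ≤ m^2 s^5 φ`. (3) `three_steps`: a set `P` with `#P ≥ rh3 φ` and `kp3 ≤ f g x` for
`g ∈ P` and all `x` (the sets `S` have `m` elements: `univ`). (4) `prod_lower` with `η = s`, `e = m^2 s^5`, `κ = kp3`, `ρ = rh3`, `N = φ`:
`mn (∏_x r) ≥ (kp3/2)^m (rh3 - e/s^2) - s M^m - M^m e/s^2`. (5) `Q_mean` for `h g = ∏_x r g x` (`Wn h ≤ M^m`: `Wn_prod` with `S = univ`, cast of the product):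
`∑_a ω a ∏_x r (ucl a) x ≥ mn h - √τ M^m ≥ mn h - c3 m β` (`tau0_le`, `Real.sqrt_le_sqrt`). (6) For every `x`: `mn (max 0 (-r . x)) ≤ m s^2`: `max 0 (-r) ≤ |f - r|` (`f ≥ 0`), Cauchy-Schwarz,
`√(m^2 s^5) ≤ m s^2` (`s ≤ 1`); so `neg_part`: `∑_a ω a max 0 (-(r (ucl a) x)) ≤ 2 m s^2 + 2 ε + s2 C`. (7) `no_rep` and `rX_zero`, divided by `δ`: `∑_a ω a r (ucl a) (Om a) ≤ m s^2`.
(8) For every `a`: `∏_x r (ucl a) x ≤ |∏| ≤ M^(m-1) |r (ucl a) (Om a)| ≤ M^m |r ..|` (`Finset.mul_prod_erase`) and `|y| = y + 2 max 0 (-y)`, and `max 0 (-(r (ucl a) (Om a))) ≤ ∑_x max 0 (-(r (ucl a) x))`. Hence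
`∑_a ω a ∏_x r ≤ M^m (m s^2 + 2 m (2 m s^2 + 2 ε + s2 C))`, which contradicts (5), (4) and `choose_s0`.
-/

namespace Pool.Agent.Lib.MP_42948a_nt.BM

open Finset Pool.Agent.Lib.MP_42948a_nt.OA Pool.Agent.Lib.MP_42948a_nt.OM

private theorem T6_pos {m : ℕ} [NeZero m] (M : ℝ) (hM : 1 ≤ M)
    (r : ZMod m → ℝ) (hr : ∀ x, |r x| ≤ M) (y : ZMod m) :
    ∏ x : ZMod m, r x ≤ M ^ m * (r y + 2 * ∑ x : ZMod m, max 0 (-(r x))) := by
  have h0 : (0 : ℝ) ≤ M := by linarith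
  have h1 : ∏ x : ZMod m, r x ≤ |r y| * M ^ (m - 1) := by
    refine (le_abs_self _).trans ?_
    rw [Finset.abs_prod, ← Finset.mul_prod_erase univ (fun x => |r x|) (Finset.mem_univ y)]
    refine mul_le_mul_of_nonneg_left ?_ (abs_nonneg _)
    have h2 : ∏ x ∈ univ.erase y, |r x| ≤ ∏ _x ∈ (univ : Finset (ZMod m)).erase y, M :=
      Finset.prod_le_prod (fun _ _ => abs_nonneg _) (fun x _ => hr x)
    refine h2.trans (le_of_eq ?_)
    rw [Finset.prod_const, Finset.card_erase_of_mem (Finset.mem_univ y), Finset.card_univ, ZMod.card]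
  have h2 : M ^ (m - 1) ≤ M ^ m := pow_le_pow_right₀ hM (Nat.sub_le _ _)
  have h3 : |r y| = r y + 2 * max 0 (-(r y)) := by
    rcases le_total 0 (r y) with h | h
    · rw [abs_of_nonneg h, max_eq_left (by linarith)]
      ring
    · rw [abs_of_nonpos h, max_eq_right (by linarith)]
      ring
  have h4 : max 0 (-(r y)) ≤ ∑ x : ZMod m, max 0 (-(r x)) :=
    Finset.single_le_sum (f := fun x => max 0 (-(r x))) (fun x _ => le_max_left _ _) (Finset.mem_univ y)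
  calc ∏ x : ZMod m, r x ≤ |r y| * M ^ (m - 1) := h1
    _ ≤ |r y| * M ^ m := mul_le_mul_of_nonneg_left h2 (abs_nonneg _)
    _ = M ^ m * (r y + 2 * max 0 (-(r y))) := by rw [mul_comm, h3]
    _ ≤ M ^ m * (r y + 2 * ∑ x : ZMod m, max 0 (-(r x))) := by
        refine mul_le_mul_of_nonneg_left ?_ (pow_nonneg h0 m)
        linarith

theorem base_abs (m : ℕ) (hm : m.Prime) (hm3 : 3 ≤ m) [NeZero m] (β : ℝ) (hβ : 0 < β) (hβ1 : β ≤ 1) :
    ∃ s0 : ℝ, 0 < s0 ∧ ∀ (d : ℕ) [NeZero d] (z Y : ℕ) (τ s s2 : ℝ) (W : Wlk m d z Y β τ s s2),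
      τ ≤ tau0 m β → 0 < s → s ≤ s0 → 0 ≤ s2 → s2 ≤ s0 → ∀ (B : Finset (ZMod d)ˣ) (J : Finset (ZMod m)),
      s * (d.totient : ℝ) ≤ B.card → 1 ≤ J.card → J.card < m → m ≤ J.card + 3 →
      ∃ a1 ∈ W.Q, ∃ a2 ∈ W.Q, ∃ a3 ∈ W.Q, ∃ a4 ∈ W.Q, ucl d a1 * ucl d a2 * ucl d a3 * ucl d a4 ∈ B ∧
        ((Om a1 : ZMod m) + (Om a2 : ZMod m) + (Om a3 : ZMod m) + (Om a4 : ZMod m)) ∈ J := by
  classical
  have hmR : (3 : ℝ) ≤ m := by exact_mod_cast hm3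
  obtain ⟨hg0, hr10, hk0, hr30, hc30, ht0⟩ := consts_pos m hm3 β hβ
  obtain ⟨M, hM⟩ : ∃ M : ℝ, M = 2 * (m : ℝ) := ⟨_, rfl⟩
  have hM1 : 1 ≤ M := by rw [hM]; linarith
  have hM0 : 0 < M := by linarith
  have hMm : 0 < M ^ m := pow_pos hM0 m
  obtain ⟨ε, hεd⟩ : ∃ ε : ℝ, ε = c3 m β / (8 * m * (2 * (m : ℝ)) ^ m) := ⟨_, rfl⟩
  have hε : 0 < ε := by
    rw [hεd, ← hM]
    positivity
  obtain ⟨C, hC0, hC⟩ := neg_part M ε hM0 hε
  obtain ⟨s0, hs0, hs01, hs0β, hs0r, hs0k, hch⟩ := choose_s0 m hm3 β hβ hβ1 C hC0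
  refine ⟨s0, hs0, ?_⟩
  intro d _ z Y τ s s2 W hτ hs hss0 hs2 hs20 B J hB hJ1 hJ2 hJ3
  by_contra hcon
  have hφ : (0 : ℝ) < (d.totient : ℝ) := by exact_mod_cast Nat.totient_pos.2 (NeZero.pos d)
  obtain ⟨δ, hδ⟩ : ∃ δ : ℝ, δ = (B.card : ℝ) / (d.totient : ℝ) := ⟨_, rfl⟩
  have hδs : s ≤ δ := by rw [hδ, le_div_iff₀ hφ]; exact hB
  have hδ0 : 0 < δ := by linarith
  have hs1 : s ≤ 1 := by linarith
  obtain ⟨hτβ, hτc⟩ := tau0_le m hm3 β hβ hβ1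
  have hτ1 : τ ≤ 1 := by
    have : β ^ 2 ≤ 1 := pow_le_one₀ hβ.le hβ1
    linarith
  obtain ⟨F3, hF3⟩ : ∃ F : (ZMod d)ˣ → ZMod m → ℝ, F = stp W.Q W.ω (stp W.Q W.ω (stp W.Q W.ω (F0 B J))) := ⟨_, rfl⟩
  have hF3n : ∀ g x, 0 ≤ F3 g x := by
    rw [hF3]
    exact stp_nonneg W.Q W.ω W.nonneg _ (stp_nonneg W.Q W.ω W.nonneg _ (stp_nonneg W.Q W.ω W.nonneg _ (F0_nonneg B J)))
  -- the normalised functions
  obtain ⟨f, hf⟩ : ∃ f : (ZMod d)ˣ → ZMod m → ℝ, f = fun g x => F3 g x / δ := ⟨_, rfl⟩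
  obtain ⟨r, hr⟩ : ∃ r : (ZMod d)ˣ → ZMod m → ℝ, r = fun g x => rX W.X F3 g x / δ := ⟨_, rfl⟩
  have hfn : ∀ g x, 0 ≤ f g x := by
    intro g x
    rw [hf]
    exact div_nonneg (hF3n g x) hδ0.le
  -- (1)
  have h1 : ∀ x, Wn (fun g => ((r g x : ℝ) : ℂ)) ≤ M := by
    intro x
    have e1 : (fun g => ((r g x : ℝ) : ℂ)) = fun g => ((1 / δ : ℝ) : ℂ) * ((rX W.X F3 g x : ℝ) : ℂ) := by
      funext g
      rw [hr, ← Complex.ofReal_mul]
      congr 1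
      ring
    rw [e1]
    refine (Wn_const_mul _ _).trans ?_
    have e2 := Wn_rX W hτ1 B J x
    rw [← hF3, ← hδ] at e2
    rw [Complex.norm_real, Real.norm_of_nonneg (by positivity)]
    calc 1 / δ * Wn (fun g => ((rX W.X F3 g x : ℝ) : ℂ)) ≤ 1 / δ * (2 * (m : ℝ) * δ) :=
          mul_le_mul_of_nonneg_left e2 (by positivity)
      _ = M := by rw [hM]; field_simp
  have h1' : ∀ g x, |r g x| ≤ M := by
    intro g x
    have e1 := (norm_le_Wn (fun g => ((r g x : ℝ) : ℂ)) g).trans (h1 x)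
    simp only [Complex.norm_real, Real.norm_eq_abs] at e1
    exact e1
  -- (2)
  have h2 : ∑ g, ∑ x, (f g x - r g x) ^ 2 ≤ ((m : ℝ) ^ 2 * s ^ 5) * (d.totient : ℝ) := by
    have e1 := close W hs B J hB
    rw [← hF3, ← hδ] at e1
    unfold mn at e1
    rw [div_le_iff₀ hφ] at e1
    have e2 : ∑ g, ∑ x, (f g x - r g x) ^ 2 = (∑ g, ∑ x, (F3 g x - rX W.X F3 g x) ^ 2) / δ ^ 2 := by
      rw [Finset.sum_div]
      refine Finset.sum_congr rfl fun g _ => ?_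
      rw [Finset.sum_div]
      refine Finset.sum_congr rfl fun x _ => ?_
      rw [hf, hr]
      field_simp
    rw [e2, div_le_iff₀ (by positivity)]
    calc _ ≤ _ := e1
      _ = _ := by ring
  -- (3)
  have h3 := three_steps hm W hβ hβ1 (hτ.trans hτβ) hs (hss0.trans hs0β) (hss0.trans hs0r) B J hB hJ1 hJ2 hJ3
  rw [← hF3, ← hδ] at h3
  obtain ⟨P, hP, hPS⟩ := h3
  have h3' : ∀ g ∈ P, ∀ x, kp3 m β ≤ f g x := by
    intro g hg x
    obtain ⟨S, hS1, hS2⟩ := hPS g hg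
    have hSu : S = univ := by
      refine Finset.eq_univ_of_card S (le_antisymm ?_ ?_)
      · exact Finset.card_le_univ S
      · rw [ZMod.card]
        exact hS1
    have e1 := hS2 x (by rw [hSu]; exact Finset.mem_univ x)
    rw [hf]
    show kp3 m β ≤ F3 g x / δ
    rw [le_div_iff₀ hδ0]
    exact e1
  have hcard : (Fintype.card (ZMod d)ˣ : ℝ) = (d.totient : ℝ) := by
    rw [ZMod.card_units_eq_totient]
  -- (4)
  have h4 := prod_lower f r (d.totient : ℝ) hφ hcard M (kp3 m β) (rh3 β) ((m : ℝ) ^ 2 * s ^ 5) s hM1 hk0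
    (by positivity) hs (hss0.trans hs0k) h1' hfn P hP h3' h2
  -- (5)
  have h5 := Q_mean W (fun g => ∏ x : ZMod m, r g x)
  have h5W : Wn (fun g => (((∏ x : ZMod m, r g x : ℝ)) : ℂ)) ≤ M ^ m := by
    have e1 := Wn_prod (univ : Finset (ZMod m)) (fun x g => ((r g x : ℝ) : ℂ)) M (fun x _ => h1 x)
    rw [Finset.card_univ, ZMod.card] at e1
    refine le_trans (le_of_eq ?_) e1
    congr 1
    funext g
    push_cast
    rfl
  have h5' : √τ * Wn (fun g => (((∏ x : ZMod m, r g x : ℝ)) : ℂ)) ≤ c3 m β := by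
    calc √τ * Wn (fun g => (((∏ x : ZMod m, r g x : ℝ)) : ℂ)) ≤ √(tau0 m β) * M ^ m :=
          mul_le_mul (Real.sqrt_le_sqrt hτ) h5W (Wn_nonneg _) (Real.sqrt_nonneg _)
      _ = c3 m β := by rw [hM]; exact hτc
  have h5'' := (abs_le.1 (h5.trans h5')).1
  -- (6)
  have h6 : ∀ x, mn (fun g => max 0 (-(r g x))) ≤ (m : ℝ) * s ^ 2 := by
    intro x
    unfold mn
    rw [div_le_iff₀ hφ]
    have e1 : ∑ g, max 0 (-(r g x)) ≤ ∑ g, |f g x - r g x| := by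
      refine Finset.sum_le_sum fun g _ => ?_
      refine max_le (abs_nonneg _) ?_
      have := hfn g x
      exact le_trans (by linarith) (le_abs_self _)
    have e2 : (∑ g, |f g x - r g x|) ^ 2 ≤ (d.totient : ℝ) * ∑ g, (f g x - r g x) ^ 2 := by
      have e3 := sq_sum_le_card_mul_sum_sq (s := (univ : Finset (ZMod d)ˣ)) (f := fun g => |f g x - r g x|)
      rw [Finset.card_univ, hcard] at e3
      simpa only [sq_abs] using e3
    have e3 : ∑ g, (f g x - r g x) ^ 2 ≤ ∑ g, ∑ x, (f g x - r g x) ^ 2 := by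
      refine Finset.sum_le_sum fun g _ => ?_
      exact Finset.single_le_sum (f := fun x => (f g x - r g x) ^ 2) (fun _ _ => sq_nonneg _) (Finset.mem_univ x)
    have e4 : (∑ g, |f g x - r g x|) ^ 2 ≤ ((m : ℝ) * s ^ 2 * (d.totient : ℝ)) ^ 2 := by
      calc (∑ g, |f g x - r g x|) ^ 2 ≤ (d.totient : ℝ) * (((m : ℝ) ^ 2 * s ^ 5) * (d.totient : ℝ)) :=
            e2.trans (mul_le_mul_of_nonneg_left (e3.trans h2) hφ.le)
        _ ≤ (d.totient : ℝ) * (((m : ℝ) ^ 2 * s ^ 4) * (d.totient : ℝ)) := by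
            have : s ^ 5 ≤ s ^ 4 := pow_le_pow_of_le_one hs.le hs1 (by norm_num)
            gcongr
        _ = ((m : ℝ) * s ^ 2 * (d.totient : ℝ)) ^ 2 := by ring
    exact e1.trans ((pow_le_pow_iff_left₀ (Finset.sum_nonneg fun _ _ => abs_nonneg _) (by positivity)
      two_ne_zero).1 e4)
  -- (7)
  have h7 : ∀ x, ∑ a ∈ W.Q, W.ω a * max 0 (-(r (ucl d a) x)) ≤ 2 * ((m : ℝ) * s ^ 2) + 2 * ε + s2 * C := by
    intro x
    have e1 := hC m d z Y β τ s s2 W hs2 (fun g => r g x) (h1 x)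
    have e2 := h6 x
    linarith
  -- (8)
  have h8 : ∑ a ∈ W.Q, W.ω a * r (ucl d a) (Om a : ZMod m) ≤ (m : ℝ) * s ^ 2 := by
    have e0 := no_rep W.Q W.ω B J (fun a1 ha1 a2 ha2 a3 ha3 a4 ha4 hb hj =>
      hcon ⟨a1, ha1, a2, ha2, a3, ha3, a4, ha4, hb, hj⟩)
    have e1 := (abs_le.1 (rX_zero W hs B J hB e0)).2
    rw [← hF3, ← hδ] at e1
    have e2 : ∑ a ∈ W.Q, W.ω a * r (ucl d a) (Om a : ZMod m) =
        (∑ a ∈ W.Q, W.ω a * rX W.X F3 (ucl d a) (Om a : ZMod m)) / δ := by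
      rw [Finset.sum_div]
      refine Finset.sum_congr rfl fun a _ => ?_
      rw [hr]
      ring
    rw [e2, div_le_iff₀ hδ0]
    exact e1
  -- (9)
  have h9 : ∑ a ∈ W.Q, W.ω a * ∏ x : ZMod m, r (ucl d a) x ≤
      M ^ m * ((m : ℝ) * s ^ 2 + 2 * ((m : ℝ) * (2 * ((m : ℝ) * s ^ 2) + 2 * ε + s2 * C))) := by
    calc ∑ a ∈ W.Q, W.ω a * ∏ x : ZMod m, r (ucl d a) x
        ≤ ∑ a ∈ W.Q, W.ω a * (M ^ m * (r (ucl d a) (Om a : ZMod m) +
            2 * ∑ x : ZMod m, max 0 (-(r (ucl d a) x)))) :=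
          Finset.sum_le_sum fun a ha => mul_le_mul_of_nonneg_left
            (T6_pos M hM1 (r (ucl d a)) (h1' (ucl d a)) _) (W.nonneg a ha)
      _ = M ^ m * (∑ a ∈ W.Q, W.ω a * r (ucl d a) (Om a : ZMod m) +
            2 * ∑ x : ZMod m, ∑ a ∈ W.Q, W.ω a * max 0 (-(r (ucl d a) x))) := by
          rw [Finset.sum_comm, Finset.mul_sum, ← Finset.sum_add_distrib, Finset.mul_sum]
          refine Finset.sum_congr rfl fun a _ => ?_
          rw [← Finset.mul_sum]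
          ring
      _ ≤ M ^ m * ((m : ℝ) * s ^ 2 + 2 * ((m : ℝ) * (2 * ((m : ℝ) * s ^ 2) + 2 * ε + s2 * C))) := by
          refine mul_le_mul_of_nonneg_left ?_ hMm.le
          have e1 : ∑ x : ZMod m, ∑ a ∈ W.Q, W.ω a * max 0 (-(r (ucl d a) x)) ≤
              (m : ℝ) * (2 * ((m : ℝ) * s ^ 2) + 2 * ε + s2 * C) := by
            refine (Finset.sum_le_sum fun x _ => h7 x).trans (le_of_eq ?_)
            rw [Finset.sum_const, Finset.card_univ, ZMod.card, nsmul_eq_mul]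
          linarith
  -- (10)
  have h10 := hch s s2 hs hss0 hs2 hs20
  rw [← hεd, ← hM] at h10
  have h4' : (∑ g, ∏ x, r g x) / (d.totient : ℝ) = mn (fun g => ∏ x : ZMod m, r g x) := rfl
  rw [h4'] at h4
  linarith

end Pool.Agent.Lib.MP_42948a_nt.BM
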